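import Mathlib

/-!
The symbol lemma: composites of a derivation of order `p - 1` with a point derivation.
-/

set_option autoImplicit false
set_option linter.unusedSectionVars false

open Finset PowerSeries

universe u v

namespace Pool.Agent.H208Q

section leib

variable {R : Type u} [CommRing R] (I : Ideal R) (D : R →+ R)
  (hD : ∀ a b, D (a * b) - (a * D b + b * D a) ∈ I) (hI : ∀ a ∈ I, D a ∈ I)

include hI in
lemma iter_mem (n : ℕ) : ∀ a ∈ I, D^[n] a ∈ I := by
  induction n with
  | zero => intro a ha; exact ha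
  | succ n ih =>
    intro a ha
    rw [Function.iterate_succ_apply]
    exact ih _ (hI _ ha)

lemma iter_sub (n : ℕ) (a b : R) : D^[n] (a - b) = D^[n] a - D^[n] b := by
  induction n generalizing a b with
  | zero => rfl
  | succ n ih =>
    rw [Function.iterate_succ_apply, Function.iterate_succ_apply, Function.iterate_succ_apply,
      map_sub, ih]

lemma iter_add (n : ℕ) (a b : R) : D^[n] (a + b) = D^[n] a + D^[n] b := by
  induction n generalizing a b with
  | zero => rfl
  | succ n ih =>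
    rw [Function.iterate_succ_apply, Function.iterate_succ_apply, Function.iterate_succ_apply,
      map_add, ih]

include hD hI in
/-- Leibniz. -/
lemma iter_mul (n : ℕ) : ∀ t f : R, D^[n] (t * f) -
    ∑ ij ∈ antidiagonal n, (n.choose ij.1 : R) * (D^[ij.1] t * D^[ij.2] f) ∈ I := by
  induction n with
  | zero =>
    intro t f
    simp
  | succ n ih =>
    intro t f
    have h1 := sum_antidiagonal_choose_succ_mul (R := R) (fun i j => D^[i] t * D^[j] f) n
    rw [h1]
    have h2 : D^[n + 1] (t * f) = D^[n] (D (t * f) - (t * D f + f * D t)) + (D^[n] (t * D f) +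
        D^[n] (D t * f)) := by
      rw [Function.iterate_succ_apply, iter_sub, iter_add, mul_comm f (D t)]
      ring
    have h3 := iter_mem I D hI n _ (hD t f)
    have h4 := ih t (D f)
    have h5 := ih (D t) f
    have h6 : ∑ ij ∈ antidiagonal n, (n.choose ij.2 : R) * (D^[ij.1 + 1] t * D^[ij.2] f) =
        ∑ ij ∈ antidiagonal n, (n.choose ij.1 : R) * (D^[ij.1] (D t) * D^[ij.2] f) := by
      refine Finset.sum_congr rfl fun ij hij => ?_
      rw [Function.iterate_succ_apply, Nat.choose_symm_of_eq_add (mem_antidiagonal.1 hij).symm]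
    have h7 : ∑ ij ∈ antidiagonal n, (n.choose ij.1 : R) * (D^[ij.1] t * D^[ij.2 + 1] f) =
        ∑ ij ∈ antidiagonal n, (n.choose ij.1 : R) * (D^[ij.1] t * D^[ij.2] (D f)) := by
      refine Finset.sum_congr rfl fun ij _ => ?_
      rw [Function.iterate_succ_apply]
    rw [h6, h7, h2]
    have h8 := I.add_mem h3 (I.add_mem h4 h5)
    convert h8 using 1
    ring

end leib

section symb

variable {R : Type u} [CommRing R] (I : Ideal R) (D : R →+ R)
  (hD : ∀ a b, D (a * b) - (a * D b + b * D a) ∈ I) (hI : ∀ a ∈ I, D a ∈ I)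
  {κ : Type v} [Field κ] (ev : R →+* κ) (hev : ∀ a ∈ I, ev a = 0) (E : R →+ κ)
  (hE : ∀ a b, E (a * b) = ev a * E b + ev b * E a) (hEI : ∀ a ∈ I, E a = 0)

/-- Taylor series. -/
noncomputable def tay (φ : R → κ) (f : R) : κ⟦X⟧ :=
  PowerSeries.mk fun a => ((a.factorial : κ)⁻¹ * φ (D^[a] f))

lemma coeff_tay (φ : R → κ) (f : R) (a : ℕ) :
    coeff a (tay D φ f) = (a.factorial : κ)⁻¹ * φ (D^[a] f) := by
  rw [tay, coeff_mk]

variable {p : ℕ} (hp : p.Prime) [CharP κ p]

include hp in
lemma fact_ne {a : ℕ} (ha : a < p) : (a.factorial : κ) ≠ 0 := by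
  intro h
  rw [CharP.cast_eq_zero_iff κ p, hp.dvd_factorial] at h
  omega

include hp in
lemma choose_fact {i j : ℕ} (ha : i + j < p) :
    ((i + j).factorial : κ)⁻¹ * ((i + j).choose i : κ) =
      (i.factorial : κ)⁻¹ * (j.factorial : κ)⁻¹ := by
  have h1 : (i + j).choose i * i.factorial * j.factorial = (i + j).factorial := by
    have h0 := Nat.choose_mul_factorial_mul_factorial (Nat.le_add_right i j)
    rwa [Nat.add_sub_cancel_left] at h0
  have h2 : ((i + j).choose i : κ) * (i.factorial : κ) * (j.factorial : κ) =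
      ((i + j).factorial : κ) := by exact_mod_cast congrArg (Nat.cast : ℕ → κ) h1
  have h3 := fact_ne (κ := κ) hp ha
  have h4 := fact_ne (κ := κ) hp (a := i) (by omega)
  have h5 := fact_ne (κ := κ) hp (a := j) (by omega)
  field_simp
  rw [← h2]

include hp hD hI in
lemma tay_mul (φ : R →+ κ) (hφ : ∀ a ∈ I, φ a = 0) (t f : R) :
    ∀ a < p, coeff a (tay D φ (t * f)) = ∑ ij ∈ antidiagonal a,
      (ij.1.factorial : κ)⁻¹ * (ij.2.factorial : κ)⁻¹ * φ (D^[ij.1] t * D^[ij.2] f) := by
  intro a ha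
  have h1 := hφ _ (iter_mul I D hD hI a t f)
  rw [map_sub, sub_eq_zero] at h1
  rw [coeff_tay, h1, map_sum, Finset.mul_sum]
  refine Finset.sum_congr rfl fun ij hij => ?_
  have h2 : ij.1 + ij.2 = a := mem_antidiagonal.1 hij
  subst h2
  rw [← choose_fact hp ha, ← nsmul_eq_mul, map_nsmul, nsmul_eq_mul]
  ring

include hp hD hI hev in
lemma tay_mulP (t f : R) :
    (X : κ⟦X⟧) ^ p ∣ tay D ev (t * f) - tay D ev t * tay D ev f := by
  rw [X_pow_dvd_iff]
  intro a ha
  have h1 := tay_mul I D hD hI hp (ev : R →+ κ) hev t f a ha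
  rw [map_sub, sub_eq_zero]
  refine h1.trans ?_
  rw [coeff_mul]
  refine Finset.sum_congr rfl fun ij _ => ?_
  rw [coeff_tay, coeff_tay]
  change _ * _ * ev _ = _
  rw [map_mul]
  ring

include hp hD hI hE hEI in
lemma tay_mulQ (t f : R) :
    (X : κ⟦X⟧) ^ p ∣ tay D E (t * f) - (tay D ev t * tay D E f + tay D E t * tay D ev f) := by
  rw [X_pow_dvd_iff]
  intro a ha
  have h1 := tay_mul I D hD hI hp E hEI t f a ha
  rw [map_sub, sub_eq_zero]
  refine h1.trans ?_
  rw [map_add, coeff_mul, coeff_mul, ← Finset.sum_add_distrib]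
  refine Finset.sum_congr rfl fun ij _ => ?_
  rw [coeff_tay, coeff_tay, coeff_tay, coeff_tay, hE]
  ring

include hD hev in
lemma ev_one : ev (D 1) = 0 := by
  have h1 := hev _ (hD 1 1)
  simpa using h1

include hp hD hI hev hE hEI in
/-- **The symbol lemma.** -/
theorem symbol (hz : ∀ f, E (D^[p - 1] f) = 0) (t u : R) (ht : ev (D t) ≠ 0) :
    ev (D t) * E u = ev (D u) * E t := by
  obtain ⟨m, rfl⟩ : ∃ m, p = m + 2 := ⟨p - 2, by have := hp.two_le; omega⟩
  let α : κ⟦X⟧ := PowerSeries.mk fun n => coeff (n + 1) (tay D ev t)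
  let β : κ⟦X⟧ := tay D E t
  have hα : tay D ev t = C (ev t) + X * α := by
    have h1 := PowerSeries.sub_const_eq_X_mul_shift (tay D ev t)
    have h2 : constantCoeff (tay D ev t) = ev t := by
      rw [← coeff_zero_eq_constantCoeff_apply, coeff_tay]
      simp
    rw [h2] at h1
    rw [← h1]
    ring
  have hdvd : ∀ A B : κ⟦X⟧, (X : κ⟦X⟧) ^ (m + 2) ∣ A - B →
      coeff (m + 1) A = coeff (m + 1) B := by
    intro A B h
    rw [X_pow_dvd_iff] at h
    have h1 := h (m + 1) (by omega)
    rwa [map_sub, sub_eq_zero] at h1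
  have hQ0 : ∀ f, coeff (m + 1) (tay D E f) = 0 := by
    intro f
    have h1 : E (D^[m + 1] f) = 0 := hz f
    rw [coeff_tay, h1, mul_zero]
  have key : ∀ (n : ℕ) (f : R), coeff (m + 1) (X ^ (n + 1) * α ^ (n + 1) * tay D E f +
      (n + 1 : κ⟦X⟧) * (X ^ n * α ^ n * β * tay D ev f)) = 0 := by
    intro n
    induction n with
    | zero =>
      intro f
      have h1 := hdvd _ _ (tay_mulQ I D hD hI ev E hE hEI hp t f)
      rw [hQ0, hα] at h1
      have h2 := hQ0 f
      have h3 : X ^ (0 + 1) * α ^ (0 + 1) * tay D E f +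
          ((0 : ℕ) + 1 : κ⟦X⟧) * (X ^ 0 * α ^ 0 * β * tay D ev f) =
          ((C (ev t) + X * α) * tay D E f + tay D E t * tay D ev f) -
            C (ev t) * tay D E f := by
        simp only [β]
        push_cast
        ring
      rw [h3, map_sub, ← h1, coeff_C_mul, h2, mul_zero, sub_zero]
    | succ n ih =>
      intro f
      have h1 := ih (t * f)
      have h2 := ih f
      have hP := tay_mulP I D hD hI ev hev hp t f
      have hQ := tay_mulQ I D hD hI ev E hE hEI hp t f
      have h3 : coeff (m + 1) (X ^ (n + 1) * α ^ (n + 1) *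
          (tay D ev t * tay D E f + tay D E t * tay D ev f) +
          (n + 1 : κ⟦X⟧) * (X ^ n * α ^ n * β * (tay D ev t * tay D ev f))) = 0 := by
        rw [← h1]
        apply hdvd
        obtain ⟨A, hA⟩ := hP
        obtain ⟨B, hB⟩ := hQ
        refine ⟨-(X ^ (n + 1) * α ^ (n + 1) * B + (n + 1 : κ⟦X⟧) * (X ^ n * α ^ n * β * A)), ?_⟩
        rw [sub_eq_iff_eq_add] at hA hB
        rw [hA, hB]
        ring
      have h4 : X ^ (n + 1 + 1) * α ^ (n + 1 + 1) * tay D E f +
          (((n + 1 : ℕ) : κ⟦X⟧) + 1) * (X ^ (n + 1) * α ^ (n + 1) * β * tay D ev f) =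
          (X ^ (n + 1) * α ^ (n + 1) *
          (tay D ev t * tay D E f + tay D E t * tay D ev f) +
          (n + 1 : κ⟦X⟧) * (X ^ n * α ^ n * β * (tay D ev t * tay D ev f))) -
          C (ev t) * (X ^ (n + 1) * α ^ (n + 1) * tay D E f +
      (n + 1 : κ⟦X⟧) * (X ^ n * α ^ n * β * tay D ev f)) := by
        rw [hα]
        simp only [β]
        push_cast
        ring
      rw [h4, map_sub, h3, coeff_C_mul, h2, mul_zero, sub_zero]
  have hD1 : ∀ a, ev (D^[a + 1] 1) = 0 ∧ E (D^[a + 1] 1) = 0 := by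
    intro a
    have h1 : D 1 ∈ I := by
      have h2 := hD 1 1
      have h3 : D 1 = -(D (1 * 1) - (1 * D 1 + 1 * D 1)) := by rw [one_mul]; ring
      rw [h3]
      exact I.neg_mem h2
    have h2 := iter_mem I D hI a _ h1
    rw [Function.iterate_succ_apply]
    exact ⟨hev _ h2, hEI _ h2⟩
  have hE1 : E 1 = 0 := by
    have h1 := hE 1 1
    rw [mul_one (1 : R), map_one ev, one_mul] at h1
    simpa using h1
  have hQ1 : tay D E 1 = 0 := by
    ext a
    rw [coeff_tay, map_zero]
    cases a with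
    | zero => simp [hE1]
    | succ a => rw [(hD1 a).2, mul_zero]
  have hP1 : tay D ev 1 = 1 := by
    ext a
    rw [coeff_tay, coeff_one]
    cases a with
    | zero => simp
    | succ a => rw [(hD1 a).1, mul_zero]; simp
  -- the value at `1`
  let w : κ⟦X⟧ := α ^ m * β
  have hX : ∀ (n : ℕ) (A : κ⟦X⟧), coeff (m + 1) (X ^ (m + 1) * A) = constantCoeff A ∧
      coeff (m + 1) (X ^ m * A) = coeff 1 A := by
    intro n A
    constructor
    · have h1 := coeff_X_pow_mul A (m + 1) 0
      rw [zero_add] at h1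
      rw [h1, coeff_zero_eq_constantCoeff_apply]
    · have h1 := coeff_X_pow_mul A m 1
      rw [add_comm 1 m] at h1
      exact h1
  have hkey : ∀ f, constantCoeff (α ^ (m + 1) * tay D E f) +
      (m + 1 : κ) * coeff 1 (w * tay D ev f) = 0 := by
    intro f
    have h1 := key m f
    have h2 : X ^ (m + 1) * α ^ (m + 1) * tay D E f +
      (m + 1 : κ⟦X⟧) * (X ^ m * α ^ m * β * tay D ev f) =
      X ^ (m + 1) * (α ^ (m + 1) * tay D E f) + C (m + 1 : κ) *
        (X ^ m * (w * tay D ev f)) := by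
      simp only [w, map_add, map_natCast, map_one]
      ring
    rw [h2, map_add, coeff_C_mul, (hX 0 _).1, (hX 0 _).2] at h1
    exact h1
  have hm1 : (m + 1 : κ) = -1 := by
    have h1 : ((m + 2 : ℕ) : κ) = 0 := CharP.cast_eq_zero κ (m + 2)
    push_cast at h1
    linear_combination h1
  have h1 := hkey 1
  rw [hQ1, hP1, mul_zero, map_zero, zero_add, mul_one, hm1, neg_one_mul, neg_eq_zero] at h1
  have hu := hkey u
  have hc0 : ∀ (φ : R → κ) (f : R), constantCoeff (tay D φ f) = φ f := by
    intro φ f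
    rw [← coeff_zero_eq_constantCoeff_apply, coeff_tay]
    simp
  have hc1 : coeff 1 (tay D ev u) = ev (D u) := by
    rw [coeff_tay]
    simp
  have hα0 : constantCoeff α = ev (D t) := by
    rw [← coeff_zero_eq_constantCoeff_apply, coeff_mk, coeff_tay]
    simp
  have hw0 : constantCoeff w = ev (D t) ^ m * E t := by
    simp only [w, β]
    rw [map_mul, map_pow, hα0, hc0]
  have h2 : coeff 1 (w * tay D ev u) = ev (D t) ^ m * E t * ev (D u) := by
    rw [coeff_mul]
    have h3 : antidiagonal 1 = {(0, 1), (1, 0)} := by decide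
    rw [h3, Finset.sum_pair (by decide), h1, zero_mul, add_zero,
      coeff_zero_eq_constantCoeff_apply, hw0, hc1]
  rw [map_mul, map_pow, hα0, hc0, h2, hm1] at hu
  have h3 : ev (D t) ^ m * (ev (D t) * E u - ev (D u) * E t) = 0 := by
    rw [← hu]
    ring
  rcases mul_eq_zero.1 h3 with h4 | h4
  · exact absurd h4 (pow_ne_zero m ht)
  · exact sub_eq_zero.1 h4

end symb

end Pool.Agent.H208Q
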