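import Pool.Agent.H208Q.A

/-!
The symbol lemma for `p`-closed derivations.
-/

set_option autoImplicit false
set_option linter.unusedSectionVars false

open Finset PowerSeries

universe u v

namespace Pool.Agent.H208Q

section symb

variable {R : Type u} [CommRing R] (I : Ideal R) (D : R →+ R)
  (hD : ∀ a b, D (a * b) - (a * D b + b * D a) ∈ I) (hI : ∀ a ∈ I, D a ∈ I)
  {κ : Type v} [Field κ] (ev : R →+* κ) (hev : ∀ a ∈ I, ev a = 0) (E : R →+ κ)
  (hE : ∀ a b, E (a * b) = ev a * E b + ev b * E a) (hEI : ∀ a ∈ I, E a = 0)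
  {p : ℕ} (hp : p.Prime) [CharP κ p]

include hp hD hI hev hE hEI in
/-- **The symbol lemma**, general case. -/
theorem symbol' (a0 b0 : κ) (hz : ∀ f, E (D^[p - 1] f) = a0 * E f + b0 * ev f) (t u : R)
    (ht : ev (D t) ≠ 0) : ev (D t) * E u = ev (D u) * E t := by
  obtain ⟨m, rfl⟩ : ∃ m, p = m + 2 := ⟨p - 2, by have := hp.two_le; omega⟩
  let α : κ⟦X⟧ := PowerSeries.mk fun n => coeff (n + 1) (tay D ev t)
  let β : κ⟦X⟧ := tay D E t
  let a1 : κ := ((m + 1).factorial : κ)⁻¹ * a0
  let b1 : κ := ((m + 1).factorial : κ)⁻¹ * b0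
  have hc0 : ∀ (φ : R → κ) (f : R), constantCoeff (tay D φ f) = φ f := by
    intro φ f
    rw [← coeff_zero_eq_constantCoeff_apply, coeff_tay]
    simp
  have hα : tay D ev t = C (ev t) + X * α := by
    have h1 := PowerSeries.sub_const_eq_X_mul_shift (tay D ev t)
    rw [hc0] at h1
    rw [← h1]
    ring
  -- the functional
  let Λ : κ⟦X⟧ → κ⟦X⟧ → κ := fun A Q =>
    coeff (m + 1) Q - a1 * constantCoeff Q - b1 * constantCoeff A
  have hΛ : ∀ A A' Q Q' : κ⟦X⟧, (X : κ⟦X⟧) ^ (m + 2) ∣ A - A' → (X : κ⟦X⟧) ^ (m + 2) ∣ Q - Q' →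
      Λ A Q = Λ A' Q' := by
    intro A A' Q Q' h h'
    rw [X_pow_dvd_iff] at h h'
    have h1 := h 0 (by omega)
    have h2 := h' 0 (by omega)
    have h3 := h' (m + 1) (by omega)
    rw [map_sub, sub_eq_zero, coeff_zero_eq_constantCoeff_apply,
      coeff_zero_eq_constantCoeff_apply] at h1 h2
    rw [map_sub, sub_eq_zero] at h3
    simp only [Λ]
    rw [h1, h2, h3]
  have hΛC : ∀ (c : κ) (A Q A' Q' : κ⟦X⟧), Λ (A' - C c * A) (Q' - C c * Q) =
      Λ A' Q' - c * Λ A Q := by
    intro c A Q A' Q'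
    simp only [Λ, map_sub, map_mul, coeff_C_mul, constantCoeff_C]
    ring
  have hQ0 : ∀ f, Λ (tay D ev f) (tay D E f) = 0 := by
    intro f
    have h1 : E (D^[m + 1] f) = a0 * E f + b0 * ev f := hz f
    simp only [Λ]
    rw [hc0, hc0, coeff_tay, h1]
    simp only [a1, b1]
    ring
  have key : ∀ (n : ℕ) (f : R), Λ (X ^ (n + 1) * α ^ (n + 1) * tay D ev f)
      (X ^ (n + 1) * α ^ (n + 1) * tay D E f +
      (n + 1 : κ⟦X⟧) * (X ^ n * α ^ n * β * tay D ev f)) = 0 := by
    intro n
    induction n with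
    | zero =>
      intro f
      have hP := tay_mulP I D hD hI ev hev hp t f
      have hQ := tay_mulQ I D hD hI ev E hE hEI hp t f
      have h1 := hΛ _ _ _ _ hP hQ
      rw [hQ0, hα] at h1
      have h2 := hQ0 f
      have h3 := hΛC (ev t) (tay D ev f) (tay D E f) ((C (ev t) + X * α) * tay D ev f)
        ((C (ev t) + X * α) * tay D E f + tay D E t * tay D ev f)
      rw [← h1, h2, mul_zero, sub_zero] at h3
      rw [← h3]
      congr 1
      · ring
      · simp only [β]
        push_cast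
        ring
    | succ n ih =>
      intro f
      have h1 := ih (t * f)
      have h2 := ih f
      have hP := tay_mulP I D hD hI ev hev hp t f
      have hQ := tay_mulQ I D hD hI ev E hE hEI hp t f
      have h3 : Λ (X ^ (n + 1) * α ^ (n + 1) * (tay D ev t * tay D ev f))
          (X ^ (n + 1) * α ^ (n + 1) *
          (tay D ev t * tay D E f + tay D E t * tay D ev f) +
          (n + 1 : κ⟦X⟧) * (X ^ n * α ^ n * β * (tay D ev t * tay D ev f))) = 0 := by
        rw [← h1]
        obtain ⟨A, hA⟩ := hP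
        obtain ⟨B, hB⟩ := hQ
        rw [sub_eq_iff_eq_add] at hA hB
        apply hΛ
        · refine ⟨-(X ^ (n + 1) * α ^ (n + 1) * A), ?_⟩
          rw [hA]
          ring
        · refine ⟨-(X ^ (n + 1) * α ^ (n + 1) * B + (n + 1 : κ⟦X⟧) * (X ^ n * α ^ n * β * A)), ?_⟩
          rw [hA, hB]
          ring
      have h4 := hΛC (ev t) (X ^ (n + 1) * α ^ (n + 1) * tay D ev f)
        (X ^ (n + 1) * α ^ (n + 1) * tay D E f +
          (n + 1 : κ⟦X⟧) * (X ^ n * α ^ n * β * tay D ev f))
        (X ^ (n + 1) * α ^ (n + 1) * (tay D ev t * tay D ev f))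
        (X ^ (n + 1) * α ^ (n + 1) *
          (tay D ev t * tay D E f + tay D E t * tay D ev f) +
          (n + 1 : κ⟦X⟧) * (X ^ n * α ^ n * β * (tay D ev t * tay D ev f)))
      rw [h3, h2, mul_zero, sub_zero] at h4
      rw [← h4]
      congr 1
      · rw [hα]
        ring
      · rw [hα]
        simp only [β]
        push_cast
        ring
  have hD1 : ∀ a, ev (D^[a + 1] 1) = 0 ∧ E (D^[a + 1] 1) = 0 := by
    intro a
    have h1 : D 1 ∈ I := by
      have h2 := hD 1 1
      have h3 : D 1 = -(D (1 * 1) - (1 * D 1 + 1 * D 1)) := by rw [one_mul]; ring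
      rw [h3]
      exact I.neg_mem h2
    have h2 := iter_mem I D hI a _ h1
    rw [Function.iterate_succ_apply]
    exact ⟨hev _ h2, hEI _ h2⟩
  have hE1 : E 1 = 0 := by
    have h1 := hE 1 1
    rw [mul_one (1 : R), map_one ev, one_mul] at h1
    simpa using h1
  have hQ1 : tay D E 1 = 0 := by
    ext a
    rw [coeff_tay, map_zero]
    cases a with
    | zero => simp [hE1]
    | succ a => rw [(hD1 a).2, mul_zero]
  have hP1 : tay D ev 1 = 1 := by
    ext a
    rw [coeff_tay, coeff_one]
    cases a with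
    | zero => simp
    | succ a => rw [(hD1 a).1, mul_zero]; simp
  let w : κ⟦X⟧ := α ^ m * β
  have hX : ∀ A : κ⟦X⟧, coeff (m + 1) (X ^ (m + 1) * A) = constantCoeff A ∧
      coeff (m + 1) (X ^ m * A) = coeff 1 A := by
    intro A
    constructor
    · have h1 := coeff_X_pow_mul A (m + 1) 0
      rw [zero_add] at h1
      rw [h1, coeff_zero_eq_constantCoeff_apply]
    · have h1 := coeff_X_pow_mul A m 1
      rw [add_comm 1 m] at h1
      exact h1
  -- the contribution of the constant coefficients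
  let c0 : κ := a1 * ((m + 1 : κ) * constantCoeff (X ^ m * w : κ⟦X⟧))
  have hkey : ∀ f, constantCoeff (α ^ (m + 1) * tay D E f) +
      (m + 1 : κ) * coeff 1 (w * tay D ev f) - c0 * ev f = 0 := by
    intro f
    have h1 := key m f
    have h2 : X ^ (m + 1) * α ^ (m + 1) * tay D E f +
      (m + 1 : κ⟦X⟧) * (X ^ m * α ^ m * β * tay D ev f) =
      X ^ (m + 1) * (α ^ (m + 1) * tay D E f) + C (m + 1 : κ) *
        (X ^ m * (w * tay D ev f)) := by
      simp only [w, map_add, map_natCast, map_one]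
      ring
    rw [h2] at h1
    simp only [Λ] at h1
    rw [map_add, coeff_C_mul, (hX _).1, (hX _).2] at h1
    rw [← h1]
    simp only [map_add, map_mul, map_pow, constantCoeff_X, hc0, constantCoeff_C, c0, w]
    ring
  have hm1 : (m + 1 : κ) = -1 := by
    have h1 : ((m + 2 : ℕ) : κ) = 0 := CharP.cast_eq_zero κ (m + 2)
    push_cast at h1
    linear_combination h1
  have h1 := hkey 1
  rw [hQ1, hP1, mul_zero, map_zero, zero_add, mul_one, hm1, map_one, mul_one] at h1
  have hu := hkey u
  have hc1 : coeff 1 (tay D ev u) = ev (D u) := by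
    rw [coeff_tay]
    simp
  have hα0 : constantCoeff α = ev (D t) := by
    rw [← coeff_zero_eq_constantCoeff_apply, coeff_mk, coeff_tay]
    simp
  have hw0 : constantCoeff w = ev (D t) ^ m * E t := by
    simp only [w, β]
    rw [map_mul, map_pow, hα0, hc0]
  have h2 : coeff 1 (w * tay D ev u) = ev (D t) ^ m * E t * ev (D u) + coeff 1 w * ev u := by
    rw [coeff_mul]
    have h3 : antidiagonal 1 = {(0, 1), (1, 0)} := by decide
    rw [h3, Finset.sum_pair (by decide), coeff_zero_eq_constantCoeff_apply, hw0, hc1,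
      coeff_zero_eq_constantCoeff_apply, hc0]
  rw [map_mul, map_pow, hα0, hc0, h2, hm1] at hu
  have h3 : ev (D t) ^ m * (ev (D t) * E u - ev (D u) * E t) = 0 := by
    linear_combination hu - ev u * h1
  rcases mul_eq_zero.1 h3 with h4 | h4
  · exact absurd h4 (pow_ne_zero m ht)
  · exact sub_eq_zero.1 h4

end symb

end Pool.Agent.H208Q
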