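import Pool.Agent.H208Q.A

/-!
Independence of point derivations on chains of subrings; Dedekind's lemma for chains of subgroups.
-/

set_option autoImplicit false
set_option linter.unusedSectionVars false

open Finset

universe u v

namespace Pool.Agent.H208Q

section indep

variable {R : Type u} [CommRing R] (I : Ideal R) {κ : Type v} [Field κ] (ev : R →+* κ)
  (hev : ∀ a ∈ I, ev a = 0) (δ : ℕ → R →+ R)
  (hL : ∀ j a b, δ j (a * b) - (a * δ j b + b * δ j a) ∈ I) (hI : ∀ j, ∀ a ∈ I, δ j a ∈ I)
  {p : ℕ} (hp : p.Prime) [CharP κ p] (r : ℕ) (S : ℕ → Subring R)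
  (hS : ∀ j < r, ∀ f ∈ S j, δ j f ∈ S j) (hT : ∀ j < r, ∀ f ∈ S j, (δ j)^[p - 1] f ∈ S (j + 1))
  (h0 : S 0 = ⊤)

include hev hL hI hp hS hT h0 in
/-- The point derivations given by the later members of the chain stay linearly independent. -/
theorem indep (hdet : ∃ c : Fin r → R, (Matrix.of fun i j : Fin r => ev (δ i (c j))).det ≠ 0) :
    ∀ i ≤ r, ∀ a : ℕ → κ, (∀ f ∈ S i, ∑ j ∈ Ico i r, a j * ev (δ j f) = 0) →
      ∀ j ∈ Ico i r, a j = 0 := by
  intro i
  induction i with
  | zero =>
    intro _ a ha j hj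
    obtain ⟨c, hc⟩ := hdet
    have h1 : Matrix.vecMul (fun i : Fin r => a i)
        (Matrix.of fun i j : Fin r => ev (δ i (c j))) = 0 := by
      ext m
      have h2 := ha (c m) (by rw [h0]; trivial)
      rw [Nat.Ico_zero_eq_range, Finset.sum_range] at h2
      exact h2
    have h3 := Matrix.eq_zero_of_vecMul_eq_zero hc h1
    have hj' : j < r := (mem_Ico.1 hj).2
    exact congrFun h3 ⟨j, hj'⟩
  | succ i ih =>
    intro hir a ha j hj
    have hir' : i < r := hir
    have ih' := ih hir'.le
    -- a test function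
    have ht : ∃ t ∈ S i, ev (δ i t) ≠ 0 := by
      by_contra hcon
      push Not at hcon
      have h1 := ih' (fun j => if j = i then 1 else 0) (by
        intro f hf
        rw [Finset.sum_eq_single i]
        · simp [hcon f hf]
        · intro b _ hb
          simp [hb]
        · intro h
          exact absurd (mem_Ico.2 ⟨le_rfl, hir'⟩) h) i (mem_Ico.2 ⟨le_rfl, hir'⟩)
      simp at h1
    obtain ⟨t, htS, ht⟩ := ht
    let Ri := S i
    let evi : Ri →+* κ := ev.comp (Subring.subtype _)
    let Di : Ri →+ Ri :=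
      { toFun := fun f => ⟨δ i f, hS i hir' f f.2⟩
        map_zero' := Subtype.ext (map_zero (δ i))
        map_add' := fun a b => Subtype.ext (map_add (δ i) _ _) }
    let Ei : Ri →+ κ :=
      { toFun := fun f => ∑ j ∈ Ico (i + 1) r, a j * ev (δ j f)
        map_zero' := by simp
        map_add' := fun a b => by
          simp only [Subring.coe_add, map_add, mul_add, Finset.sum_add_distrib] }
    have hiter : ∀ (n : ℕ) (f : Ri), ((Di^[n] f : Ri) : R) = (δ i)^[n] (f : R) := by
      intro n
      induction n with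
      | zero => intro f; rfl
      | succ n ih =>
        intro f
        rw [Function.iterate_succ_apply, Function.iterate_succ_apply, ih]
        rfl
    have hEL : ∀ (j : ℕ) (x y : R), ev (δ j (x * y)) = ev x * ev (δ j y) + ev y * ev (δ j x) := by
      intro j x y
      have h1 := hev _ (hL j x y)
      rw [map_sub, sub_eq_zero, map_add, map_mul ev x, map_mul ev y] at h1
      exact h1
    have key := symbol (R := Ri) (I.comap (Subring.subtype _)) Di
      (fun x y => hL i x y) (fun x hx => hI i _ hx) evi (fun x hx => hev _ hx) Ei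
      (by
        intro x y
        change ∑ j ∈ Ico (i + 1) r, a j * ev (δ j ((x : R) * y)) =
          ev x * (∑ j ∈ Ico (i + 1) r, a j * ev (δ j y)) +
          ev y * (∑ j ∈ Ico (i + 1) r, a j * ev (δ j x))
        rw [Finset.mul_sum, Finset.mul_sum, ← Finset.sum_add_distrib]
        refine Finset.sum_congr rfl fun j _ => ?_
        rw [hEL]
        ring)
      (by
        intro x hx
        change ∑ j ∈ Ico (i + 1) r, a j * ev (δ j (x : R)) = 0
        refine Finset.sum_eq_zero fun j _ => ?_
        have h1 : ev (δ j (x : R)) = 0 := hev _ (hI j _ hx)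
        rw [h1, mul_zero]) hp
      (by
        intro f
        change ∑ j ∈ Ico (i + 1) r, a j * ev (δ j ((Di^[p - 1] f : Ri) : R)) = 0
        rw [hiter]
        exact ha _ (hT i hir' f f.2)) ⟨t, htS⟩
    have key' : ∀ u ∈ S i, ev (δ i t) * (∑ j ∈ Ico (i + 1) r, a j * ev (δ j u)) =
        ev (δ i u) * (∑ j ∈ Ico (i + 1) r, a j * ev (δ j t)) := by
      intro u hu
      exact key ⟨u, hu⟩ ht
    have h1 := ih' (fun j => if j = i then -(∑ j ∈ Ico (i + 1) r, a j * ev (δ j t)) else
      ev (δ i t) * a j) (by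
        intro f hf
        rw [Finset.sum_eq_sum_Ico_succ_bot hir']
        rw [if_pos rfl]
        have h2 : ∑ k ∈ Ico (i + 1) r, (if k = i then -(∑ j ∈ Ico (i + 1) r, a j * ev (δ j t))
            else ev (δ i t) * a k) * ev (δ k f) =
            ev (δ i t) * (∑ j ∈ Ico (i + 1) r, a j * ev (δ j f)) := by
          rw [Finset.mul_sum]
          refine Finset.sum_congr rfl fun k hk => ?_
          rw [if_neg (by have := (mem_Ico.1 hk).1; omega)]
          ring
        rw [h2, key' f hf]
        ring) j (mem_Ico.2 ⟨by have := (mem_Ico.1 hj).1; omega, (mem_Ico.1 hj).2⟩)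
    rw [if_neg (by have := (mem_Ico.1 hj).1; omega)] at h1
    exact (mul_eq_zero.1 h1).resolve_left ht

include hev hL hI hp hS hT h0 in
theorem exists_nonzero
    (hdet : ∃ c : Fin r → R, (Matrix.of fun i j : Fin r => ev (δ i (c j))).det ≠ 0)
    (i : ℕ) (hi : i < r) : ∃ t ∈ S i, ev (δ i t) ≠ 0 := by
  by_contra hcon
  push Not at hcon
  have h1 := indep I ev hev δ hL hI hp r S hS hT h0 hdet i hi.le
    (fun j => if j = i then 1 else 0) (by
      intro f hf
      rw [Finset.sum_eq_single i]
      · simp [hcon f hf]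
      · intro b _ hb
        simp [hb]
      · intro h
        exact absurd (mem_Ico.2 ⟨le_rfl, hi⟩) h) i (mem_Ico.2 ⟨le_rfl, hi⟩)
  simp at h1

end indep

section dedekind

variable {B : Type u} [CommRing B] {κ : Type v} [Field κ] (ev : B →+* κ) {G : Type} [Group G]
  [Finite G] (θ : G →* (B ≃+* B))

/-- Dedekind. -/
theorem dedekind (hev : ∀ g : G, g ≠ 1 → ∃ b, ev (θ g b - b) ≠ 0) (H : Subgroup G) (σ : G)
    (hσ : σ ∉ H) : ∃ c : B, (∀ h ∈ H, θ h c = c) ∧ ev (θ σ c - c) ≠ 0 := by
  classical
  have _ : Fintype G := Fintype.ofFinite G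
  let χ : G → (B →* κ) := fun g => ((ev.comp (θ g : B →+* B) : B →+* κ) : B →* κ)
  have hχ : ∀ g b, χ g b = ev (θ g b) := fun g b => rfl
  have hinj : Function.Injective χ := by
    intro g h hgh
    by_contra hne
    obtain ⟨b, hb⟩ := hev (g * h⁻¹) (fun h1 => hne (mul_inv_eq_one.1 h1))
    apply hb
    have h1 : χ g (θ h⁻¹ b) = χ h (θ h⁻¹ b) := by rw [hgh]
    rw [hχ, hχ] at h1
    have h2 : θ g (θ h⁻¹ b) = θ (g * h⁻¹) b := by rw [map_mul]; rfl
    have h3 : θ h (θ h⁻¹ b) = b := by
      have h4 : θ h (θ h⁻¹ b) = θ (h * h⁻¹) b := by rw [map_mul]; rfl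
      rw [h4, mul_inv_cancel, map_one]
      rfl
    rw [h2, h3] at h1
    rw [map_sub, h1, sub_self]
  have hli : LinearIndependent κ (fun g : G => (χ g : B → κ)) :=
    (linearIndependent_monoidHom B κ).comp χ hinj
  rw [Fintype.linearIndependent_iff] at hli
  by_contra hcon
  push Not at hcon
  let N : B → B := fun f => ∑ h : G, if h ∈ H then θ h f else 0
  have hmul : ∀ (a b : G) (f : B), θ a (θ b f) = θ (a * b) f := by
    intro a b f
    rw [map_mul]
    rfl
  have hN : ∀ f, ∀ h ∈ H, θ h (N f) = N f := by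
    intro f h hh
    change θ h (∑ x : G, if x ∈ H then θ x f else 0) = ∑ x : G, if x ∈ H then θ x f else 0
    rw [map_sum]
    refine Fintype.sum_equiv (Equiv.mulLeft h) _ _ fun x => ?_
    have h1 : Equiv.mulLeft h x = h * x := rfl
    rw [h1]
    by_cases hx : x ∈ H
    · rw [if_pos hx, if_pos (H.mul_mem hh hx), hmul]
    · rw [if_neg hx, if_neg (fun h2 => hx ((H.mul_mem_cancel_left hh).1 h2)), map_zero]
  have hz : ∀ f, ev (θ σ (N f) - N f) = 0 := fun f => hcon (N f) (hN f)
  let a : G → κ := fun g => (if σ⁻¹ * g ∈ H then 1 else 0) - (if g ∈ H then 1 else 0)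
  have h1 : ∑ g, a g • (χ g : B → κ) = 0 := by
    ext f
    have h2 := hz f
    rw [Finset.sum_apply]
    rw [map_sub, sub_eq_zero] at h2
    have h3 : θ σ (N f) = ∑ g : G, if σ⁻¹ * g ∈ H then θ g f else 0 := by
      change θ σ (∑ x : G, if x ∈ H then θ x f else 0) = _
      rw [map_sum]
      refine Fintype.sum_equiv (Equiv.mulLeft σ) _ _ fun x => ?_
      have h1 : Equiv.mulLeft σ x = σ * x := rfl
      rw [h1, inv_mul_cancel_left]
      by_cases hx : x ∈ H
      · rw [if_pos hx, if_pos hx, hmul]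
      · rw [if_neg hx, if_neg hx, map_zero]
    rw [h3] at h2
    change ev (∑ g : G, if σ⁻¹ * g ∈ H then θ g f else 0) =
      ev (∑ x : G, if x ∈ H then θ x f else 0) at h2
    rw [map_sum, map_sum, ← sub_eq_zero, ← Finset.sum_sub_distrib] at h2
    rw [Pi.zero_apply, ← h2]
    refine Finset.sum_congr rfl fun g _ => ?_
    rw [Pi.smul_apply, smul_eq_mul, hχ]
    simp only [a]
    split_ifs <;> simp
  have h2 := hli a h1 1
  simp only [a] at h2
  rw [mul_one, if_neg (fun h => hσ (H.inv_mem_iff.1 h)), if_pos H.one_mem] at h2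
  simp at h2

end dedekind

end Pool.Agent.H208Q
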