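import Pool.Agent.H519R3.RS.Tower

/-!
The step of a tower of quotients, with the radical condition on the extended Rees algebra.
-/

set_option autoImplicit false
set_option linter.unusedSectionVars false

open AlgebraicGeometry CategoryTheory Pool.Agent.H920R2 Pool.Agent.H519R3.RS

universe u v

namespace Pool.Agent.H208Q

section sgood

variable {k C C' : Type u} [Field k] [CommRing C] [IsDomain C] [Algebra k C] [CommRing C']
  [Algebra k C']

/-- The zeros of `δ T ^ l` on the extended Rees algebra lie in the vertex (prime version). -/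
def RadZ {k C : Type u} [Field k] [CommRing C] [Algebra k C] {F : ℕ → Ideal C} (hF : IsFilt F)
    (δ : C → C) (l : ℕ) : Prop :=
  ∀ Q : Ideal (reesZ k hF), Q.IsPrime →
    (∀ (e : ℤ) (c : C), c ∈ F e.toNat → ∀ h : AddMonoidAlgebra.single (e + l) (δ c) ∈ reesZ k hF,
      (⟨AddMonoidAlgebra.single (e + l) (δ c), h⟩ : reesZ k hF) ∈ Q) →
    ∀ (d : ℕ) (a : C) (h : a ∈ F d), 0 < d →
      (⟨AddMonoidAlgebra.single (d : ℤ) a, single_mem_reesZ hF h⟩ : reesZ k hF) ∈ Q

lemma eqv_single {L : Type u} [Field L] [Algebra k L] (g : C →ₐ[k] L) {F : ℕ → Ideal C}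
    (hF : IsFilt F) (hinj : Function.Injective g) (d : ℤ) (c : C)
    (h : AddMonoidAlgebra.single d c ∈ reesZ k hF) :
    ((eqv g hF hinj ⟨AddMonoidAlgebra.single d c, h⟩ : rG g hF) : LP L) = hm d (g c) := by
  rw [coe_eqv]
  exact AddMonoidAlgebra.mapAlgHom_single _ _ _

lemma RadZ.rad {L : Type u} [Field L] [Algebra k L] {g : C →ₐ[k] L} {F : ℕ → Ideal C}
    {hF : IsFilt F} (hinj : Function.Injective g) {δ : C → C} {l : ℕ}
    (hdiv : ∀ d, ∀ a ∈ F d, δ a ∈ F (d + l)) (h0 : RadZ (k := k) hF δ l)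
    (Q : Ideal (rG g hF)) (hQ : Q.IsPrime)
    (hDQ : ∀ (e : ℤ) (c : C), c ∈ F e.toNat → ∀ h : hm (e + l) (g (δ c)) ∈ rG g hF,
      (⟨hm (e + l) (g (δ c)), h⟩ : rG g hF) ∈ Q)
    (d : ℕ) (a : L) (h : hm d a ∈ rG g hF) (hd : 0 < d) : (⟨hm d a, h⟩ : rG g hF) ∈ Q := by
  obtain ⟨b, hb, hba⟩ := of_hm_mem_rG g hF h
  rw [Int.toNat_natCast] at hb
  subst hba
  have h1 := h0 (Q.comap (eqv g hF hinj).toRingEquiv.toRingHom) (hQ.comap _) (by
    intro e c hc h
    rw [Ideal.mem_comap]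
    have h2 : hm (e + l) (g (δ c)) ∈ rG g hF := by
      rw [← eqv_single g hF hinj (e + l) (δ c) h]
      exact (eqv g hF hinj _).2
    have h3 := hDQ e c hc h2
    have h4 : (⟨hm (e + l) (g (δ c)), h2⟩ : rG g hF) =
        eqv g hF hinj ⟨AddMonoidAlgebra.single (e + l) (δ c), h⟩ :=
      Subtype.ext (eqv_single g hF hinj (e + l) (δ c) h).symm
    rw [h4] at h3
    exact h3) d b hb hd
  rw [Ideal.mem_comap] at h1
  have h4 : (⟨hm d (g b), h⟩ : rG g hF) =
      eqv g hF hinj ⟨AddMonoidAlgebra.single (d : ℤ) b, single_mem_reesZ hF hb⟩ :=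
    Subtype.ext (eqv_single g hF hinj d b _).symm
  rw [h4]
  exact h1

/-- **The step for automorphisms**, with the radical condition on the extended Rees algebra. -/
theorem good_fix' {p : ℕ} (hp : p.Prime) (hpk : (p : k) = 0) (σ : C ≃ₐ[k] C)
    (hσ : ∀ b, σ^[p] b = b)
    {F : ℕ → Ideal C} (hF : IsFilt F) (hG : Good k hF) {l : ℕ} (hl : 0 < l)
    (hdiv : ∀ d, ∀ a ∈ F d, σ a - a ∈ F (d + l))
    (hrad0 : RadZ (k := k) hF (fun c => σ c - c) l)
    (j : C' →ₐ[k] C) (hj : Function.Injective j) (hjr : ∀ c, σ c = c ↔ ∃ c', j c' = c)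
    {F' : ℕ → Ideal C'} (hF' : IsFilt F') (hFF' : ∀ d c', c' ∈ F' d ↔ j c' ∈ F d) :
    Good k hF' := by
  classical
  let L := FractionRing C
  let g : C →ₐ[k] L := IsScalarTower.toAlgHom k C L
  have hinj : Function.Injective g := IsFractionRing.injective C L
  let τ : L ≃ₐ[k] L := IsFractionRing.fieldEquivOfAlgEquiv k L L σ
  have hτ : ∀ b, τ (g b) = g (σ b) := fun b =>
    IsFractionRing.fieldEquivOfAlgEquiv_algebraMap k L L σ b
  have hτp : ∀ x, τ^[p] x = x := by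
    intro x
    obtain ⟨a, c, -, rfl⟩ := IsFractionRing.div_surjective (A := C) x
    have h3 : ∀ (m : ℕ) (y z : L), τ^[m] (y / z) = τ^[m] y / τ^[m] z := by
      intro m
      induction m with
      | zero => intro y z; rfl
      | succ m ih => intro y z; rw [Function.iterate_succ_apply, map_div₀, ih,
          Function.iterate_succ_apply, Function.iterate_succ_apply]
    have h4 : ∀ y : C, τ^[p] (algebraMap C L y) = algebraMap C L y := by
      intro y
      have h5 := tau_iter g σ τ hτ p y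
      rw [hσ] at h5
      exact h5
    rw [h3, h4, h4]
  have hGE := (good_iff g hF hinj).1 hG
  let R := rG g hF
  have hDgen : ∀ (d : ℤ) (b : C), hm (l : ℤ) 1 * (tl τ (hm d (g b)) - hm d (g b)) =
      hm (d + l) (g (σ b - b)) := by
    intro d b
    rw [tl_hm, hτ, ← hm_sub, hm_mul, one_mul, ← map_sub, add_comm]
  have hDF : ∀ (d : ℤ) (b : C), b ∈ F d.toNat → σ b - b ∈ F (d + l).toNat := by
    intro d b hb
    exact hF.anti _ _ (by omega) (hdiv _ b hb)
  have hD : ∀ f ∈ R, hm l 1 * (tl τ f - f) ∈ R := by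
    intro f hf
    have h1 : hm (l : ℤ) 1 * (tl τ f - f) = ∑ d ∈ f.coeff.support,
        hm (l : ℤ) 1 * (tl τ (hm d (f.coeff d)) - hm d (f.coeff d)) := by
      rw [← Finset.mul_sum, Finset.sum_sub_distrib, ← map_sum, ← eq_sum_hm f]
    rw [h1]
    refine Subalgebra.sum_mem _ fun d _ => ?_
    obtain ⟨b, hb, hb'⟩ := hf d
    rw [← hb', hDgen]
    exact hm_mem_rG g hF (hDF d b hb)
  have hs : hm (-1) 1 ∈ R := s_rG g hF
  have hc : ∀ f ∈ R, ∀ d, ∃ b : C, f.coeff d = g b := fun f hf d => by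
    obtain ⟨b, -, hb⟩ := hf d; exact ⟨b, hb.symm⟩
  let F0 : Subalgebra k (LP L) := fixedAlg (tl τ)
  have hrad : ∀ Q : Ideal R, Q.IsPrime → (∀ f : R, TH τ R l hs hD 1 f ∈ Q) →
      ∀ (d : ℕ) (a : L) (h : hm d a ∈ R), 0 < d → (⟨hm d a, h⟩ : R) ∈ Q := by
    intro Q hQ hQT d a h hd
    refine RadZ.rad hinj (δ := fun c => σ c - c) hdiv hrad0 Q hQ ?_ d a h hd
    intro e c hc' hcR
    have h1 := hQT ⟨hm e (g c), hm_mem_rG g hF hc'⟩
    have h2 : TH τ R l hs hD 1 ⟨hm e (g c), hm_mem_rG g hF hc'⟩ =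
        (⟨hm (e + l) (g (σ c - c)), hcR⟩ : R) := by
      apply Subtype.ext
      exact hDgen e c
    rw [h2] at h1
    exact h1
  have hfam : Fam R F0 := by
    intro Q hQ hQS d a hda hd
    refine rad_zp g hinj σ τ hτ hp hpk hσ hτp R (gr_rG g hF) hs (b_rG g hF) hc l hl hD hrad
      Q hQ ?_ d a hda hd
    rintro ⟨x, hx⟩ ⟨e, η, he0, hη, hxe, hτη, b, hdvd⟩
    have hxe' : x = hm e η := hxe
    subst hxe'
    refine hQS e η hx he0 hη ?_ ?_
    · change _ ∈ fixedAlg (tl τ)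
      rw [mem_fixedAlg, tl_hm, hτη]
    · exact smooth_good_zp hp τ hτp R hs l hD e η hx hη hτη (hGE.sm e η hx he0 hη) b hdvd
  have hpp : ∀ f : LP L, (tl τ)^[p] f = f := by
    intro f
    apply AddMonoidAlgebra.coeff_injective
    ext d
    rw [tl_iter_coeff, hτp]
  have hint : ∀ f ∈ R, IsIntegral ↥(R ⊓ F0) f :=
    int_fixed (tl τ) p hp.pos hpp R fun x hx => tl_mem_of τ R hs l hD hx
  have hinj' : Function.Injective (g.comp j) := hinj.comp hj
  have hfe : ∀ b : C, σ b = b ↔ τ (g b) = g b := by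
    intro b
    rw [hτ]
    exact ⟨fun h => by rw [h], fun h => hinj h⟩
  have heq : rG (g.comp j) hF' = rG g hF ⊓ F0 := by
    apply le_antisymm
    · intro f hf
      have h1 : f ∈ rG g hF := by
        intro d
        obtain ⟨b, hb, hb'⟩ := hf d
        exact ⟨j b, (hFF' _ _).1 hb, hb'⟩
      refine ⟨h1, ?_⟩
      have h2 : f = ∑ d ∈ f.coeff.support, hm d (f.coeff d) := eq_sum_hm f
      rw [h2]
      refine Subalgebra.sum_mem _ fun d _ => ?_
      obtain ⟨b, hb, hb'⟩ := hf d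
      change _ ∈ fixedAlg (tl τ)
      rw [mem_fixedAlg, tl_hm, ← hb']
      change hm d (τ (g (j b))) = hm d (g (j b))
      rw [(hfe (j b)).1 ((hjr (j b)).2 ⟨b, rfl⟩)]
    · rintro f ⟨hf, hf0⟩ d
      obtain ⟨b, hb, hb'⟩ := hf d
      have h1 := gr_fixed τ f hf0 d
      rw [mem_fixedAlg, tl_hm, ← hb'] at h1
      have h2 := (hfe b).2 (hm_inj h1)
      rw [hjr] at h2
      obtain ⟨c', hc'⟩ := h2
      refine ⟨c', (hFF' _ _).2 (by rw [hc']; exact hb), ?_⟩
      change g (j c') = _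
      rw [hc', hb']
  refine (good_iff (g.comp j) hF' hinj').2 (goodE_inf g hF hGE (g.comp j) hF' F0 heq hfam hint
    fun d a h => ?_)
  change _ ∈ fixedAlg (tl τ) at h ⊢
  rw [mem_fixedAlg, tl_hm] at h ⊢
  rw [map_inv₀, hm_inj h]

end sgood

end Pool.Agent.H208Q
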