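import Pool.Agent.H208Q.B
import Pool.Agent.H208Q.C
import Pool.Agent.Y177.Dg.Grp

/-!
The extended Rees algebra of a ring with an action of a finite group.
-/

set_option autoImplicit false
set_option linter.unusedSectionVars false

open AlgebraicGeometry CategoryTheory Pool.Agent.H920R2 Pool.Agent.H519R3.RS

universe u v

namespace Pool.Agent.H208Q

section inv

variable {k B : Type u} [Field k] [CommRing B] [Algebra k B] {G : Type} [Group G]
  (θ : G →* (B ≃ₐ[k] B))

lemma theta_mul (a b : G) (x : B) : θ (a * b) x = θ a (θ b x) := by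
  rw [map_mul]
  rfl

lemma theta_one (x : B) : θ 1 x = x := by
  rw [map_one]
  rfl

/-- The ring of invariants of a subgroup. -/
def iv (H : Subgroup G) : Subalgebra k B where
  carrier := {x | ∀ g ∈ H, θ g x = x}
  mul_mem' := fun {a b} ha hb q hq => by rw [map_mul, ha q hq, hb q hq]
  add_mem' := fun {a b} ha hb q hq => by rw [map_add, ha q hq, hb q hq]
  algebraMap_mem' := fun c q _ => AlgEquiv.commutes _ _

lemma mem_iv {H : Subgroup G} {x : B} : x ∈ iv θ H ↔ ∀ g ∈ H, θ g x = x := Iff.rfl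

lemma act_mem {H : Subgroup G} {s : G} (hs : ∀ h ∈ H, s⁻¹ * h * s ∈ H) {x : B}
    (hx : x ∈ iv θ H) : θ s x ∈ iv θ H := by
  intro h hh
  have h1 : h * s = s * (s⁻¹ * h * s) := by group
  rw [← theta_mul, h1, theta_mul, hx _ (hs h hh)]

/-- The automorphism of the invariants given by an element which normalizes. -/
def actI {H : Subgroup G} {s : G} (hs : ∀ h ∈ H, s⁻¹ * h * s ∈ H)
    (hs' : ∀ h ∈ H, s * h * s⁻¹ ∈ H) : iv θ H ≃ₐ[k] iv θ H :=
  AlgEquiv.ofAlgHom
    (((θ s : B →ₐ[k] B).comp (iv θ H).val).codRestrict _ fun x => act_mem θ hs x.2)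
    (((θ s⁻¹ : B →ₐ[k] B).comp (iv θ H).val).codRestrict _ fun x => act_mem θ (s := s⁻¹)
      (fun h hh => by rw [inv_inv]; exact hs' h hh) x.2)
    (by
      ext x
      change θ s (θ s⁻¹ x) = x
      rw [← theta_mul, mul_inv_cancel, theta_one])
    (by
      ext x
      change θ s⁻¹ (θ s x) = x
      rw [← theta_mul, inv_mul_cancel, theta_one])

lemma coe_actI {H : Subgroup G} {s : G} (hs : ∀ h ∈ H, s⁻¹ * h * s ∈ H)
    (hs' : ∀ h ∈ H, s * h * s⁻¹ ∈ H) (x : iv θ H) : (actI θ hs hs' x : B) = θ s x := rfl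

/-- The action on the Laurent polynomials. -/
noncomputable def TA (g : G) : AddMonoidAlgebra B ℤ ≃ₐ[k] AddMonoidAlgebra B ℤ :=
  AddMonoidAlgebra.mapAlgEquiv k ℤ (θ g)

lemma TA_coeff (g : G) (f : AddMonoidAlgebra B ℤ) (d : ℤ) :
    (TA θ g f).coeff d = θ g (f.coeff d) := by
  unfold TA
  simp

lemma TA_mul (a b : G) (f : AddMonoidAlgebra B ℤ) : TA θ (a * b) f = TA θ a (TA θ b f) := by
  apply AddMonoidAlgebra.coeff_injective
  ext d
  rw [TA_coeff, TA_coeff, TA_coeff, theta_mul]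

lemma TA_one (f : AddMonoidAlgebra B ℤ) : TA θ 1 f = f := by
  apply AddMonoidAlgebra.coeff_injective
  ext d
  rw [TA_coeff, theta_one]

lemma TA_single (g : G) (d : ℤ) (b : B) :
    TA θ g (AddMonoidAlgebra.single d b) = AddMonoidAlgebra.single d (θ g b) := by
  classical
  apply AddMonoidAlgebra.coeff_injective
  ext e
  rw [TA_coeff, AddMonoidAlgebra.coeff_single, AddMonoidAlgebra.coeff_single,
    Finsupp.single_apply, Finsupp.single_apply]
  split_ifs
  · rfl
  · exact map_zero _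

lemma TA_iter (g : G) (n : ℕ) (f : AddMonoidAlgebra B ℤ) : (TA θ g)^[n] f = TA θ (g ^ n) f := by
  induction n with
  | zero => rw [pow_zero, TA_one]; rfl
  | succ n ih => rw [Function.iterate_succ_apply', ih, pow_succ', TA_mul]

variable {F : ℕ → Ideal B} (hF : IsFilt F)

lemma TA_mem (hst : ∀ g d, ∀ x ∈ F d, θ g x ∈ F d) (g : G) {f : AddMonoidAlgebra B ℤ}
    (hf : f ∈ reesZ k hF) : TA θ g f ∈ reesZ k hF := by
  intro d
  rw [TA_coeff]
  exact hst g _ _ (hf d)

lemma coeff_single_one_mul (l d : ℤ) (f : AddMonoidAlgebra B ℤ) :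
    (AddMonoidAlgebra.single l (1 : B) * f).coeff d = f.coeff (d - l) := by
  have h1 : (AddMonoidAlgebra.single l (1 : B) * f).coeff d = 1 * f.coeff (d - l) :=
    AddMonoidAlgebra.coeff_single_mul_eq_mul_coeff _ (by intro m' _; omega)
  rw [h1, one_mul]

lemma del_mem {g : G} {l : ℕ} (hdiv : ∀ d, ∀ a ∈ F d, θ g a - a ∈ F (d + l))
    {f : AddMonoidAlgebra B ℤ} (hf : f ∈ reesZ k hF) :
    AddMonoidAlgebra.single (l : ℤ) (1 : B) * (TA θ g f - f) ∈ reesZ k hF := by
  intro d
  rw [coeff_single_one_mul, AddMonoidAlgebra.coeff_sub, Finsupp.sub_apply, TA_coeff]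
  exact hF.anti _ _ (by omega) (hdiv _ _ (hf (d - l)))

/-- The map of extended Rees algebras. -/
noncomputable def jR (H : Subgroup G) :
    reesZ k (isFilt_restr hF (iv θ H)) →ₐ[k] reesZ k hF :=
  ((AddMonoidAlgebra.mapAlgHom ℤ (iv θ H).val).comp
    (reesZ k (isFilt_restr hF (iv θ H))).val).codRestrict _ (by
      rintro ⟨f, hf⟩ d
      change (AddMonoidAlgebra.mapAlgHom ℤ (iv θ H).val f).coeff d ∈ _
      rw [AddMonoidAlgebra.coeff_mapAlgHom]
      exact hf d)

lemma coeff_jR (H : Subgroup G) (f : reesZ k (isFilt_restr hF (iv θ H))) (d : ℤ) :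
    ((jR θ hF H f : reesZ k hF) : AddMonoidAlgebra B ℤ).coeff d =
      ((f : AddMonoidAlgebra (iv θ H) ℤ).coeff d : B) := by
  change (AddMonoidAlgebra.mapAlgHom ℤ (iv θ H).val
    (f : AddMonoidAlgebra (iv θ H) ℤ)).coeff d = _
  rw [AddMonoidAlgebra.coeff_mapAlgHom]
  rfl

lemma exists_jR (H : Subgroup G) (f : reesZ k hF)
    (hf : ∀ h ∈ H, TA θ h (f : AddMonoidAlgebra B ℤ) = f) : ∃ f', jR θ hF H f' = f := by
  classical
  have hc : ∀ d, (f : AddMonoidAlgebra B ℤ).coeff d ∈ iv θ H := by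
    intro d h hh
    rw [← TA_coeff, hf h hh]
  let f0 : AddMonoidAlgebra (iv θ H) ℤ :=
    ∑ d ∈ (f : AddMonoidAlgebra B ℤ).coeff.support, AddMonoidAlgebra.single d ⟨_, hc d⟩
  have h0 : ∀ e, ((f0.coeff e : iv θ H) : B) = (f : AddMonoidAlgebra B ℤ).coeff e := by
    intro e
    simp only [f0]
    rw [AddMonoidAlgebra.coeff_sum, Finsupp.finsetSum_apply]
    simp only [AddMonoidAlgebra.coeff_single, Finsupp.single_apply]
    rw [Finset.sum_ite_eq']
    split_ifs with h
    · rfl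
    · rw [Finsupp.notMem_support_iff] at h
      rw [h]
      rfl
  refine ⟨⟨f0, fun d => ?_⟩, ?_⟩
  · rw [mem_restr, h0]
    exact f.2 d
  · apply Subtype.ext
    apply AddMonoidAlgebra.coeff_injective
    ext d
    rw [coeff_jR]
    exact h0 d

/-- Lying over. -/
theorem lying_over [Finite G] (hst : ∀ g d, ∀ x ∈ F d, θ g x ∈ F d) (H : Subgroup G)
    (Q : Ideal (reesZ k (isFilt_restr hF (iv θ H)))) (hQ : Q.IsPrime) :
    ∃ Q' : Ideal (reesZ k hF), Q'.IsPrime ∧ ∀ f, jR θ hF H f ∈ Q' ↔ f ∈ Q := by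
  let _ : MulSemiringAction H (reesZ k hF) :=
    { smul := fun h f => ⟨TA θ h f, TA_mem θ hF hst h f.2⟩
      one_smul := fun f => Subtype.ext (TA_one θ _)
      mul_smul := fun a b f => Subtype.ext (TA_mul θ a b _)
      smul_zero := fun a => Subtype.ext (map_zero (TA θ (a : G)))
      smul_add := fun a x y => Subtype.ext (map_add (TA θ (a : G)) _ _)
      smul_one := fun a => Subtype.ext (map_one (TA θ (a : G)))
      smul_mul := fun a x y => Subtype.ext (map_mul (TA θ (a : G)) _ _) }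
  let _ : Algebra (reesZ k (isFilt_restr hF (iv θ H))) (reesZ k hF) :=
    (jR θ hF H).toRingHom.toAlgebra
  have hinv : Algebra.IsInvariant (reesZ k (isFilt_restr hF (iv θ H))) (reesZ k hF) H := by
    constructor
    intro f hf
    obtain ⟨f', hf'⟩ := exists_jR θ hF H f (fun h hh => congrArg Subtype.val (hf ⟨h, hh⟩))
    exact ⟨f', hf'⟩
  have hint := Algebra.IsInvariant.isIntegral (reesZ k (isFilt_restr hF (iv θ H)))
    (reesZ k hF) H
  have hinj : Function.Injective (algebraMap (reesZ k (isFilt_restr hF (iv θ H)))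
      (reesZ k hF)) := by
    intro a b hab
    apply Subtype.ext
    apply AddMonoidAlgebra.coeff_injective
    ext d
    have h1 := congrArg (fun f : reesZ k hF => (f : AddMonoidAlgebra B ℤ).coeff d) hab
    change ((jR θ hF H a : reesZ k hF) : AddMonoidAlgebra B ℤ).coeff d =
      ((jR θ hF H b : reesZ k hF) : AddMonoidAlgebra B ℤ).coeff d at h1
    rw [coeff_jR, coeff_jR] at h1
    exact h1
  obtain ⟨Q', -, hQ', h⟩ := Ideal.exists_ideal_over_prime_of_isIntegral (S := reesZ k hF)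
    Q ⊥ (by
      rw [← RingHom.ker_eq_comap_bot, (RingHom.injective_iff_ker_eq_bot _).1 hinj]
      exact bot_le)
  refine ⟨Q', hQ', fun f => ?_⟩
  rw [← h]
  rfl

end inv

end Pool.Agent.H208Q
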