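import Pool.Agent.H208Q.D

/-!
The difference operators on the extended Rees algebra.
-/

set_option autoImplicit false
set_option linter.unusedSectionVars false

open AlgebraicGeometry CategoryTheory Pool.Agent.H920R2 Pool.Agent.H519R3.RS

universe u v

namespace Pool.Agent.H208Q

/-- In characteristic `p` the `p`-th power of the difference operator. -/
lemma diff_iter {k A : Type u} [Field k] [CommRing A] [Algebra k A] {p : ℕ} (hp : p.Prime)
    (hpk : (p : k) = 0) (σ : A ≃ₐ[k] A) (b : A) (hb : σ^[p] b = b) :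
    (fun x => σ x - x)^[p] b = 0 := by
  have hchar : CharP k p := (CharP.charP_iff_prime_eq_zero hp).2 hpk
  have : Fact p.Prime := ⟨hp⟩
  let E : Module.End k A := (σ : A →ₐ[k] A).toLinearMap
  have hE : ∀ (n : ℕ) (x : A), (E ^ n) x = σ^[n] x := by
    intro n x
    rw [Module.End.pow_apply]
    rfl
  have hdel : ∀ (n : ℕ) (x : A), ((E - 1) ^ n) x = (fun x => σ x - x)^[n] x := by
    intro n x
    rw [Module.End.pow_apply]
    rfl
  have h1 : (Polynomial.X - 1 : Polynomial k) ^ p = Polynomial.X ^ p - 1 := by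
    rw [sub_pow_char, one_pow]
  have h2 := congrArg (Polynomial.aeval E) h1
  rw [map_pow, map_sub, map_sub, map_pow, Polynomial.aeval_X, map_one] at h2
  have h3 := congrArg (fun f : Module.End k A => f b) h2
  simp only [LinearMap.sub_apply, Module.End.one_apply] at h3
  rw [hdel, hE, hb, sub_self] at h3
  exact h3

section del

variable {k B : Type u} [Field k] [CommRing B] [Algebra k B] {G : Type} [Group G]
  (θ : G →* (B ≃ₐ[k] B)) {F : ℕ → Ideal B} (hF : IsFilt F)

/-- The element `T`. -/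
noncomputable def sT : reesZ k hF := ⟨AddMonoidAlgebra.single (-1) 1, by
  classical
  intro e
  rw [AddMonoidAlgebra.coeff_single, Finsupp.single_apply]
  split_ifs with h
  · subst h
    change _ ∈ F 0
    rw [hF.zero]
    trivial
  · exact Ideal.zero_mem _⟩

lemma coe_sT : ((sT hF : reesZ k hF) : AddMonoidAlgebra B ℤ) = AddMonoidAlgebra.single (-1) 1 :=
  rfl

lemma sT_pow (l : ℕ) : ((sT hF : reesZ k hF) : AddMonoidAlgebra B ℤ) ^ l =
    AddMonoidAlgebra.single (-(l : ℤ)) 1 := by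
  rw [coe_sT, AddMonoidAlgebra.single_pow, one_pow]
  congr 1
  simp

lemma sT_mul (l : ℕ) (x : AddMonoidAlgebra B ℤ) :
    ((sT hF : reesZ k hF) : AddMonoidAlgebra B ℤ) ^ l * (AddMonoidAlgebra.single (l : ℤ) 1 * x) =
      x := by
  rw [sT_pow, ← mul_assoc, AddMonoidAlgebra.single_mul_single, neg_add_cancel, one_mul]
  exact one_mul x

/-- The difference operator on the extended Rees algebra. -/
noncomputable def delR {g : G} {l : ℕ} (hdiv : ∀ d, ∀ a ∈ F d, θ g a - a ∈ F (d + l)) :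
    reesZ k hF →+ reesZ k hF where
  toFun f := ⟨AddMonoidAlgebra.single (l : ℤ) (1 : B) * (TA θ g f - f), del_mem θ hF hdiv f.2⟩
  map_zero' := Subtype.ext (by
    change AddMonoidAlgebra.single (l : ℤ) (1 : B) * (TA θ g 0 - 0) = 0
    rw [map_zero, sub_self, mul_zero])
  map_add' := fun a b => Subtype.ext (by
    change AddMonoidAlgebra.single (l : ℤ) (1 : B) * (TA θ g ((a : AddMonoidAlgebra B ℤ) + b) -
      (a + b)) = AddMonoidAlgebra.single (l : ℤ) (1 : B) * (TA θ g a - a) +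
      AddMonoidAlgebra.single (l : ℤ) (1 : B) * (TA θ g b - b)
    rw [map_add]
    ring)

lemma coe_delR {g : G} {l : ℕ} (hdiv : ∀ d, ∀ a ∈ F d, θ g a - a ∈ F (d + l))
    (f : reesZ k hF) : ((delR θ hF hdiv f : reesZ k hF) : AddMonoidAlgebra B ℤ) =
      AddMonoidAlgebra.single (l : ℤ) (1 : B) * (TA θ g f - f) := rfl

lemma sT_delR {g : G} {l : ℕ} (hdiv : ∀ d, ∀ a ∈ F d, θ g a - a ∈ F (d + l))
    (f : reesZ k hF) : ((sT hF ^ l * delR θ hF hdiv f : reesZ k hF) : AddMonoidAlgebra B ℤ) =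
      TA θ g f - f := by
  change ((sT hF : reesZ k hF) : AddMonoidAlgebra B ℤ) ^ l * _ = _
  exact sT_mul hF l _

lemma delR_leib {g : G} {l : ℕ} (hl : 0 < l) (hdiv : ∀ d, ∀ a ∈ F d, θ g a - a ∈ F (d + l))
    (a b : reesZ k hF) : delR θ hF hdiv (a * b) - (a * delR θ hF hdiv b + b * delR θ hF hdiv a) ∈
      Ideal.span {(sT hF : reesZ k hF)} := by
  have h1 : delR θ hF hdiv (a * b) - (a * delR θ hF hdiv b + b * delR θ hF hdiv a) =
      sT hF ^ l * (delR θ hF hdiv a * delR θ hF hdiv b) := by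
    apply Subtype.ext
    change AddMonoidAlgebra.single (l : ℤ) (1 : B) * (TA θ g ((a : AddMonoidAlgebra B ℤ) * b) -
      (a : AddMonoidAlgebra B ℤ) * b) - ((a : AddMonoidAlgebra B ℤ) * (AddMonoidAlgebra.single (l : ℤ) (1 : B) *
        (TA θ g b - b)) + (b : AddMonoidAlgebra B ℤ) *
        (AddMonoidAlgebra.single (l : ℤ) (1 : B) * (TA θ g a - a))) =
      ((sT hF : reesZ k hF) : AddMonoidAlgebra B ℤ) ^ l *
      ((AddMonoidAlgebra.single (l : ℤ) (1 : B) * (TA θ g a - a)) *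
      (AddMonoidAlgebra.single (l : ℤ) (1 : B) * (TA θ g b - b)))
    rw [mul_assoc (AddMonoidAlgebra.single (l : ℤ) (1 : B)), sT_mul, map_mul]
    ring
  rw [h1]
  obtain ⟨m, rfl⟩ : ∃ m, l = m + 1 := ⟨l - 1, by omega⟩
  rw [pow_succ', mul_assoc]
  exact Ideal.mul_mem_right _ _ (Ideal.mem_span_singleton_self _)

lemma delR_span {g : G} {l : ℕ} (hdiv : ∀ d, ∀ a ∈ F d, θ g a - a ∈ F (d + l))
    (a : reesZ k hF) (ha : a ∈ Ideal.span {(sT hF : reesZ k hF)}) :
    delR θ hF hdiv a ∈ Ideal.span {(sT hF : reesZ k hF)} := by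
  obtain ⟨b, rfl⟩ := Ideal.mem_span_singleton'.1 ha
  have h1 : delR θ hF hdiv (b * sT hF) = sT hF * delR θ hF hdiv b := by
    apply Subtype.ext
    change AddMonoidAlgebra.single (l : ℤ) (1 : B) *
      (TA θ g ((b : AddMonoidAlgebra B ℤ) * AddMonoidAlgebra.single (-1) 1) -
      (b : AddMonoidAlgebra B ℤ) * AddMonoidAlgebra.single (-1) 1) =
      AddMonoidAlgebra.single (-1) 1 * (AddMonoidAlgebra.single (l : ℤ) (1 : B) *
      (TA θ g (b : AddMonoidAlgebra B ℤ) - (b : AddMonoidAlgebra B ℤ)))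
    rw [map_mul, TA_single, map_one]
    ring
  rw [h1]
  exact Ideal.mul_mem_right _ _ (Ideal.mem_span_singleton_self _)

/-- The elements fixed by a subgroup. -/
def SR (H : Subgroup G) : Subring (reesZ k hF) where
  carrier := {f | ∀ h ∈ H, TA θ h (f : AddMonoidAlgebra B ℤ) = f}
  mul_mem' := fun {a b} ha hb q hq => by
    change TA θ q ((a : AddMonoidAlgebra B ℤ) * b) = a * b
    rw [map_mul, ha q hq, hb q hq]
  one_mem' := fun q _ => map_one _
  add_mem' := fun {a b} ha hb q hq => by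
    change TA θ q ((a : AddMonoidAlgebra B ℤ) + b) = a + b
    rw [map_add, ha q hq, hb q hq]
  zero_mem' := fun q _ => map_zero _
  neg_mem' := fun {a} ha q hq => by
    change TA θ q (-(a : AddMonoidAlgebra B ℤ)) = -a
    rw [map_neg, ha q hq]

lemma mem_SR {H : Subgroup G} {f : reesZ k hF} :
    f ∈ SR θ hF H ↔ ∀ h ∈ H, TA θ h (f : AddMonoidAlgebra B ℤ) = f := Iff.rfl

lemma delR_SR {g : G} {l : ℕ} (hdiv : ∀ d, ∀ a ∈ F d, θ g a - a ∈ F (d + l)) {H : Subgroup G}
    (hs : ∀ h ∈ H, g⁻¹ * h * g ∈ H) {f : reesZ k hF} (hf : f ∈ SR θ hF H) :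
    delR θ hF hdiv f ∈ SR θ hF H := by
  intro h hh
  rw [coe_delR, map_mul, map_sub, TA_single, map_one, hf h hh]
  have h1 : h * g = g * (g⁻¹ * h * g) := by group
  rw [← TA_mul, h1, TA_mul, hf _ (hs h hh)]

lemma coe_delR_iter {g : G} {l : ℕ} (hdiv : ∀ d, ∀ a ∈ F d, θ g a - a ∈ F (d + l)) (n : ℕ)
    (f : reesZ k hF) : (((delR θ hF hdiv)^[n] f : reesZ k hF) : AddMonoidAlgebra B ℤ) =
      AddMonoidAlgebra.single (l : ℤ) (1 : B) ^ n *
        (fun x => TA θ g x - x)^[n] (f : AddMonoidAlgebra B ℤ) := by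
  induction n with
  | zero => rw [pow_zero, one_mul]; rfl
  | succ n ih =>
    rw [Function.iterate_succ_apply', coe_delR, ih, Function.iterate_succ_apply', map_mul,
      map_pow, TA_single, map_one]
    ring

lemma delR_last {p : ℕ} (hp : p.Prime) (hpk : (p : k) = 0) {g : G} {l : ℕ}
    (hdiv : ∀ d, ∀ a ∈ F d, θ g a - a ∈ F (d + l)) {H H' : Subgroup G}
    (hs : ∀ h ∈ H, g⁻¹ * h * g ∈ H) (hpow : g ^ p ∈ H) (hH : H' = H ⊔ Subgroup.zpowers g)
    {f : reesZ k hF} (hf : f ∈ SR θ hF H) : (delR θ hF hdiv)^[p - 1] f ∈ SR θ hF H' := by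
  set x := (delR θ hF hdiv)^[p - 1] f with hx
  have h1 : ∀ n, (delR θ hF hdiv)^[n] f ∈ SR θ hF H := by
    intro n
    induction n with
    | zero => exact hf
    | succ n ih =>
      rw [Function.iterate_succ_apply']
      exact delR_SR θ hF hdiv hs ih
  have h2 : delR θ hF hdiv x = 0 := by
    rw [hx, ← Function.iterate_succ_apply' (delR θ hF hdiv)]
    have h3 : (p - 1).succ = p := Nat.succ_pred_prime hp
    rw [h3]
    apply Subtype.ext
    rw [coe_delR_iter, diff_iter hp hpk (TA θ g) _ (by rw [TA_iter]; exact hf _ hpow), mul_zero]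
    rfl
  have h3 : TA θ g (x : AddMonoidAlgebra B ℤ) = x := by
    have h4 := sT_delR θ hF hdiv x
    rw [h2, mul_zero] at h4
    exact (sub_eq_zero.1 h4.symm)
  let St : Subgroup G :=
    { carrier := {g | TA θ g (x : AddMonoidAlgebra B ℤ) = x}
      mul_mem' := fun {a b} ha hb => by
        change TA θ (a * b) _ = _
        rw [TA_mul, hb, ha]
      one_mem' := TA_one θ _
      inv_mem' := fun {a} ha => by
        change TA θ a⁻¹ _ = _
        have h4 : TA θ a (x : AddMonoidAlgebra B ℤ) = x := ha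
        have h5 : TA θ a⁻¹ (TA θ a (x : AddMonoidAlgebra B ℤ)) = x := by
          rw [← TA_mul, inv_mul_cancel, TA_one]
        rwa [h4] at h5 }
  have h4 : H' ≤ St := by
    rw [hH, sup_le_iff, Subgroup.zpowers_le]
    exact ⟨fun h hh => h1 (p - 1) h hh, h3⟩
  exact fun h hh => h4 hh

end del

section comp

variable {k B : Type u} [Field k] [CommRing B] [Algebra k B] {F : ℕ → Ideal B} (hF : IsFilt F)

lemma single_mem (d : ℤ) (b : B) (hb : b ∈ F d.toNat) :
    AddMonoidAlgebra.single d b ∈ reesZ k hF := by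
  classical
  intro e
  rw [AddMonoidAlgebra.coeff_single, Finsupp.single_apply]
  split_ifs with h
  · subst h
    exact hb
  · exact Ideal.zero_mem _

lemma mem_of_comp (Q : Ideal (reesZ k hF)) (x : reesZ k hF)
    (h : ∀ e : ℤ, ∀ hx : AddMonoidAlgebra.single e ((x : AddMonoidAlgebra B ℤ).coeff e) ∈
      reesZ k hF, (⟨_, hx⟩ : reesZ k hF) ∈ Q) : x ∈ Q := by
  have h1 : ∀ e : ℤ, AddMonoidAlgebra.single e ((x : AddMonoidAlgebra B ℤ).coeff e) ∈
      reesZ k hF := fun e => single_mem hF e _ (x.2 e)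
  have h2 : x = ∑ e ∈ (x : AddMonoidAlgebra B ℤ).coeff.support,
      (⟨AddMonoidAlgebra.single e ((x : AddMonoidAlgebra B ℤ).coeff e), h1 e⟩ : reesZ k hF) := by
    apply Subtype.ext
    rw [AddSubmonoidClass.coe_finsetSum]
    exact (AddMonoidAlgebra.sum_coeff_single (x : AddMonoidAlgebra B ℤ)).symm
  rw [h2]
  exact Ideal.sum_mem _ fun e _ => h e (h1 e)

end comp

end Pool.Agent.H208Q
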