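import Pool.Agent.H208Q.E

/-!
The main step: finite `p`-groups whose leading forms are linearly independent outside the vertex.
-/

set_option autoImplicit false
set_option linter.unusedSectionVars false

open AlgebraicGeometry CategoryTheory Pool.Agent.H920R2 Pool.Agent.H519R3.RS

universe u v

namespace Pool.Agent.H208Q

/-- The elements of weight at least `m` whose leading form of weight `m` lies in the ideal generated
by the determinants of the leading forms of the operators `δ i`, which raise the weights by `l i`. -/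
def detI {B : Type u} [CommRing B] {r : ℕ} (δ : Fin r → B → B) (F : ℕ → Ideal B) (l : Fin r → ℕ)
    (m : ℕ) : Ideal B :=
  F (m + 1) ⊔ Ideal.span {y | ∃ (e : Fin r → ℕ) (c : Fin r → B), (∀ j, c j ∈ F (e j)) ∧
    ∃ b ∈ F (m - ∑ j, (e j + l j)), y = b * (Matrix.of fun i j => δ i (c j)).det}

lemma exists_field {R : Type u} [CommRing R] (Q : Ideal R) (hQ : Q.IsPrime) :
    ∃ (κ : Type u) (_ : Field κ) (ev : R →+* κ), ∀ f, ev f = 0 ↔ f ∈ Q := by
  refine ⟨FractionRing (R ⧸ Q), inferInstance,
    (algebraMap (R ⧸ Q) (FractionRing (R ⧸ Q))).comp (Ideal.Quotient.mk Q), fun f => ?_⟩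
  change algebraMap (R ⧸ Q) (FractionRing (R ⧸ Q)) (Ideal.Quotient.mk Q f) = 0 ↔ _
  rw [map_eq_zero_iff _ (IsFractionRing.injective (R ⧸ Q) (FractionRing (R ⧸ Q))),
    Ideal.Quotient.eq_zero_iff_mem]

section main

variable {k B : Type u} [Field k] [CommRing B] [Algebra k B] {G : Type} [Group G]
  (θ : G →* (B ≃ₐ[k] B)) {F : ℕ → Ideal B} (hF : IsFilt F)

/-- Powers lying in the ideal of determinants. -/
lemma det_case {r : ℕ} (s : Fin r → G) (l : Fin r → ℕ)
    (hdiv : ∀ i, ∀ d, ∀ a ∈ F d, θ (s i) a - a ∈ F (d + l i))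
    (Q : Ideal (reesZ k hF)) (hQ : Q.IsPrime) (hT : sT hF ∈ Q)
    (hdet : ∀ c : Fin r → reesZ k hF,
      (Matrix.of fun i j => delR θ hF (hdiv i) (c j)).det ∈ Q)
    (d N : ℕ) (a : B) (ha : a ∈ F d)
    (haN : a ^ N ∈ detI (fun i b => θ (s i) b - b) F l (N * d)) :
    (⟨AddMonoidAlgebra.single (d : ℤ) a, single_mem_reesZ hF ha⟩ : reesZ k hF) ∈ Q := by
  classical
  set m := N * d with hm
  let J : Ideal B :=
    { carrier := {z | ∃ h : AddMonoidAlgebra.single (m : ℤ) z ∈ reesZ k hF,
        (⟨AddMonoidAlgebra.single (m : ℤ) z, h⟩ : reesZ k hF) ∈ Q}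
      zero_mem' := by
        refine ⟨by rw [AddMonoidAlgebra.single_zero]; exact (reesZ k hF).zero_mem, ?_⟩
        have h1 : (⟨AddMonoidAlgebra.single (m : ℤ) (0 : B), by
            rw [AddMonoidAlgebra.single_zero]; exact (reesZ k hF).zero_mem⟩ : reesZ k hF) = 0 :=
          Subtype.ext (AddMonoidAlgebra.single_zero _)
        rw [h1]
        exact Q.zero_mem
      add_mem' := by
        rintro x y ⟨hx, hx'⟩ ⟨hy, hy'⟩
        refine ⟨by rw [AddMonoidAlgebra.single_add]; exact (reesZ k hF).add_mem hx hy, ?_⟩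
        have h1 : (⟨AddMonoidAlgebra.single (m : ℤ) (x + y), by
            rw [AddMonoidAlgebra.single_add]; exact (reesZ k hF).add_mem hx hy⟩ : reesZ k hF) =
            ⟨_, hx⟩ + ⟨_, hy⟩ := Subtype.ext (AddMonoidAlgebra.single_add _ _ _)
        rw [h1]
        exact Q.add_mem hx' hy'
      smul_mem' := by
        rintro c x ⟨hx, hx'⟩
        have h0 : AddMonoidAlgebra.single (0 : ℤ) c ∈ reesZ k hF := single_mem hF 0 c (by
          change c ∈ F 0
          rw [hF.zero]
          trivial)
        have h2 : AddMonoidAlgebra.single (m : ℤ) (c * x) =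
            AddMonoidAlgebra.single (0 : ℤ) c * AddMonoidAlgebra.single (m : ℤ) x := by
          rw [AddMonoidAlgebra.single_mul_single, zero_add]
        refine ⟨by rw [smul_eq_mul, h2]; exact (reesZ k hF).mul_mem h0 hx, ?_⟩
        have h1 : (⟨AddMonoidAlgebra.single (m : ℤ) (c • x), by
            rw [smul_eq_mul, h2]; exact (reesZ k hF).mul_mem h0 hx⟩ : reesZ k hF) =
            ⟨_, h0⟩ * ⟨_, hx⟩ := Subtype.ext h2
        rw [h1]
        exact Q.mul_mem_left _ hx' }
  have hle : detI (fun i b => θ (s i) b - b) F l m ≤ J := by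
    rw [detI, sup_le_iff]
    constructor
    · intro z hz
      have h1 : AddMonoidAlgebra.single (((m + 1 : ℕ) : ℤ)) z ∈ reesZ k hF :=
        single_mem_reesZ hF hz
      have h2 : AddMonoidAlgebra.single (m : ℤ) z = AddMonoidAlgebra.single (-1) 1 *
          AddMonoidAlgebra.single (((m + 1 : ℕ) : ℤ)) z := by
        rw [AddMonoidAlgebra.single_mul_single, one_mul]
        congr 1
        push_cast
        ring
      refine ⟨by rw [h2]; exact (reesZ k hF).mul_mem (sT hF).2 h1, ?_⟩
      have h3 : (⟨AddMonoidAlgebra.single (m : ℤ) z, by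
          rw [h2]; exact (reesZ k hF).mul_mem (sT hF).2 h1⟩ : reesZ k hF) = sT hF * ⟨_, h1⟩ :=
        Subtype.ext h2
      rw [h3]
      exact Q.mul_mem_right _ hT
    · rw [Ideal.span_le]
      rintro y ⟨e, c, hc, b, hb, rfl⟩
      let c' : Fin r → reesZ k hF := fun j =>
        ⟨AddMonoidAlgebra.single (e j : ℤ) (c j), single_mem_reesZ hF (hc j)⟩
      have h1 := hdet c'
      have h4 : AddMonoidAlgebra.single ((m : ℤ) - ∑ j, ((e j : ℤ) + l j)) b ∈ reesZ k hF := by
        refine single_mem hF _ b ?_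
        have e1 : ((m : ℤ) - ∑ j, ((e j : ℤ) + l j)).toNat = m - ∑ j, (e j + l j) := by
          have e2 : ∑ j, ((e j : ℤ) + l j) = ((∑ j, (e j + l j) : ℕ) : ℤ) := by push_cast; rfl
          rw [e2]
          omega
        rw [e1]
        exact hb
      have hentry : ∀ i j, ((delR θ hF (hdiv i) (c' j) : reesZ k hF) : AddMonoidAlgebra B ℤ) =
          AddMonoidAlgebra.single (l i : ℤ) 1 * (AddMonoidAlgebra.single (e j : ℤ) 1 *
            AddMonoidAlgebra.single (0 : ℤ) (θ (s i) (c j) - c j)) := by
        intro i j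
        rw [coe_delR, TA_single, ← AddMonoidAlgebra.single_sub,
          AddMonoidAlgebra.single_mul_single (m₁ := (e j : ℤ)), one_mul, add_zero]
      have hdet2 : (((Matrix.of fun i j => delR θ hF (hdiv i) (c' j)).det : reesZ k hF) :
          AddMonoidAlgebra B ℤ) = (∏ i, AddMonoidAlgebra.single (l i : ℤ) 1) *
            ((∏ j, AddMonoidAlgebra.single (e j : ℤ) 1) * AddMonoidAlgebra.single (0 : ℤ)
              (Matrix.of fun i j => θ (s i) (c j) - c j).det) := by
        have e1 : (((Matrix.of fun i j => delR θ hF (hdiv i) (c' j)).det : reesZ k hF) :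
            AddMonoidAlgebra B ℤ) = (Matrix.of fun i j => AddMonoidAlgebra.single (l i : ℤ) 1 *
              (Matrix.of fun i j => AddMonoidAlgebra.single (e j : ℤ) 1 *
            (Matrix.of fun i j => AddMonoidAlgebra.single (0 : ℤ)
              (θ (s i) (c j) - c j)) i j) i j).det := by
          have e2 := RingHom.map_det (reesZ k hF).val.toRingHom
            (Matrix.of fun i j => delR θ hF (hdiv i) (c' j))
          refine e2.trans ?_
          congr 1
          ext1 i j
          exact hentry i j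
        rw [e1, Matrix.det_mul_column, Matrix.det_mul_row]
        congr 2
        have e3 := RingHom.map_det (AddMonoidAlgebra.singleZeroRingHom (R := B) (M := ℤ))
          (Matrix.of fun i j => θ (s i) (c j) - c j)
        exact e3.symm
      have hprod : ∀ (n : ℕ) (v : Fin n → ℕ), (∏ i, AddMonoidAlgebra.single (v i : ℤ) (1 : B)) =
          AddMonoidAlgebra.single (∑ i, (v i : ℤ)) 1 := by
        intro n v
        induction n with
        | zero => simp
        | succ n ih =>
          rw [Fin.prod_univ_succ, Fin.sum_univ_succ, ih (fun i => v i.succ),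
            AddMonoidAlgebra.single_mul_single, one_mul]
      have h2 : AddMonoidAlgebra.single (m : ℤ)
          (b * (Matrix.of fun i j => θ (s i) (c j) - c j).det) =
          AddMonoidAlgebra.single ((m : ℤ) - ∑ j, ((e j : ℤ) + l j)) b *
          (((Matrix.of fun i j => delR θ hF (hdiv i) (c' j)).det : reesZ k hF) :
          AddMonoidAlgebra B ℤ) := by
        rw [hdet2, hprod, hprod, AddMonoidAlgebra.single_mul_single,
          AddMonoidAlgebra.single_mul_single, AddMonoidAlgebra.single_mul_single, one_mul,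
          one_mul, Finset.sum_add_distrib]
        congr 1
        ring
      refine ⟨by rw [h2]; exact (reesZ k hF).mul_mem h4 (Subtype.prop _), ?_⟩
      have h3 : (⟨AddMonoidAlgebra.single (m : ℤ)
          (b * (Matrix.of fun i j => θ (s i) (c j) - c j).det), by
            rw [h2]; exact (reesZ k hF).mul_mem h4 (Subtype.prop _)⟩ : reesZ k hF) =
          ⟨_, h4⟩ * (Matrix.of fun i j => delR θ hF (hdiv i) (c' j)).det := Subtype.ext h2
      rw [h3]
      exact Q.mul_mem_left _ h1
  obtain ⟨h1, h2⟩ := hle haN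
  have h3 : (⟨AddMonoidAlgebra.single (d : ℤ) a, single_mem_reesZ hF ha⟩ : reesZ k hF) ^ N =
      ⟨_, h1⟩ := by
    apply Subtype.ext
    change AddMonoidAlgebra.single (d : ℤ) a ^ N = AddMonoidAlgebra.single (m : ℤ) (a ^ N)
    rw [AddMonoidAlgebra.single_pow, hm]
    congr 1
  rw [← h3] at h2
  exact hQ.mem_of_pow_mem _ h2

/-- The main step. -/
theorem radZ_chain [Finite G] {p : ℕ} (hp : p.Prime) (hpk : (p : k) = 0) {r : ℕ}
    (H : ℕ → Subgroup G) (s : ℕ → G) (l : ℕ → ℕ) (hbot : H 0 = ⊥)
    (hgen : ∀ i < r, H (i + 1) = H i ⊔ Subgroup.zpowers (s i))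
    (hnorm : ∀ i < r, ∀ h ∈ H i, s i * h * (s i)⁻¹ ∈ H i)
    (hnorm' : ∀ i < r, ∀ h ∈ H i, (s i)⁻¹ * h * s i ∈ H i)
    (hpow : ∀ i < r, s i ^ p ∈ H i) (hnot : ∀ i < r, s i ∉ H i)
    (hl : ∀ i < r, 0 < l i) (hdiv : ∀ i < r, ∀ d, ∀ a ∈ F d, θ (s i) a - a ∈ F (d + l i))
    (hst : ∀ g d, ∀ x ∈ F d, θ g x ∈ F d)
    (hfix : ∀ g : G, g ≠ 1 → ∀ P : Ideal B, P.IsPrime → (∀ a, θ g a - a ∈ P) → F 1 ≤ P)
    (hlead : ∀ d, 1 ≤ d → ∀ a ∈ F d, ∃ N : ℕ,
      a ^ N ∈ detI (fun (i : Fin r) b => θ (s i) b - b) F (fun i => l i) (N * d))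
    (i : ℕ) (hi : i < r) :
    RadZ (k := k) (isFilt_restr hF (iv θ (H i)))
      (fun c => actI θ (hnorm' i hi) (hnorm i hi) c - c) (l i) := by
  classical
  intro Q hQ hQ0 d a ha hd
  by_contra hcon
  obtain ⟨Q', hQ', hQQ'⟩ := lying_over θ hF hst (H i) Q hQ
  -- the operators
  let δ : ℕ → reesZ k hF →+ reesZ k hF := fun j =>
    if h : j < r then delR θ hF (hdiv j h) else 0
  have hδ : ∀ j (h : j < r), δ j = delR θ hF (hdiv j h) := fun j h => dif_pos h
  have hδ' : ∀ j, ¬ j < r → δ j = 0 := fun j h => dif_neg h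
  have haF : (a : B) ∈ F d := ha
  let x : reesZ k hF := ⟨AddMonoidAlgebra.single (d : ℤ) (a : B), single_mem_reesZ hF haF⟩
  have hj : ∀ (e : ℤ) (c : iv θ (H i)) (h : AddMonoidAlgebra.single e c ∈
      reesZ k (isFilt_restr hF (iv θ (H i)))),
      ((jR θ hF (H i) ⟨AddMonoidAlgebra.single e c, h⟩ : reesZ k hF) : AddMonoidAlgebra B ℤ) =
      AddMonoidAlgebra.single e (c : B) := by
    intro e c h
    apply AddMonoidAlgebra.coeff_injective
    ext e'
    rw [coeff_jR, AddMonoidAlgebra.coeff_single, AddMonoidAlgebra.coeff_single,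
      Finsupp.single_apply, Finsupp.single_apply]
    split_ifs <;> rfl
  have hxQ : x ∉ Q' := by
    intro h
    apply hcon
    rw [← hQQ']
    have h1 : jR θ hF (H i) ⟨AddMonoidAlgebra.single (d : ℤ) a, single_mem_reesZ _ ha⟩ = x :=
      Subtype.ext (hj _ _ _)
    rw [h1]
    exact h
  -- it suffices to find an element
  have hmain : ∃ f ∈ SR θ hF (H i), δ i f ∉ Q' := by
    obtain ⟨κ, _, ev, hev0⟩ := exists_field Q' hQ'
    by_cases hT : sT hF ∈ Q'
    · have hchar : CharP κ p := by
        refine (CharP.charP_iff_prime_eq_zero hp).2 ?_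
        have h1 : ((p : ℕ) : reesZ k hF) = 0 := by
          rw [← map_natCast (algebraMap k (reesZ k hF)), hpk, map_zero]
        rw [← map_natCast ev, h1, map_zero]
      have hdet : ∃ c : Fin r → reesZ k hF,
          (Matrix.of fun i j : Fin r => ev (δ i (c j))).det ≠ 0 := by
        by_contra hcon2
        push Not at hcon2
        obtain ⟨N, hN⟩ := hlead d hd a haF
        refine hxQ (det_case θ hF (fun i : Fin r => s i) (fun i => l i)
          (fun i => hdiv i i.2) Q' hQ' hT ?_ d N a haF hN)
        intro c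
        rw [← hev0]
        have h1 := hcon2 c
        have h2 := RingHom.map_det ev
          (Matrix.of fun (i j : Fin r) => delR θ hF (hdiv i i.2) (c j))
        rw [h2, ← h1]
        congr 1
        ext1 i j
        change ev _ = ev _
        rw [hδ i i.2]
        rfl
      obtain ⟨t, ht, ht'⟩ := exists_nonzero (Ideal.span {(sT hF : reesZ k hF)}) ev
        (fun a ha => by
          rw [hev0]
          exact (Ideal.span_singleton_le_iff_mem _).2 hT ha) δ
        (fun j a b => by
          by_cases h : j < r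
          · rw [hδ j h]
            exact delR_leib θ hF (hl j h) (hdiv j h) a b
          · rw [hδ' j h]
            simp)
        (fun j a ha => by
          by_cases h : j < r
          · rw [hδ j h]
            exact delR_span θ hF (hdiv j h) a ha
          · rw [hδ' j h]
            exact Ideal.zero_mem _) hp r (fun j => SR θ hF (H j))
        (fun j h f hf => by
          rw [hδ j h]
          exact delR_SR θ hF (hdiv j h) (hnorm' j h) hf)
        (fun j h f hf => by
          rw [hδ j h]
          exact delR_last θ hF hp hpk (hdiv j h) (hnorm' j h) (hpow j h) (hgen j h) hf)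
        (by
          rw [eq_top_iff]
          intro f _ g hg
          rw [hbot, Subgroup.mem_bot] at hg
          subst hg
          exact TA_one θ _) hdet i hi
      exact ⟨t, ht, fun h => ht' ((hev0 _).2 h)⟩
    · -- the general fibre
      have h0 : ∀ b : B, AddMonoidAlgebra.single (0 : ℤ) b ∈ reesZ k hF := fun b =>
        single_mem hF 0 b (by
          change b ∈ F 0
          rw [hF.zero]
          trivial)
      let ib : B →+* reesZ k hF :=
        (AddMonoidAlgebra.singleZeroRingHom (R := B) (M := ℤ)).codRestrict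
          (reesZ k hF).toSubring h0
      have hib : ∀ b, ((ib b : reesZ k hF) : AddMonoidAlgebra B ℤ) =
          AddMonoidAlgebra.single (0 : ℤ) b := fun b => rfl
      have hdel : ∀ b, ib (θ (s i) b - b) = sT hF ^ l i * δ i (ib b) := by
        intro b
        apply Subtype.ext
        rw [hδ i hi, sT_delR, hib, hib, TA_single, ← AddMonoidAlgebra.single_sub]
      have hev : ∀ g : G, g ≠ 1 → ∃ b, (ev.comp ib) (θ g b - b) ≠ 0 := by
        intro g hg
        by_contra hcon3
        push Not at hcon3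
        have h1 : F 1 ≤ RingHom.ker (ev.comp ib) := hfix g hg _ (RingHom.ker_isPrime _) hcon3
        have h2 : (a : B) ∈ RingHom.ker (ev.comp ib) := h1 (hF.anti 1 d hd haF)
        rw [RingHom.mem_ker] at h2
        have h3 : ib a ∈ Q' := (hev0 _).1 h2
        have h4 : ib a = sT hF ^ d * x := by
          apply Subtype.ext
          change _ = ((sT hF : reesZ k hF) : AddMonoidAlgebra B ℤ) ^ d *
            AddMonoidAlgebra.single (d : ℤ) (a : B)
          rw [sT_pow, AddMonoidAlgebra.single_mul_single, neg_add_cancel, one_mul, hib]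
        rw [h4] at h3
        rcases hQ'.mem_or_mem h3 with h5 | h5
        · exact hT (hQ'.mem_of_pow_mem _ h5)
        · exact hxQ h5
      let θ' : G →* (B ≃+* B) :=
        { toFun := fun g => (θ g).toRingEquiv
          map_one' := by ext x; exact theta_one θ x
          map_mul' := fun a b => by ext x; exact theta_mul θ a b x }
      obtain ⟨c, hc, hc'⟩ := dedekind (ev.comp ib) θ' hev (H i) (s i) (hnot i hi)
      refine ⟨ib c, fun h hh => ?_, fun hmem => hc' ?_⟩
      · rw [hib, TA_single]
        have h1 : θ h c = c := hc h hh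
        rw [h1]
      · change ev (ib (θ (s i) c - c)) = 0
        rw [hev0, hdel]
        exact Ideal.mul_mem_left _ _ hmem
  obtain ⟨f, hf, hfQ⟩ := hmain
  apply hfQ
  obtain ⟨f', rfl⟩ := exists_jR θ hF (H i) f hf
  refine mem_of_comp hF Q' _ fun e he => ?_
  have hcoef : ((δ i (jR θ hF (H i) f') : reesZ k hF) : AddMonoidAlgebra B ℤ).coeff e =
      (actI θ (hnorm' i hi) (hnorm i hi) ((f' : AddMonoidAlgebra (iv θ (H i)) ℤ).coeff (e - l i))
        - (f' : AddMonoidAlgebra (iv θ (H i)) ℤ).coeff (e - l i) : iv θ (H i)) := by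
    rw [hδ i hi, coe_delR, coeff_single_one_mul, AddMonoidAlgebra.coeff_sub, Finsupp.sub_apply,
      TA_coeff, coeff_jR]
    rfl
  set c := (f' : AddMonoidAlgebra (iv θ (H i)) ℤ).coeff (e - l i) with hcdef
  have hcF : c ∈ restr F (iv θ (H i)) (e - l i).toNat := f'.2 (e - l i)
  have hdF : actI θ (hnorm' i hi) (hnorm i hi) c - c ∈
      restr F (iv θ (H i)) ((e - l i).toNat + l i) := hdiv i hi _ _ hcF
  have hsm : AddMonoidAlgebra.single (e - l i + l i)
      (actI θ (hnorm' i hi) (hnorm i hi) c - c) ∈ reesZ k (isFilt_restr hF (iv θ (H i))) :=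
    single_mem _ _ _ ((isFilt_restr hF (iv θ (H i))).anti _ _ (by omega) hdF)
  have h1 := hQ0 (e - l i) c hcF hsm
  rw [← hQQ'] at h1
  have h2 : (⟨AddMonoidAlgebra.single e
      (((δ i (jR θ hF (H i) f') : reesZ k hF) : AddMonoidAlgebra B ℤ).coeff e), he⟩ :
      reesZ k hF) = jR θ hF (H i) ⟨AddMonoidAlgebra.single (e - l i + l i)
      (actI θ (hnorm' i hi) (hnorm i hi) c - c), hsm⟩ := by
    apply Subtype.ext
    rw [hj]
    change AddMonoidAlgebra.single e _ = _
    rw [hcoef, sub_add_cancel]
  rw [h2]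
  exact h1

end main

end Pool.Agent.H208Q
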