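import Pool.Agent.H208Q.F
import Pool.Agent.H519R3.RS.Centre
import Pool.Agent.Y177.Dg.TorG

/-!
Resolution of quotients by finite groups with a normal `p`-subgroup whose leading forms are
linearly independent outside the vertex.
-/

set_option autoImplicit false
set_option linter.unusedSectionVars false

open AlgebraicGeometry CategoryTheory Pool.Agent.H920R2 Pool.Agent.H519R3.RS Pool.Agent.Y177.Dg

universe u v

namespace Pool.Agent.H208Q

section main

variable {k B : Type u} [Field k] [CommRing B] [IsDomain B] [Algebra k B] {G : Type} [Group G]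
  (θ : G →* (B ≃ₐ[k] B)) {F : ℕ → Ideal B} (hF : IsFilt F)

/-- The group preserves the filtration. -/
lemma stable_of_chain [Finite G] {r : ℕ} (H : ℕ → Subgroup G) (s : ℕ → G) (l : ℕ → ℕ)
    (hF : IsFilt F) (hbot : H 0 = ⊥) (htop : H r = ⊤)
    (hgen : ∀ i < r, H (i + 1) = H i ⊔ Subgroup.zpowers (s i))
    (hdiv : ∀ i < r, ∀ d, ∀ a ∈ F d, θ (s i) a - a ∈ F (d + l i)) :
    ∀ g d, ∀ x ∈ F d, θ g x ∈ F d := by
  let St : Subgroup G := 
    { carrier := {g | ∀ d, ∀ x ∈ F d, θ g x ∈ F d}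
      mul_mem' := fun {a b} ha hb d x hx => by rw [theta_mul]; exact ha d _ (hb d x hx)
      one_mem' := fun d x hx => by rw [theta_one]; exact hx
      inv_mem' := fun {a} ha d x hx => by
        have h1 : ∀ n : ℕ, ∀ x ∈ F d, θ (a ^ n) x ∈ F d := by
          intro n
          induction n with
          | zero => intro x hx; rw [pow_zero, theta_one]; exact hx
          | succ n ih => intro x hx; rw [pow_succ', theta_mul]; exact ha d _ (ih x hx)
        have h2 : a⁻¹ = a ^ (orderOf a - 1) := by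
          rw [eq_comm, ← mul_eq_one_iff_eq_inv, ← pow_succ,
            Nat.sub_add_cancel (orderOf_pos a), pow_orderOf_eq_one]
        rw [h2]
        exact h1 _ x hx }
  have h1 : ∀ i < r, s i ∈ St := by
    intro i hi d x hx
    have h2 : θ (s i) x = (θ (s i) x - x) + x := by ring
    rw [h2]
    exact Ideal.add_mem _ (hF.anti _ _ (Nat.le_add_right d (l i)) (hdiv i hi d x hx)) hx
  have h2 : ∀ i ≤ r, H i ≤ St := by
    intro i
    induction i with
    | zero => intro _; rw [hbot]; exact bot_le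
    | succ i ih =>
      intro hi
      rw [hgen i hi, sup_le_iff, Subgroup.zpowers_le]
      exact ⟨ih (by omega), h1 i hi⟩
  intro g
  exact (h2 r le_rfl) (by rw [htop]; trivial)

lemma iv_succ {H H' : Subgroup G} {s : G} (h : H' = H ⊔ Subgroup.zpowers s) (b : B) :
    b ∈ iv θ H' ↔ b ∈ iv θ H ∧ θ s b = b := by
  subst h
  constructor
  · intro hb
    exact ⟨fun g hg => hb g (le_sup_left (a := H) hg),
      hb s (le_sup_right (a := H) (Subgroup.mem_zpowers s))⟩
  · rintro ⟨h1, h2⟩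
    let St : Subgroup G :=
      { carrier := {g | θ g b = b}
        mul_mem' := fun {x y} hx hy => by
          change θ (x * y) b = b
          rw [theta_mul, hy, hx]
        one_mem' := theta_one θ _
        inv_mem' := fun {x} hx => by
          change θ x⁻¹ b = b
          have h4 : θ x b = b := hx
          have h5 : θ x⁻¹ (θ x b) = b := by
            rw [← theta_mul, inv_mul_cancel, theta_one]
          rwa [h4] at h5 }
    have h3 : H ⊔ Subgroup.zpowers s ≤ St := by
      rw [sup_le_iff, Subgroup.zpowers_le]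
      exact ⟨fun g hg => h1 g hg, h2⟩
    exact fun g hg => h3 hg

/-- The invariants of a chain of subgroups form good filtered algebras. -/
theorem good_chain [Finite G] {p : ℕ} (hp : p.Prime) (hpk : (p : k) = 0) {r : ℕ}
    (H : ℕ → Subgroup G) (s : ℕ → G) (l : ℕ → ℕ) (hbot : H 0 = ⊥) (htop : H r = ⊤)
    (hgen : ∀ i < r, H (i + 1) = H i ⊔ Subgroup.zpowers (s i))
    (hnorm : ∀ i < r, ∀ h, h ∈ H i ↔ s i * h * (s i)⁻¹ ∈ H i)
    (hpow : ∀ i < r, s i ^ p ∈ H i) (hnot : ∀ i < r, s i ∉ H i)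
    (hl : ∀ i < r, 0 < l i) (hdiv : ∀ i < r, ∀ d, ∀ a ∈ F d, θ (s i) a - a ∈ F (d + l i))
    (hfix : ∀ g : G, g ≠ 1 → ∀ P : Ideal B, P.IsPrime → (∀ a, θ g a - a ∈ P) → F 1 ≤ P)
    (hlead : ∀ d, 1 ≤ d → ∀ a ∈ F d, ∃ N : ℕ,
      a ^ N ∈ detI (fun (i : Fin r) b => θ (s i) b - b) F (fun i => l i) (N * d))
    (hG : Good k hF) (hne : F 1 ≠ ⊥) :
    ∀ i ≤ r, Good k (isFilt_restr hF (iv θ (H i))) ∧ restr F (iv θ (H i)) 1 ≠ ⊥ := by
  have hst := stable_of_chain θ H s l hF hbot htop hgen hdiv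
  have hn1 : ∀ i < r, ∀ h ∈ H i, s i * h * (s i)⁻¹ ∈ H i := fun i hi h hh =>
    (hnorm i hi h).1 hh
  have hn2 : ∀ i < r, ∀ h ∈ H i, (s i)⁻¹ * h * s i ∈ H i := fun i hi h hh => by
    rw [hnorm i hi]
    have h1 : s i * ((s i)⁻¹ * h * s i) * (s i)⁻¹ = h := by group
    rw [h1]
    exact hh
  intro i
  induction i with
  | zero =>
    intro _
    refine good_top hF hG hne ?_
    rw [eq_top_iff]
    intro b _ g hg
    rw [hbot, Subgroup.mem_bot] at hg
    rw [hg, theta_one]
  | succ i ih =>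
    intro hi
    obtain ⟨h1, h2⟩ := ih (by omega)
    have hi' : i < r := hi
    have hle : iv θ (H (i + 1)) ≤ iv θ (H i) := fun b hb => ((iv_succ θ (hgen i hi') b).1 hb).1
    refine ⟨good_fix' hp hpk (actI θ (hn2 i hi') (hn1 i hi')) ?_ (isFilt_restr hF (iv θ (H i))) h1
      (hl i hi') ?_ ?_ (Subalgebra.inclusion hle) (Subalgebra.inclusion_injective hle) ?_ _
      fun d c' => Iff.rfl, ?_⟩
    · intro b
      apply Subtype.ext
      have h3 : ∀ n : ℕ, (((actI θ (hn2 i hi') (hn1 i hi'))^[n] b : iv θ (H i)) : B) =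
          θ (s i ^ n) b := by
        intro n
        induction n with
        | zero => rw [pow_zero, theta_one]; rfl
        | succ n ih => rw [Function.iterate_succ_apply', coe_actI, ih, pow_succ', theta_mul]
      rw [h3]
      exact b.2 _ (hpow i hi')
    · intro d a ha
      exact hdiv i hi' d a ha
    · exact radZ_chain θ hF hp hpk H s l hbot hgen hn1 hn2 hpow hnot hl hdiv hst hfix hlead i hi'
    · rintro ⟨b, hb⟩
      constructor
      · intro h
        have h3 : θ (s i) b = b := congrArg Subtype.val h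
        exact ⟨⟨b, (iv_succ θ (hgen i hi') b).2 ⟨hb, h3⟩⟩, rfl⟩
      · rintro ⟨⟨b', hb'⟩, h⟩
        have h6 : b' = b := congrArg Subtype.val h
        subst h6
        exact Subtype.ext ((iv_succ θ (hgen i hi') b').1 hb').2
    · -- a nonzero invariant in the centre
      classical
      obtain ⟨a, ha, ha0⟩ := Submodule.exists_mem_ne_zero_of_ne_bot hne
      have _ : Fintype G := Fintype.ofFinite G
      let b : B := ∏ g : G, θ g a
      have hb : ∀ g, θ g b = b := by
        intro g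
        change θ g (∏ h : G, θ h a) = ∏ h : G, θ h a
        rw [map_prod]
        refine Fintype.prod_equiv (Equiv.mulLeft g) _ _ fun x => ?_
        rw [← theta_mul]
        rfl
      have hb0 : b ≠ 0 := by
        rw [Finset.prod_ne_zero_iff]
        intro g _ h3
        exact ha0 ((map_eq_zero_iff (θ g) (θ g).injective).1 h3)
      have hbF : b ∈ F 1 := by
        have h3 : b = θ 1 a * ∏ g ∈ Finset.univ.erase (1 : G), θ g a :=
          (Finset.mul_prod_erase _ _ (Finset.mem_univ _)).symm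
        rw [h3, theta_one]
        exact Ideal.mul_mem_right _ _ ha
      intro hbot'
      have h6 : (⟨b, fun g _ => hb g⟩ : iv θ (H (i + 1))) ∈ restr F (iv θ (H (i + 1))) 1 := hbF
      rw [hbot', Ideal.mem_bot] at h6
      exact hb0 (congrArg Subtype.val h6)

/-- **Resolution of the quotient by a finite group with a normal `p`-subgroup.** -/
theorem resolution_pgroup [Finite G] {p : ℕ} (hp : p.Prime) (hpk : (p : k) = 0)
    (P : Subgroup G) [P.Normal] (hab : ∀ g h : G, g * h * g⁻¹ * h⁻¹ ∈ P)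
    [HasEnoughRootsOfUnity k (Monoid.exponent (G ⧸ P))] (hQ : (P.index : k) ≠ 0) {r : ℕ}
    (H : ℕ → Subgroup P) (s : ℕ → P) (l : ℕ → ℕ) (hbot : H 0 = ⊥) (htop : H r = ⊤)
    (hgen : ∀ i < r, H (i + 1) = H i ⊔ Subgroup.zpowers (s i))
    (hnorm : ∀ i < r, ∀ h, h ∈ H i ↔ s i * h * (s i)⁻¹ ∈ H i)
    (hpow : ∀ i < r, s i ^ p ∈ H i) (hnot : ∀ i < r, s i ∉ H i)
    (hl : ∀ i < r, 0 < l i) (hdiv : ∀ i < r, ∀ d, ∀ a ∈ F d, θ (s i) a - a ∈ F (d + l i))
    (hfix : ∀ g : P, g ≠ 1 → ∀ P : Ideal B, P.IsPrime → (∀ a, θ g a - a ∈ P) → F 1 ≤ P)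
    (hlead : ∀ d, 1 ≤ d → ∀ a ∈ F d, ∃ N : ℕ,
      a ^ N ∈ detI (fun (i : Fin r) b => θ (s i) b - b) F (fun i => l i) (N * d))
    (hG : Good k hF) (hne : F 1 ≠ ⊥) (hst : ∀ g d, ∀ x ∈ F d, θ g x ∈ F d)
    (D : Subalgebra k B) (hD : ∀ b, b ∈ D ↔ ∀ g, θ g b = b) :
    IsVariety (X := Spec (CommRingCat.of D))
      (Spec.map (CommRingCat.ofHom (algebraMap k D))) ∧
    HasResolution (X := Spec (CommRingCat.of D))
      (Spec.map (CommRingCat.ofHom (algebraMap k D))) := by
  obtain ⟨h1, h2⟩ := good_chain (θ.comp P.subtype) hF hp hpk H s l hbot htop hgen hnorm hpow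
    hnot hl hdiv hfix hlead hG hne r le_rfl
  have h3 : iv (θ.comp P.subtype) (H r) = ivP θ P := by
    ext b
    rw [mem_ivP, htop]
    constructor
    · intro hb g hg
      exact hb ⟨g, hg⟩ trivial
    · intro hb g _
      exact hb g g.2
  rw [h3] at h2
  have h1' : Good k (isFilt_restr hF (ivP θ P)) := h3 ▸ h1
  exact concl_ivP θ P hab hQ hF h1' h2 hst D hD

end main

end Pool.Agent.H208Q
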