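import Pool.Agent.H208Q.A2
import Pool.Agent.H208Q.C

/-!
Independence of point derivations on chains of constants; the derivations of the extended Rees
algebra.
-/

set_option autoImplicit false
set_option linter.unusedSectionVars false

open Finset Pool.Agent.H920R2 Pool.Agent.H519R3.RS

universe u v

namespace Pool.Agent.H208Q

section indep

variable {R : Type u} [CommRing R] {κ : Type v} [Field κ] (ev : R →+* κ) (δ : ℕ → R →+ R)
  (hL : ∀ j a b, δ j (a * b) = a * δ j b + b * δ j a)
  {p : ℕ} (hp : p.Prime) [CharP κ p] (r : ℕ) (S : ℕ → Subring R)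
  (hS : ∀ j < r, ∀ f ∈ S j, δ j f ∈ S j)
  (hT : ∀ j < r, ∀ t ∈ S j, ∀ f ∈ S j, (δ j t) ^ p * ((δ j t) ^ p * (δ j)^[p - 1] f -
    (δ j t) ^ (p - 1) * (δ j)^[p] t * f) ∈ S (j + 1))
  (h0 : S 0 = ⊤)

/-- A point derivation kills the `p`-th powers. -/
lemma pder_pow {Ri : Type u} [CommRing Ri] (evi : Ri →+* κ) (E : Ri →+ κ)
    (hE : ∀ a b, E (a * b) = evi a * E b + evi b * E a) (x : Ri) : E (x ^ p) = 0 := by
  have h1 : ∀ n : ℕ, E (x ^ (n + 1)) = (n + 1 : κ) * (evi x ^ n * E x) := by
    intro n
    induction n with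
    | zero => simp
    | succ n ih =>
      rw [pow_succ' x (n + 1), hE, ih, map_pow]
      push_cast
      ring
  have hp1 : 0 < p ∨ p = 0 := by omega
  rcases hp1 with h | h
  · obtain ⟨m, rfl⟩ : ∃ m, p = m + 1 := ⟨p - 1, by omega⟩
    rw [h1]
    have h2 : ((m + 1 : ℕ) : κ) = 0 := CharP.cast_eq_zero κ (m + 1)
    push_cast at h2
    rw [h2, zero_mul]
  · subst h
    rw [pow_zero]
    have h3 := hE 1 1
    rw [mul_one (1 : Ri), map_one evi, one_mul] at h3
    simpa using h3

include hL hp hS hT h0 in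
/-- The point derivations given by the later members of the chain stay linearly independent. -/
theorem indep' (hdet : ∃ c : Fin r → R, (Matrix.of fun i j : Fin r => ev (δ i (c j))).det ≠ 0) :
    ∀ i ≤ r, ∀ a : ℕ → κ, (∀ f ∈ S i, ∑ j ∈ Ico i r, a j * ev (δ j f) = 0) →
      ∀ j ∈ Ico i r, a j = 0 := by
  intro i
  induction i with
  | zero =>
    intro _ a ha j hj
    obtain ⟨c, hc⟩ := hdet
    have h1 : Matrix.vecMul (fun i : Fin r => a i)
        (Matrix.of fun i j : Fin r => ev (δ i (c j))) = 0 := by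
      ext m
      have h2 := ha (c m) (by rw [h0]; trivial)
      rw [Nat.Ico_zero_eq_range, Finset.sum_range] at h2
      exact h2
    have h3 := Matrix.eq_zero_of_vecMul_eq_zero hc h1
    have hj' : j < r := (mem_Ico.1 hj).2
    exact congrFun h3 ⟨j, hj'⟩
  | succ i ih =>
    intro hir a ha j hj
    have hir' : i < r := hir
    have ih' := ih hir'.le
    have ht : ∃ t ∈ S i, ev (δ i t) ≠ 0 := by
      by_contra hcon
      push Not at hcon
      have h1 := ih' (fun j => if j = i then 1 else 0) (by
        intro f hf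
        rw [Finset.sum_eq_single i]
        · simp [hcon f hf]
        · intro b _ hb
          simp [hb]
        · intro h
          exact absurd (mem_Ico.2 ⟨le_rfl, hir'⟩) h) i (mem_Ico.2 ⟨le_rfl, hir'⟩)
      simp at h1
    obtain ⟨t, htS, ht⟩ := ht
    let Ri := S i
    let evi : Ri →+* κ := ev.comp (Subring.subtype _)
    let Di : Ri →+ Ri :=
      { toFun := fun f => ⟨δ i f, hS i hir' f f.2⟩
        map_zero' := Subtype.ext (map_zero (δ i))
        map_add' := fun a b => Subtype.ext (map_add (δ i) _ _) }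
    let Ei : Ri →+ κ :=
      { toFun := fun f => ∑ j ∈ Ico (i + 1) r, a j * ev (δ j f)
        map_zero' := by simp
        map_add' := fun a b => by
          simp only [Subring.coe_add, map_add, mul_add, Finset.sum_add_distrib] }
    have hiter : ∀ (n : ℕ) (f : Ri), ((Di^[n] f : Ri) : R) = (δ i)^[n] (f : R) := by
      intro n
      induction n with
      | zero => intro f; rfl
      | succ n ih =>
        intro f
        rw [Function.iterate_succ_apply, Function.iterate_succ_apply, ih]
        rfl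
    have hEL : ∀ (j : ℕ) (x y : R), ev (δ j (x * y)) = ev x * ev (δ j y) + ev y * ev (δ j x) := by
      intro j x y
      rw [hL, map_add ev, map_mul ev x, map_mul ev y]
    have hEi : ∀ x y : Ri, Ei (x * y) = evi x * Ei y + evi y * Ei x := by
      intro x y
      change ∑ j ∈ Ico (i + 1) r, a j * ev (δ j ((x : R) * y)) =
        ev x * (∑ j ∈ Ico (i + 1) r, a j * ev (δ j y)) +
        ev y * (∑ j ∈ Ico (i + 1) r, a j * ev (δ j x))
      rw [Finset.mul_sum, Finset.mul_sum, ← Finset.sum_add_distrib]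
      refine Finset.sum_congr rfl fun j _ => ?_
      rw [hEL]
      ring
    let t' : Ri := ⟨t, htS⟩
    have hc : evi (Di t' ^ p) ≠ 0 := by
      rw [map_pow]
      exact pow_ne_zero _ ht
    -- the relation
    have hrel : ∀ f : Ri, Ei (Di^[p - 1] f) =
        ((evi (Di t' ^ p))⁻¹ * evi (Di t' ^ (p - 1) * Di^[p] t')) * Ei f +
        ((evi (Di t' ^ p))⁻¹ * Ei (Di t' ^ (p - 1) * Di^[p] t')) * evi f := by
      intro f
      have h1 : Ei (Di t' ^ p * (Di t' ^ p * Di^[p - 1] f - Di t' ^ (p - 1) * Di^[p] t' * f)) =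
          0 := by
        change ∑ j ∈ Ico (i + 1) r, a j * ev (δ j ((Di t' ^ p * (Di t' ^ p * Di^[p - 1] f -
          Di t' ^ (p - 1) * Di^[p] t' * f) : Ri) : R)) = 0
        apply ha
        have h2 := hT i hir' t htS f f.2
        have h3 : ((Di t' ^ p * (Di t' ^ p * Di^[p - 1] f -
          Di t' ^ (p - 1) * Di^[p] t' * f) : Ri) : R) = (δ i t) ^ p * ((δ i t) ^ p *
            (δ i)^[p - 1] f - (δ i t) ^ (p - 1) * (δ i)^[p] t * f) := by
          have e1 := hiter (p - 1) f
          have e2 := hiter p t'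
          change (δ i t) ^ p * ((δ i t) ^ p * ((Di^[p - 1] f : Ri) : R) -
            (δ i t) ^ (p - 1) * ((Di^[p] t' : Ri) : R) * f) = _
          rw [e1, e2]
        rw [h3]
        exact h2
      have hpp := pder_pow (p := p) evi Ei hEi (Di t')
      rw [hEi, hpp, mul_zero, add_zero, map_sub, hEi, hpp, mul_zero, add_zero,
        hEi (Di t' ^ (p - 1) * Di^[p] t') f] at h1
      have h2 := (mul_eq_zero.1 h1).resolve_left hc
      field_simp
      linear_combination h2
    have key := symbol' (R := Ri) (⊥ : Ideal Ri) Di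
      (fun x y => by
        rw [Ideal.mem_bot, sub_eq_zero]
        exact Subtype.ext (hL i x y))
      (fun x hx => by
        rw [Ideal.mem_bot] at hx ⊢
        rw [hx, map_zero]) evi
      (fun x hx => by rw [Ideal.mem_bot] at hx; rw [hx, map_zero]) Ei hEi
      (fun x hx => by rw [Ideal.mem_bot] at hx; rw [hx, map_zero]) hp _ _ hrel t'
    have key' : ∀ u ∈ S i, ev (δ i t) * (∑ j ∈ Ico (i + 1) r, a j * ev (δ j u)) =
        ev (δ i u) * (∑ j ∈ Ico (i + 1) r, a j * ev (δ j t)) := by
      intro u hu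
      exact key ⟨u, hu⟩ ht
    have h1 := ih' (fun j => if j = i then -(∑ j ∈ Ico (i + 1) r, a j * ev (δ j t)) else
      ev (δ i t) * a j) (by
        intro f hf
        rw [Finset.sum_eq_sum_Ico_succ_bot hir']
        rw [if_pos rfl]
        have h2 : ∑ k ∈ Ico (i + 1) r, (if k = i then -(∑ j ∈ Ico (i + 1) r, a j * ev (δ j t))
            else ev (δ i t) * a k) * ev (δ k f) =
            ev (δ i t) * (∑ j ∈ Ico (i + 1) r, a j * ev (δ j f)) := by
          rw [Finset.mul_sum]
          refine Finset.sum_congr rfl fun k hk => ?_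
          rw [if_neg (by have := (mem_Ico.1 hk).1; omega)]
          ring
        rw [h2, key' f hf]
        ring) j (mem_Ico.2 ⟨by have := (mem_Ico.1 hj).1; omega, (mem_Ico.1 hj).2⟩)
    rw [if_neg (by have := (mem_Ico.1 hj).1; omega)] at h1
    exact (mul_eq_zero.1 h1).resolve_left ht

include hL hp hS hT h0 in
theorem exists_nonzero'
    (hdet : ∃ c : Fin r → R, (Matrix.of fun i j : Fin r => ev (δ i (c j))).det ≠ 0)
    (i : ℕ) (hi : i < r) : ∃ t ∈ S i, ev (δ i t) ≠ 0 := by
  by_contra hcon
  push Not at hcon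
  have h1 := indep' ev δ hL hp r S hS hT h0 hdet i hi.le
    (fun j => if j = i then 1 else 0) (by
      intro f hf
      rw [Finset.sum_eq_single i]
      · simp [hcon f hf]
      · intro b _ hb
        simp [hb]
      · intro h
        exact absurd (mem_Ico.2 ⟨le_rfl, hi⟩) h) i (mem_Ico.2 ⟨le_rfl, hi⟩)
  simp at h1

end indep

end Pool.Agent.H208Q
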