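import Pool.Agent.H208Q.I
import Pool.Agent.H208Q.F

/-!
The derivations of the extended Rees algebra given by derivations of the ring.
-/

set_option autoImplicit false
set_option linter.unusedSectionVars false

open AlgebraicGeometry CategoryTheory Pool.Agent.H920R2 Pool.Agent.H519R3.RS

universe u v

namespace Pool.Agent.H208Q

section md

variable {k B : Type u} [Field k] [CommRing B] [Algebra k B]

/-- The linear map given by a derivation of the coefficients. -/
noncomputable def mL (D : Derivation k B B) : AddMonoidAlgebra B ℤ →ₗ[k] AddMonoidAlgebra B ℤ :=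
  (AddMonoidAlgebra.coeffLinearEquiv (M := ℤ) (S := B) k).symm.toLinearMap ∘ₗ
    (Finsupp.mapRange.linearMap (D : B →ₗ[k] B)) ∘ₗ
      (AddMonoidAlgebra.coeffLinearEquiv (M := ℤ) (S := B) k).toLinearMap

variable (D : Derivation k B B)

lemma mL_coeff (f : AddMonoidAlgebra B ℤ) (d : ℤ) : (mL D f).coeff d = D (f.coeff d) := rfl

lemma mL_single (d : ℤ) (a : B) :
    mL D (AddMonoidAlgebra.single d a) = AddMonoidAlgebra.single d (D a) := by
  classical
  apply AddMonoidAlgebra.coeff_injective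
  ext e
  rw [mL_coeff, AddMonoidAlgebra.coeff_single, AddMonoidAlgebra.coeff_single,
    Finsupp.single_apply, Finsupp.single_apply]
  split_ifs
  · rfl
  · exact map_zero D

lemma coeff_single_mul' (d e : ℤ) (a : B) (y : AddMonoidAlgebra B ℤ) :
    (AddMonoidAlgebra.single d a * y).coeff e = a * y.coeff (e - d) :=
  AddMonoidAlgebra.coeff_single_mul_eq_mul_coeff _ (by intro m' _; omega)

lemma mL_leib (x y : AddMonoidAlgebra B ℤ) : mL D (x * y) = x * mL D y + y * mL D x := by
  classical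
  have key : ∀ (d : ℤ) (a : B) (y : AddMonoidAlgebra B ℤ),
      mL D (AddMonoidAlgebra.single d a * y) = AddMonoidAlgebra.single d a * mL D y +
        y * mL D (AddMonoidAlgebra.single d a) := by
    intro d a y
    apply AddMonoidAlgebra.coeff_injective
    ext e
    rw [mL_coeff, coeff_single_mul', mL_single, mul_comm y,
      AddMonoidAlgebra.coeff_add, Finsupp.add_apply, coeff_single_mul', coeff_single_mul',
      mL_coeff, Derivation.leibniz, smul_eq_mul, smul_eq_mul]
    ring
  have h1 : ∀ s : Finset ℤ, mL D ((∑ d ∈ s, AddMonoidAlgebra.single d (x.coeff d)) * y) =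
      (∑ d ∈ s, AddMonoidAlgebra.single d (x.coeff d)) * mL D y +
        y * mL D (∑ d ∈ s, AddMonoidAlgebra.single d (x.coeff d)) := by
    intro s
    induction s using Finset.induction_on with
    | empty => simp
    | insert d s hd ih =>
      rw [Finset.sum_insert hd, add_mul, map_add, ih, key, map_add]
      ring
  have h2 := h1 x.coeff.support
  have h3 : ∑ d ∈ x.coeff.support, AddMonoidAlgebra.single d (x.coeff d) = x :=
    AddMonoidAlgebra.sum_coeff_single x
  rwa [h3] at h2

lemma mL_iter_single (n : ℕ) (d : ℤ) (a : B) :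
    (mL D)^[n] (AddMonoidAlgebra.single d a) = AddMonoidAlgebra.single d (D^[n] a) := by
  induction n with
  | zero => rfl
  | succ n ih => rw [Function.iterate_succ_apply', ih, mL_single, Function.iterate_succ_apply']

lemma mL_iter_coeff (n : ℕ) (f : AddMonoidAlgebra B ℤ) (d : ℤ) :
    ((mL D)^[n] f).coeff d = D^[n] (f.coeff d) := by
  induction n with
  | zero => rfl
  | succ n ih => rw [Function.iterate_succ_apply', mL_coeff, ih, Function.iterate_succ_apply']

lemma mL_pow (n : ℕ) (f : AddMonoidAlgebra B ℤ) :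
    mL D (f ^ (n + 1)) = (n + 1 : AddMonoidAlgebra B ℤ) * (f ^ n * mL D f) := by
  induction n with
  | zero => simp
  | succ n ih =>
    rw [pow_succ' f (n + 1), mL_leib, ih]
    push_cast
    ring

lemma mL_pow_p {p : ℕ} (hp : p.Prime) (hpk : (p : k) = 0) (f : AddMonoidAlgebra B ℤ) :
    mL D (f ^ p) = 0 := by
  obtain ⟨m, rfl⟩ : ∃ m, p = m + 1 := ⟨p - 1, by have := hp.pos; omega⟩
  have h1 : ((m + 1 : ℕ) : AddMonoidAlgebra B ℤ) = 0 := by
    rw [← map_natCast (algebraMap k (AddMonoidAlgebra B ℤ)), hpk, map_zero]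
  rw [mL_pow]
  push_cast at h1
  rw [h1, zero_mul]

/-- The relation of a `p`-closed derivation extends to the Laurent polynomials. -/
lemma mL_closed {p : ℕ} {f t : AddMonoidAlgebra B ℤ}
    (h : ∀ d e, D^[p] (f.coeff d) * D (t.coeff e) = D^[p] (t.coeff e) * D (f.coeff d)) :
    (mL D)^[p] f * mL D t = (mL D)^[p] t * mL D f := by
  classical
  have hadd : ∀ (n : ℕ) (s : Finset ℤ) (u : ℤ → AddMonoidAlgebra B ℤ),
      (mL D)^[n] (∑ i ∈ s, u i) = ∑ i ∈ s, (mL D)^[n] (u i) := by
    intro n s u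
    induction n with
    | zero => rfl
    | succ n ih =>
      rw [Function.iterate_succ_apply', ih, map_sum]
      exact Finset.sum_congr rfl fun i _ => (Function.iterate_succ_apply' _ _ _).symm
  have hf : f = ∑ d ∈ f.coeff.support, AddMonoidAlgebra.single d (f.coeff d) :=
    (AddMonoidAlgebra.sum_coeff_single f).symm
  have ht : t = ∑ e ∈ t.coeff.support, AddMonoidAlgebra.single e (t.coeff e) :=
    (AddMonoidAlgebra.sum_coeff_single t).symm
  have h1 : (mL D)^[p] f = ∑ d ∈ f.coeff.support,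
      AddMonoidAlgebra.single d (D^[p] (f.coeff d)) := by
    conv_lhs => rw [hf]
    rw [hadd]
    exact Finset.sum_congr rfl fun d _ => mL_iter_single D p d _
  have h2 : mL D t = ∑ e ∈ t.coeff.support, AddMonoidAlgebra.single e (D (t.coeff e)) := by
    conv_lhs => rw [ht]
    rw [map_sum]
    exact Finset.sum_congr rfl fun d _ => mL_single D d _
  have h3 : (mL D)^[p] t = ∑ e ∈ t.coeff.support,
      AddMonoidAlgebra.single e (D^[p] (t.coeff e)) := by
    conv_lhs => rw [ht]
    rw [hadd]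
    exact Finset.sum_congr rfl fun d _ => mL_iter_single D p d _
  have h4 : mL D f = ∑ d ∈ f.coeff.support, AddMonoidAlgebra.single d (D (f.coeff d)) := by
    conv_lhs => rw [hf]
    rw [map_sum]
    exact Finset.sum_congr rfl fun d _ => mL_single D d _
  rw [h1, h2, h3, h4, Finset.sum_mul_sum, Finset.sum_mul_sum, Finset.sum_comm]
  refine Finset.sum_congr rfl fun e _ => Finset.sum_congr rfl fun d _ => ?_
  rw [AddMonoidAlgebra.single_mul_single, AddMonoidAlgebra.single_mul_single, h, add_comm]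

variable {F : ℕ → Ideal B} (hF : IsFilt F)

lemma mL_mem {l : ℕ} (hdiv : ∀ d, ∀ a ∈ F d, D a ∈ F (d + l))
    {f : AddMonoidAlgebra B ℤ} (hf : f ∈ reesZ k hF) :
    AddMonoidAlgebra.single (l : ℤ) (1 : B) * mL D f ∈ reesZ k hF := by
  intro d
  rw [coeff_single_one_mul, mL_coeff]
  exact hF.anti _ _ (by omega) (hdiv _ _ (hf (d - l)))

/-- The derivation of the extended Rees algebra. -/
noncomputable def derR {l : ℕ} (hdiv : ∀ d, ∀ a ∈ F d, D a ∈ F (d + l)) :
    reesZ k hF →+ reesZ k hF where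
  toFun f := ⟨AddMonoidAlgebra.single (l : ℤ) (1 : B) * mL D f, mL_mem D hF hdiv f.2⟩
  map_zero' := Subtype.ext (by
    change AddMonoidAlgebra.single (l : ℤ) (1 : B) * mL D 0 = 0
    rw [map_zero, mul_zero])
  map_add' := fun a b => Subtype.ext (by
    change AddMonoidAlgebra.single (l : ℤ) (1 : B) * mL D ((a : AddMonoidAlgebra B ℤ) + b) =
      AddMonoidAlgebra.single (l : ℤ) (1 : B) * mL D a +
      AddMonoidAlgebra.single (l : ℤ) (1 : B) * mL D b
    rw [map_add]
    ring)

lemma coe_derR {l : ℕ} (hdiv : ∀ d, ∀ a ∈ F d, D a ∈ F (d + l)) (f : reesZ k hF) :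
    ((derR D hF hdiv f : reesZ k hF) : AddMonoidAlgebra B ℤ) =
      AddMonoidAlgebra.single (l : ℤ) (1 : B) * mL D f := rfl

lemma derR_leib {l : ℕ} (hdiv : ∀ d, ∀ a ∈ F d, D a ∈ F (d + l)) (a b : reesZ k hF) :
    derR D hF hdiv (a * b) = a * derR D hF hdiv b + b * derR D hF hdiv a := by
  apply Subtype.ext
  change AddMonoidAlgebra.single (l : ℤ) (1 : B) * mL D ((a : AddMonoidAlgebra B ℤ) * b) =
    (a : AddMonoidAlgebra B ℤ) * (AddMonoidAlgebra.single (l : ℤ) (1 : B) * mL D b) +
    (b : AddMonoidAlgebra B ℤ) * (AddMonoidAlgebra.single (l : ℤ) (1 : B) * mL D a)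
  rw [mL_leib]
  ring

lemma coe_derR_iter {l : ℕ} (hdiv : ∀ d, ∀ a ∈ F d, D a ∈ F (d + l)) (n : ℕ)
    (f : reesZ k hF) : (((derR D hF hdiv)^[n] f : reesZ k hF) : AddMonoidAlgebra B ℤ) =
      AddMonoidAlgebra.single (l : ℤ) (1 : B) ^ n * (mL D)^[n] (f : AddMonoidAlgebra B ℤ) := by
  have h0 : ∀ n : ℕ, mL D (AddMonoidAlgebra.single (l : ℤ) (1 : B) ^ n) = 0 := by
    intro n
    rw [AddMonoidAlgebra.single_pow, one_pow, mL_single, Derivation.map_one_eq_zero,
      AddMonoidAlgebra.single_zero]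
  induction n with
  | zero => rw [pow_zero, one_mul]; rfl
  | succ n ih =>
    rw [Function.iterate_succ_apply', coe_derR, ih, Function.iterate_succ_apply', mL_leib, h0]
    ring

end md

section jc

variable {k B : Type u} [Field k] [CommRing B] [Algebra k B] {F : ℕ → Ideal B} (hF : IsFilt F)

/-- The map of extended Rees algebras. -/
noncomputable def jC (C : Subalgebra k B) :
    reesZ k (isFilt_restr hF C) →ₐ[k] reesZ k hF :=
  ((AddMonoidAlgebra.mapAlgHom ℤ C.val).comp
    (reesZ k (isFilt_restr hF C)).val).codRestrict _ (by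
      rintro ⟨f, hf⟩ d
      change (AddMonoidAlgebra.mapAlgHom ℤ C.val f).coeff d ∈ _
      rw [AddMonoidAlgebra.coeff_mapAlgHom]
      exact hf d)

lemma coeff_jC (C : Subalgebra k B) (f : reesZ k (isFilt_restr hF C)) (d : ℤ) :
    ((jC hF C f : reesZ k hF) : AddMonoidAlgebra B ℤ).coeff d =
      ((f : AddMonoidAlgebra C ℤ).coeff d : B) := by
  change (AddMonoidAlgebra.mapAlgHom ℤ C.val
    (f : AddMonoidAlgebra C ℤ)).coeff d = _
  rw [AddMonoidAlgebra.coeff_mapAlgHom]
  rfl

lemma exists_jC (C : Subalgebra k B) (f : reesZ k hF)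
    (hc : ∀ d, (f : AddMonoidAlgebra B ℤ).coeff d ∈ C) : ∃ f', jC hF C f' = f := by
  classical
  let f0 : AddMonoidAlgebra C ℤ :=
    ∑ d ∈ (f : AddMonoidAlgebra B ℤ).coeff.support, AddMonoidAlgebra.single d ⟨_, hc d⟩
  have h0 : ∀ e, ((f0.coeff e : C) : B) = (f : AddMonoidAlgebra B ℤ).coeff e := by
    intro e
    simp only [f0]
    rw [AddMonoidAlgebra.coeff_sum, Finsupp.finsetSum_apply]
    simp only [AddMonoidAlgebra.coeff_single, Finsupp.single_apply]
    rw [Finset.sum_ite_eq']
    split_ifs with h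
    · rfl
    · rw [Finsupp.notMem_support_iff] at h
      rw [h]
      rfl
  refine ⟨⟨f0, fun d => ?_⟩, ?_⟩
  · rw [mem_restr, h0]
    exact f.2 d
  · apply Subtype.ext
    apply AddMonoidAlgebra.coeff_injective
    ext d
    rw [coeff_jC]
    exact h0 d

/-- Lying over. -/
theorem lying_over' (C : Subalgebra k B) {p : ℕ} (hp : p.Prime)
    (hC : ∀ f : reesZ k hF, ∀ d, ((f ^ p : reesZ k hF) : AddMonoidAlgebra B ℤ).coeff d ∈ C)
    (Q : Ideal (reesZ k (isFilt_restr hF C))) (hQ : Q.IsPrime) :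
    ∃ Q' : Ideal (reesZ k hF), Q'.IsPrime ∧ ∀ f, jC hF C f ∈ Q' ↔ f ∈ Q := by
  let _ : Algebra (reesZ k (isFilt_restr hF C)) (reesZ k hF) :=
    (jC hF C).toRingHom.toAlgebra
  have hint : Algebra.IsIntegral (reesZ k (isFilt_restr hF C)) (reesZ k hF) := by
    constructor
    intro f
    obtain ⟨f', hf'⟩ := exists_jC hF C (f ^ p) (hC f)
    refine ⟨Polynomial.X ^ p - Polynomial.C f', Polynomial.monic_X_pow_sub_C _ hp.ne_zero, ?_⟩
    rw [Polynomial.eval₂_sub, Polynomial.eval₂_pow, Polynomial.eval₂_X, Polynomial.eval₂_C]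
    change f ^ p - jC hF C f' = 0
    rw [hf', sub_self]
  have hinj : Function.Injective (algebraMap (reesZ k (isFilt_restr hF C))
      (reesZ k hF)) := by
    intro a b hab
    apply Subtype.ext
    apply AddMonoidAlgebra.coeff_injective
    ext d
    have h1 := congrArg (fun f : reesZ k hF => (f : AddMonoidAlgebra B ℤ).coeff d) hab
    change ((jC hF C a : reesZ k hF) : AddMonoidAlgebra B ℤ).coeff d =
      ((jC hF C b : reesZ k hF) : AddMonoidAlgebra B ℤ).coeff d at h1
    rw [coeff_jC, coeff_jC] at h1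
    exact h1
  obtain ⟨Q', -, hQ', h⟩ := Ideal.exists_ideal_over_prime_of_isIntegral (S := reesZ k hF)
    Q ⊥ (by
      rw [← RingHom.ker_eq_comap_bot, (RingHom.injective_iff_ker_eq_bot _).1 hinj]
      exact bot_le)
  refine ⟨Q', hQ', fun f => ?_⟩
  rw [← h]
  rfl

end jc

end Pool.Agent.H208Q
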