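import Pool.Agent.H208Q.J
import Pool.Agent.H519R3.RS.Centre
import Pool.Agent.Y177.Dg.Grp
import Pool.Agent.Y177.Dg.TorG

/-!
Chains of derivations whose leading forms are linearly independent outside the vertex.
-/

set_option autoImplicit false
set_option linter.unusedSectionVars false

open AlgebraicGeometry CategoryTheory Pool.Agent.H920R2 Pool.Agent.H519R3.RS

universe u v

namespace Pool.Agent.H208Q

section dgood

variable {k C C' : Type u} [Field k] [CommRing C] [IsDomain C] [Algebra k C] [CommRing C']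
  [Algebra k C']

/-- **The step for derivations**, with the radical condition on the extended Rees algebra. -/
theorem good_ker' {p : ℕ} (hp : p.Prime) (hpk : (p : k) = 0) (D : Derivation k C C)
    (φ : FractionRing C) (hφ : ∀ b, algebraMap C (FractionRing C) (D^[p] b) =
      φ * algebraMap C (FractionRing C) (D b))
    {F : ℕ → Ideal C} (hF : IsFilt F) (hG : Good k hF) {l : ℕ}
    (hdiv : ∀ d, ∀ a ∈ F d, D a ∈ F (d + l))
    (hrad0 : RadZ (k := k) hF (fun c => D c) l)
    (j : C' →ₐ[k] C) (hj : Function.Injective j) (hjr : ∀ c, D c = 0 ↔ ∃ c', j c' = c)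
    {F' : ℕ → Ideal C'} (hF' : IsFilt F') (hFF' : ∀ d c', c' ∈ F' d ↔ j c' ∈ F d) :
    Good k hF' := by
  classical
  let L := FractionRing C
  let g : C →ₐ[k] L := IsScalarTower.toAlgHom k C L
  have hinj : Function.Injective g := IsFractionRing.injective C L
  obtain ⟨E', hE'⟩ := exists_der_frac D
  have hτ : ∀ b, E' (g b) = g (D b) := hE'
  have hGE := (good_iff g hF hinj).1 hG
  let R := rG g hF
  have hDgen : ∀ (d : ℤ) (b : C), tlD E' l (hm d (g b)) = hm (d + l) (g (D b)) := by
    intro d b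
    rw [tlD_hm, hτ]
  have hDF : ∀ (d : ℤ) (b : C), b ∈ F d.toNat → D b ∈ F (d + l).toNat := by
    intro d b hb
    exact hF.anti _ _ (by omega) (hdiv _ b hb)
  have hD : ∀ f ∈ R, tlD E' l f ∈ R := by
    intro f hf
    have h1 : tlD E' l f = ∑ d ∈ f.coeff.support, tlD E' l (hm d (f.coeff d)) := by
      rw [← map_sum, ← eq_sum_hm f]
    rw [h1]
    refine Subalgebra.sum_mem _ fun d _ => ?_
    obtain ⟨b, hb, hb'⟩ := hf d
    rw [← hb', hDgen]
    exact hm_mem_rG g hF (hDF d b hb)
  have hclosed := tlD_closed E' l hp.one_lt.le φ (frac_closed hp hpk D φ hφ E' hE')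
  have hpL : ((p : ℕ) : LP L) = 0 := by
    rw [← map_natCast (algebraMap k (LP L)), hpk, map_zero]
  have hDp : ∀ f : LP L, tlD E' l (f ^ p) = 0 := by
    intro f
    rw [Derivation.leibniz_pow, nsmul_eq_mul, hpL, zero_mul]
  let F0 := kerAlg (tlD E' l)
  have hfam : Fam R F0 := by
    intro Q hQ hQS d a hda hd
    by_contra hnQ
    have ha0 : a ≠ 0 := by
      intro h
      apply hnQ
      have e1 : (⟨hm d a, hda⟩ : R) = 0 := by
        apply Subtype.ext
        change hm (d : ℤ) a = 0
        rw [h, hm_zero]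
      rw [e1]
      exact Q.zero_mem
    apply hnQ
    refine RadZ.rad hinj (δ := fun c => D c) hdiv hrad0 Q hQ ?_ d a hda hd
    intro d' c hc hcR
    have hb : hm d' (g c) ∈ R := hm_mem_rG g hF hc
    by_cases hb0 : g (D c) = 0
    · have e1 : (⟨hm (d' + l) (g (D c)), hcR⟩ : R) = 0 := by
        apply Subtype.ext
        change hm (d' + l) (g (D c)) = 0
        rw [hb0, hm_zero]
      rw [e1]
      exact Q.zero_mem
    · let m : ℕ := (d' + l).natAbs + 1
      have hpos : 0 < (m * d + (d' + l) : ℤ) := by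
        have h1 : -(((d' + l).natAbs : ℤ)) ≤ d' + l := by omega
        have h2 : (m : ℤ) = (d' + l).natAbs + 1 := by
          change ((((d' + l).natAbs + 1 : ℕ)) : ℤ) = _
          push_cast; ring
        have h3 : (1 : ℤ) ≤ d := by exact_mod_cast hd
        nlinarith
      obtain ⟨e1, he1⟩ := Int.eq_ofNat_of_zero_le hpos.le
      have he1' : 0 < e1 := by
        have : (0 : ℤ) < e1 := by rw [← he1]; exact hpos
        exact_mod_cast this
      have hx : (hm d a ^ m * tlD E' l (hm d' (g c))) ^ p =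
          hm ((p * e1 : ℕ) : ℤ) ((a ^ m * g (D c)) ^ p) := by
        rw [hDgen, hm_pow, hm_mul, hm_pow]
        congr 1
        push_cast
        rw [← he1]
      have hxR : (hm d a ^ m * tlD E' l (hm d' (g c))) ^ p ∈ R :=
        R.pow_mem (R.mul_mem (R.pow_mem hda m) (hD _ hb)) p
      have hxR' : hm ((p * e1 : ℕ) : ℤ) ((a ^ m * g (D c)) ^ p) ∈ R := by rw [← hx]; exact hxR
      have hη : (a ^ m * g (D c)) ^ p ≠ 0 := pow_ne_zero _ (mul_ne_zero (pow_ne_zero _ ha0) hb0)
      have hmem : (⟨hm ((p * e1 : ℕ) : ℤ) ((a ^ m * g (D c)) ^ p), hxR'⟩ : R) ∈ Q := by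
        refine hQS _ _ hxR' (Nat.mul_pos hp.pos he1') hη ?_ ?_
        · change _ ∈ kerAlg (tlD E' l)
          rw [mem_kerAlg, ← hx]
          exact hDp _
        · exact smooth_good_fol hp hpk E' l _ hclosed R hD _ _ hxR' hη
            (hGE.sm _ _ hxR' (Nat.mul_pos hp.pos he1') hη) _ _ (R.pow_mem hda m) hb hx.symm
      have h4 : ((⟨hm d a, hda⟩ : R) ^ m * ⟨hm (d' + l) (g (D c)), hcR⟩) ^ p ∈ Q := by
        have e2 : ((⟨hm d a, hda⟩ : R) ^ m * ⟨hm (d' + l) (g (D c)), hcR⟩) ^ p =
            ⟨hm ((p * e1 : ℕ) : ℤ) ((a ^ m * g (D c)) ^ p), hxR'⟩ := by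
          apply Subtype.ext
          have e3 : (hm (d : ℤ) a ^ m * hm (d' + l) (g (D c))) ^ p =
              hm ((p * e1 : ℕ) : ℤ) ((a ^ m * g (D c)) ^ p) := by rw [← hDgen]; exact hx
          exact e3
        rw [e2]; exact hmem
      have h5 := hQ.mem_of_pow_mem _ h4
      rcases hQ.mem_or_mem h5 with h6 | h6
      · exact absurd (hQ.mem_of_pow_mem _ h6) hnQ
      · exact h6
  have hint : ∀ f ∈ R, IsIntegral ↥(R ⊓ F0) f := by
    intro f hf
    have hfp : f ^ p ∈ R ⊓ F0 := ⟨R.pow_mem hf p, by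
      change _ ∈ kerAlg (tlD E' l)
      rw [mem_kerAlg]
      exact hDp f⟩
    refine ⟨Polynomial.X ^ p - Polynomial.C ⟨f ^ p, hfp⟩,
      Polynomial.monic_X_pow_sub_C _ hp.ne_zero, ?_⟩
    rw [Polynomial.eval₂_sub, Polynomial.eval₂_pow, Polynomial.eval₂_X, Polynomial.eval₂_C]
    exact sub_self _
  have hinj' : Function.Injective (g.comp j) := hinj.comp hj
  have heq : rG (g.comp j) hF' = rG g hF ⊓ F0 := by
    apply le_antisymm
    · intro f hf
      have h1 : f ∈ rG g hF := by
        intro d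
        obtain ⟨b, hb, hb'⟩ := hf d
        exact ⟨j b, (hFF' _ _).1 hb, hb'⟩
      refine ⟨h1, ?_⟩
      have h2 : f = ∑ d ∈ f.coeff.support, hm d (f.coeff d) := eq_sum_hm f
      rw [h2]
      refine Subalgebra.sum_mem _ fun d _ => ?_
      obtain ⟨b, hb, hb'⟩ := hf d
      change _ ∈ kerAlg (tlD E' l)
      rw [mem_ker_hm, ← hb']
      change E' (g (j b)) = 0
      rw [hτ, (hjr (j b)).2 ⟨b, rfl⟩, map_zero]
    · rintro f ⟨hf, hf0⟩ d
      obtain ⟨b, hb, hb'⟩ := hf d
      have h1 := gr_kerAlg E' l f hf0 d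
      rw [mem_ker_hm, ← hb', hτ, map_eq_zero_iff g hinj, hjr] at h1
      obtain ⟨c', hc'⟩ := h1
      refine ⟨c', (hFF' _ _).2 (by rw [hc']; exact hb), ?_⟩
      change g (j c') = _
      rw [hc', hb']
  exact (good_iff (g.comp j) hF' hinj').2 (goodE_inf g hF hGE (g.comp j) hF' F0 heq hfam hint
    fun d a h => kerAlg_inv E' h)

end dgood



section detc

variable {k B : Type u} [Field k] [CommRing B] [Algebra k B] {F : ℕ → Ideal B} (hF : IsFilt F)

/-- Powers lying in the ideal of determinants. -/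
lemma det_case' {r : ℕ} (δB : Fin r → B → B) (l : Fin r → ℕ)
    (δR : Fin r → reesZ k hF → reesZ k hF)
    (hδ : ∀ (i : Fin r) (e : ℕ) (c : B) (hc : c ∈ F e),
      ((δR i ⟨AddMonoidAlgebra.single (e : ℤ) c, single_mem_reesZ hF hc⟩ : reesZ k hF) :
        AddMonoidAlgebra B ℤ) = AddMonoidAlgebra.single (l i : ℤ) 1 *
          AddMonoidAlgebra.single (e : ℤ) (δB i c))
    (Q : Ideal (reesZ k hF)) (hQ : Q.IsPrime) (hT : sT hF ∈ Q)
    (hdet : ∀ c : Fin r → reesZ k hF, (Matrix.of fun i j => δR i (c j)).det ∈ Q)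
    (d N : ℕ) (a : B) (ha : a ∈ F d) (haN : a ^ N ∈ detI δB F l (N * d)) :
    (⟨AddMonoidAlgebra.single (d : ℤ) a, single_mem_reesZ hF ha⟩ : reesZ k hF) ∈ Q := by
  classical
  set m := N * d with hm
  let J : Ideal B :=
    { carrier := {z | ∃ h : AddMonoidAlgebra.single (m : ℤ) z ∈ reesZ k hF,
        (⟨AddMonoidAlgebra.single (m : ℤ) z, h⟩ : reesZ k hF) ∈ Q}
      zero_mem' := by
        refine ⟨by rw [AddMonoidAlgebra.single_zero]; exact (reesZ k hF).zero_mem, ?_⟩
        have h1 : (⟨AddMonoidAlgebra.single (m : ℤ) (0 : B), by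
            rw [AddMonoidAlgebra.single_zero]; exact (reesZ k hF).zero_mem⟩ : reesZ k hF) = 0 :=
          Subtype.ext (AddMonoidAlgebra.single_zero _)
        rw [h1]
        exact Q.zero_mem
      add_mem' := by
        rintro x y ⟨hx, hx'⟩ ⟨hy, hy'⟩
        refine ⟨by rw [AddMonoidAlgebra.single_add]; exact (reesZ k hF).add_mem hx hy, ?_⟩
        have h1 : (⟨AddMonoidAlgebra.single (m : ℤ) (x + y), by
            rw [AddMonoidAlgebra.single_add]; exact (reesZ k hF).add_mem hx hy⟩ : reesZ k hF) =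
            ⟨_, hx⟩ + ⟨_, hy⟩ := Subtype.ext (AddMonoidAlgebra.single_add _ _ _)
        rw [h1]
        exact Q.add_mem hx' hy'
      smul_mem' := by
        rintro c x ⟨hx, hx'⟩
        have h0 : AddMonoidAlgebra.single (0 : ℤ) c ∈ reesZ k hF := single_mem hF 0 c (by
          change c ∈ F 0
          rw [hF.zero]
          trivial)
        have h2 : AddMonoidAlgebra.single (m : ℤ) (c * x) =
            AddMonoidAlgebra.single (0 : ℤ) c * AddMonoidAlgebra.single (m : ℤ) x := by
          rw [AddMonoidAlgebra.single_mul_single, zero_add]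
        refine ⟨by rw [smul_eq_mul, h2]; exact (reesZ k hF).mul_mem h0 hx, ?_⟩
        have h1 : (⟨AddMonoidAlgebra.single (m : ℤ) (c • x), by
            rw [smul_eq_mul, h2]; exact (reesZ k hF).mul_mem h0 hx⟩ : reesZ k hF) =
            ⟨_, h0⟩ * ⟨_, hx⟩ := Subtype.ext h2
        rw [h1]
        exact Q.mul_mem_left _ hx' }
  have hle : detI δB F l m ≤ J := by
    rw [detI, sup_le_iff]
    constructor
    · intro z hz
      have h1 : AddMonoidAlgebra.single (((m + 1 : ℕ) : ℤ)) z ∈ reesZ k hF :=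
        single_mem_reesZ hF hz
      have h2 : AddMonoidAlgebra.single (m : ℤ) z = AddMonoidAlgebra.single (-1) 1 *
          AddMonoidAlgebra.single (((m + 1 : ℕ) : ℤ)) z := by
        rw [AddMonoidAlgebra.single_mul_single, one_mul]
        congr 1
        push_cast
        ring
      refine ⟨by rw [h2]; exact (reesZ k hF).mul_mem (sT hF).2 h1, ?_⟩
      have h3 : (⟨AddMonoidAlgebra.single (m : ℤ) z, by
          rw [h2]; exact (reesZ k hF).mul_mem (sT hF).2 h1⟩ : reesZ k hF) = sT hF * ⟨_, h1⟩ :=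
        Subtype.ext h2
      rw [h3]
      exact Q.mul_mem_right _ hT
    · rw [Ideal.span_le]
      rintro y ⟨e, c, hc, b, hb, rfl⟩
      let c' : Fin r → reesZ k hF := fun j =>
        ⟨AddMonoidAlgebra.single (e j : ℤ) (c j), single_mem_reesZ hF (hc j)⟩
      have h1 := hdet c'
      have h4 : AddMonoidAlgebra.single ((m : ℤ) - ∑ j, ((e j : ℤ) + l j)) b ∈ reesZ k hF := by
        refine single_mem hF _ b ?_
        have e1 : ((m : ℤ) - ∑ j, ((e j : ℤ) + l j)).toNat = m - ∑ j, (e j + l j) := by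
          have e2 : ∑ j, ((e j : ℤ) + l j) = ((∑ j, (e j + l j) : ℕ) : ℤ) := by push_cast; rfl
          rw [e2]
          omega
        rw [e1]
        exact hb
      have hentry : ∀ i j, ((δR i (c' j) : reesZ k hF) : AddMonoidAlgebra B ℤ) =
          AddMonoidAlgebra.single (l i : ℤ) 1 * (AddMonoidAlgebra.single (e j : ℤ) 1 *
            AddMonoidAlgebra.single (0 : ℤ) (δB i (c j))) := by
        intro i j
        rw [hδ i (e j) (c j) (hc j),
          AddMonoidAlgebra.single_mul_single (m₁ := (e j : ℤ)), one_mul, add_zero]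
      have hdet2 : (((Matrix.of fun i j => δR i (c' j)).det : reesZ k hF) :
          AddMonoidAlgebra B ℤ) = (∏ i, AddMonoidAlgebra.single (l i : ℤ) 1) *
            ((∏ j, AddMonoidAlgebra.single (e j : ℤ) 1) * AddMonoidAlgebra.single (0 : ℤ)
              (Matrix.of fun i j => δB i (c j)).det) := by
        have e1 : (((Matrix.of fun i j => δR i (c' j)).det : reesZ k hF) :
            AddMonoidAlgebra B ℤ) = (Matrix.of fun i j => AddMonoidAlgebra.single (l i : ℤ) 1 *
              (Matrix.of fun i j => AddMonoidAlgebra.single (e j : ℤ) 1 *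
            (Matrix.of fun i j => AddMonoidAlgebra.single (0 : ℤ)
              (δB i (c j))) i j) i j).det := by
          have e2 := RingHom.map_det (reesZ k hF).val.toRingHom
            (Matrix.of fun i j => δR i (c' j))
          refine e2.trans ?_
          congr 1
          ext1 i j
          exact hentry i j
        rw [e1, Matrix.det_mul_column, Matrix.det_mul_row]
        congr 2
        have e3 := RingHom.map_det (AddMonoidAlgebra.singleZeroRingHom (R := B) (M := ℤ))
          (Matrix.of fun i j => δB i (c j))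
        exact e3.symm
      have hprod : ∀ (n : ℕ) (v : Fin n → ℕ), (∏ i, AddMonoidAlgebra.single (v i : ℤ) (1 : B)) =
          AddMonoidAlgebra.single (∑ i, (v i : ℤ)) 1 := by
        intro n v
        induction n with
        | zero => simp
        | succ n ih =>
          rw [Fin.prod_univ_succ, Fin.sum_univ_succ, ih (fun i => v i.succ),
            AddMonoidAlgebra.single_mul_single, one_mul]
      have h2 : AddMonoidAlgebra.single (m : ℤ)
          (b * (Matrix.of fun i j => δB i (c j)).det) =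
          AddMonoidAlgebra.single ((m : ℤ) - ∑ j, ((e j : ℤ) + l j)) b *
          (((Matrix.of fun i j => δR i (c' j)).det : reesZ k hF) :
          AddMonoidAlgebra B ℤ) := by
        rw [hdet2, hprod, hprod, AddMonoidAlgebra.single_mul_single,
          AddMonoidAlgebra.single_mul_single, AddMonoidAlgebra.single_mul_single, one_mul,
          one_mul, Finset.sum_add_distrib]
        congr 1
        ring
      refine ⟨by rw [h2]; exact (reesZ k hF).mul_mem h4 (Subtype.prop _), ?_⟩
      have h3 : (⟨AddMonoidAlgebra.single (m : ℤ)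
          (b * (Matrix.of fun i j => δB i (c j)).det), by
            rw [h2]; exact (reesZ k hF).mul_mem h4 (Subtype.prop _)⟩ : reesZ k hF) =
          ⟨_, h4⟩ * (Matrix.of fun i j => δR i (c' j)).det := Subtype.ext h2
      rw [h3]
      exact Q.mul_mem_left _ h1
  obtain ⟨h1, h2⟩ := hle haN
  have h3 : (⟨AddMonoidAlgebra.single (d : ℤ) a, single_mem_reesZ hF ha⟩ : reesZ k hF) ^ N =
      ⟨_, h1⟩ := by
    apply Subtype.ext
    change AddMonoidAlgebra.single (d : ℤ) a ^ N = AddMonoidAlgebra.single (m : ℤ) (a ^ N)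
    rw [AddMonoidAlgebra.single_pow, hm]
    congr 1
  rw [← h3] at h2
  exact hQ.mem_of_pow_mem _ h2

end detc

end Pool.Agent.H208Q
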