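import Pool.Agent.H208Q.K

/-!
Chains of derivations whose leading forms are linearly independent outside the vertex.
-/

set_option autoImplicit false
set_option linter.unusedSectionVars false

open AlgebraicGeometry CategoryTheory Pool.Agent.H920R2 Pool.Agent.H519R3.RS

universe u v

namespace Pool.Agent.H208Q

section cst

variable {k B : Type u} [Field k] [CommRing B] [Algebra k B] (D : ℕ → Derivation k B B)

/-- The common constants of the first `i` derivations. -/
def cst (i : ℕ) : Subalgebra k B where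
  carrier := {b | ∀ j < i, D j b = 0}
  mul_mem' := fun {a b} ha hb j hj => by
    rw [Derivation.leibniz, ha j hj, hb j hj, smul_zero, smul_zero, add_zero]
  add_mem' := fun {a b} ha hb j hj => by rw [map_add, ha j hj, hb j hj, add_zero]
  algebraMap_mem' := fun c j _ => (D j).map_algebraMap c

lemma mem_cst {i : ℕ} {b : B} : b ∈ cst D i ↔ ∀ j < i, D j b = 0 := Iff.rfl

lemma mem_cst_succ {i : ℕ} {b : B} : b ∈ cst D (i + 1) ↔ b ∈ cst D i ∧ D i b = 0 := by
  constructor
  · intro h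
    exact ⟨fun j hj => h j (by omega), h i (by omega)⟩
  · rintro ⟨h1, h2⟩ j hj
    rcases Nat.lt_succ_iff_lt_or_eq.1 hj with h | h
    · exact h1 j h
    · subst h
      exact h2

/-- The derivation of the constants. -/
def derC {i : ℕ} (h : ∀ b ∈ cst D i, D i b ∈ cst D i) : Derivation k (cst D i) (cst D i) where
  toLinearMap :=
    { toFun := fun b => ⟨D i b, h b b.2⟩
      map_add' := fun a b => Subtype.ext (map_add (D i) _ _)
      map_smul' := fun c b => Subtype.ext ((D i).map_smul c (b : B)) }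
  map_one_eq_zero' := Subtype.ext (D i).map_one_eq_zero
  leibniz' := fun a b => Subtype.ext ((D i).leibniz (a : B) (b : B))

lemma coe_derC {i : ℕ} (h : ∀ b ∈ cst D i, D i b ∈ cst D i) (b : cst D i) :
    (derC D h b : B) = D i b := rfl

lemma coe_derC_iter {i : ℕ} (h : ∀ b ∈ cst D i, D i b ∈ cst D i) (n : ℕ) (b : cst D i) :
    (((derC D h)^[n] b : cst D i) : B) = (D i)^[n] b := by
  induction n with
  | zero => rfl
  | succ n ih => rw [Function.iterate_succ_apply', coe_derC, ih, Function.iterate_succ_apply']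

variable {F : ℕ → Ideal B} (hF : IsFilt F)

/-- The elements killed by the first derivations. -/
def SD (i : ℕ) : Subring (reesZ k hF) where
  carrier := {f | ∀ j < i, mL (D j) (f : AddMonoidAlgebra B ℤ) = 0}
  mul_mem' := fun {a b} ha hb j hj => by
    change mL (D j) ((a : AddMonoidAlgebra B ℤ) * b) = 0
    rw [mL_leib, ha j hj, hb j hj, mul_zero, mul_zero, add_zero]
  one_mem' := fun j _ => by
    change mL (D j) (AddMonoidAlgebra.single 0 1) = 0
    rw [mL_single, Derivation.map_one_eq_zero, AddMonoidAlgebra.single_zero]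
  add_mem' := fun {a b} ha hb j hj => by
    change mL (D j) ((a : AddMonoidAlgebra B ℤ) + b) = 0
    rw [map_add, ha j hj, hb j hj, add_zero]
  zero_mem' := fun j _ => map_zero _
  neg_mem' := fun {a} ha j hj => by
    change mL (D j) (-(a : AddMonoidAlgebra B ℤ)) = 0
    rw [map_neg, ha j hj, neg_zero]

lemma mem_SD_iff {i : ℕ} {f : reesZ k hF} :
    f ∈ SD D hF i ↔ ∀ e, (f : AddMonoidAlgebra B ℤ).coeff e ∈ cst D i := by
  constructor
  · intro h e j hj
    have h1 := congrArg (fun x : AddMonoidAlgebra B ℤ => x.coeff e) (h j hj)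
    exact h1
  · intro h j hj
    apply AddMonoidAlgebra.coeff_injective
    ext e
    rw [mL_coeff]
    exact h e j hj

lemma derR_SD {i l : ℕ} (hdiv : ∀ d, ∀ a ∈ F d, D i a ∈ F (d + l))
    (hst : ∀ b ∈ cst D i, D i b ∈ cst D i) {f : reesZ k hF} (hf : f ∈ SD D hF i) :
    derR (D i) hF hdiv f ∈ SD D hF i := by
  rw [mem_SD_iff] at hf ⊢
  intro e
  rw [coe_derR, coeff_single_one_mul, mL_coeff]
  exact hst _ (hf _)

lemma derR_SD_iter {i l : ℕ} (hdiv : ∀ d, ∀ a ∈ F d, D i a ∈ F (d + l))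
    (hst : ∀ b ∈ cst D i, D i b ∈ cst D i) (n : ℕ) {f : reesZ k hF} (hf : f ∈ SD D hF i) :
    (derR (D i) hF hdiv)^[n] f ∈ SD D hF i := by
  induction n with
  | zero => exact hf
  | succ n ih =>
    rw [Function.iterate_succ_apply']
    exact derR_SD D hF hdiv hst ih

/-- The operator into the constants. -/
lemma derR_last {p : ℕ} (hp : p.Prime) (hpk : (p : k) = 0) {i l : ℕ}
    (hdiv : ∀ d, ∀ a ∈ F d, D i a ∈ F (d + l)) (hst : ∀ b ∈ cst D i, D i b ∈ cst D i)
    (hcl : ∀ b ∈ cst D i, ∀ c ∈ cst D i, (D i)^[p] b * D i c = (D i)^[p] c * D i b)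
    {t f : reesZ k hF} (ht : t ∈ SD D hF i) (hf : f ∈ SD D hF i) :
    (derR (D i) hF hdiv t) ^ p * ((derR (D i) hF hdiv t) ^ p *
      (derR (D i) hF hdiv)^[p - 1] f - (derR (D i) hF hdiv t) ^ (p - 1) *
      (derR (D i) hF hdiv)^[p] t * f) ∈ SD D hF (i + 1) := by
  set δ := derR (D i) hF hdiv with hδ
  have hL : ∀ a b, δ (a * b) = a * δ b + b * δ a := derR_leib (D i) hF hdiv
  -- `p`-closedness
  have hcl' : ∀ x ∈ SD D hF i, ∀ y ∈ SD D hF i, δ^[p] x * δ y = δ^[p] y * δ x := by
    intro x hx y hy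
    apply Subtype.ext
    change ((δ^[p] x : reesZ k hF) : AddMonoidAlgebra B ℤ) * ((δ y : reesZ k hF) :
      AddMonoidAlgebra B ℤ) = ((δ^[p] y : reesZ k hF) : AddMonoidAlgebra B ℤ) *
      ((δ x : reesZ k hF) : AddMonoidAlgebra B ℤ)
    rw [hδ, coe_derR_iter, coe_derR_iter, coe_derR, coe_derR]
    have h1 := mL_closed (D i) (p := p) (f := (x : AddMonoidAlgebra B ℤ))
      (t := (y : AddMonoidAlgebra B ℤ))
      (fun d e => hcl _ ((mem_SD_iff D hF).1 hx d) _ ((mem_SD_iff D hF).1 hy e))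
    linear_combination (AddMonoidAlgebra.single (l : ℤ) (1 : B) ^ p *
      AddMonoidAlgebra.single (l : ℤ) (1 : B)) * h1
  have hδp : ∀ x, δ (x ^ p) = 0 := by
    intro x
    apply Subtype.ext
    rw [hδ, coe_derR]
    change AddMonoidAlgebra.single (l : ℤ) (1 : B) * mL (D i) ((x : AddMonoidAlgebra B ℤ) ^ p) = 0
    rw [mL_pow_p (D i) hp hpk, mul_zero]
  have hpow : ∀ (n : ℕ) (x : reesZ k hF), δ (x ^ (n + 1)) = (n + 1 : reesZ k hF) *
      (x ^ n * δ x) := by
    intro n x
    induction n with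
    | zero => simp
    | succ n ih =>
      rw [pow_succ' x (n + 1), hL, ih]
      push_cast
      ring
  have hp0 : ((p : ℕ) : reesZ k hF) = 0 := by
    rw [← map_natCast (algebraMap k (reesZ k hF)), hpk, map_zero]
  have htm : δ t ∈ SD D hF i := derR_SD D hF hdiv hst ht
  have hmem : (δ t) ^ p * ((δ t) ^ p * δ^[p - 1] f - (δ t) ^ (p - 1) * δ^[p] t * f) ∈
      SD D hF i := by
    refine (SD D hF i).mul_mem ((SD D hF i).pow_mem htm _) ((SD D hF i).sub_mem
      ((SD D hF i).mul_mem ((SD D hF i).pow_mem htm _) (derR_SD_iter D hF hdiv hst _ hf))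
      ((SD D hF i).mul_mem ((SD D hF i).mul_mem ((SD D hF i).pow_mem htm _)
        (derR_SD_iter D hF hdiv hst _ ht)) hf))
  -- the last derivation
  have hz : δ ((δ t) ^ p * ((δ t) ^ p * δ^[p - 1] f - (δ t) ^ (p - 1) * δ^[p] t * f)) = 0 := by
    obtain ⟨q, hq⟩ : ∃ q, p = q + 2 := ⟨p - 2, by have := hp.two_le; omega⟩
    have e1 : δ (δ^[p - 1] f) = δ^[p] f := by
      have h1 : p = (p - 1) + 1 := by omega
      conv_rhs => rw [h1, Function.iterate_succ_apply']
    have e2 : δ (δ^[p] t) = δ^[p] (δ t) := by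
      rw [← Function.iterate_succ_apply' δ, Function.iterate_succ_apply]
    have h1 := hcl' f hf t ht
    have h2 := hcl' (δ t) htm t ht
    have e3 : δ ((δ t) ^ (p - 1)) = (q + 1 : reesZ k hF) * ((δ t) ^ q * δ (δ t)) := by
      have h3 : p - 1 = q + 1 := by omega
      rw [h3, hpow]
    have e4 : (q + 2 : reesZ k hF) = 0 := by
      rw [hq] at hp0
      push_cast at hp0
      exact hp0
    have e5 : (δ t) ^ p = (δ t) ^ (q + 1) * δ t := by rw [hq, pow_succ]
    have e6 : (δ t) ^ (p - 1) = (δ t) ^ q * δ t := by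
      have h3 : p - 1 = q + 1 := by omega
      rw [h3, pow_succ]
    rw [hL, hδp, mul_zero, add_zero, map_sub, hL, hδp, mul_zero, add_zero, e1,
      hL _ f, hL _ (δ^[p] t), e2, e3, e5, e6]
    -- now everything is divisible
    linear_combination ((δ t) ^ (q + 1) * (δ t) ^ (q + 1) * δ t) * h1 -
      ((δ t) ^ (q + 1) * (δ t) ^ q * δ t * f) * h2 -
      ((δ t) ^ (q + 1) * (δ t) ^ q * δ t * δ (δ t) * δ^[p] t * f) * e4
  rw [mem_SD_iff] at hmem ⊢
  intro e
  rw [mem_cst_succ]
  refine ⟨hmem e, ?_⟩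
  set x := (δ t) ^ p * ((δ t) ^ p * δ^[p - 1] f - (δ t) ^ (p - 1) * δ^[p] t * f) with hx
  have h3 := congrArg (fun y : reesZ k hF => (y : AddMonoidAlgebra B ℤ).coeff (e + l)) hz
  change ((derR (D i) hF hdiv x : reesZ k hF) : AddMonoidAlgebra B ℤ).coeff (e + l) = 0 at h3
  rw [coe_derR, coeff_single_one_mul, mL_coeff, add_sub_cancel_right] at h3
  exact h3

end cst

end Pool.Agent.H208Q
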