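import Pool.Agent.H208Q.G
import Pool.Agent.H519R3.RS.Glob

/-!
Charts: projective models of the function field of the quotient by a finite `p`-group.
-/

set_option autoImplicit false
set_option linter.unusedSectionVars false

open AlgebraicGeometry CategoryTheory Pool.Agent.H920R2 Pool.Agent.H519R3.RS

namespace Pool.Agent.H208Q

section charts

/-- Smooth projective models of the field of fractions of a good family of subalgebras. -/
theorem model_of_charts' {k L 𝒜 : Type} [Field k] [Field L] [Algebra k L]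
    [Finite 𝒜] {B : 𝒜 → Subalgebra k L} {h : 𝒜 → L}
    {F : ∀ a, ℕ → Ideal (B a)} (hX : Charts B h F) (hF : ∀ a, IsFilt (F a))
    (M : IntermediateField k L)
    (hM : ∀ a, h a ∈ M) (C : ∀ a, Subalgebra k (B a))
    (hgood : ∀ a, Good k (isFilt_restr (hF a) (C a)) ∧ restr (F a) (C a) 1 ≠ ⊥)
    (hden : ∀ a (z : B a), z ≠ 0 → ∃ w : B a, z * w ∈ C a ∧ w ≠ 0)
    (hCn : ∀ a (x : B a), x ∈ C a ↔ (x : L) ∈ M) :
    ∃ (W : 𝒜 → Set L), (∀ a, ∀ x ∈ M, ∃ y ∈ W a, ∃ y' ∈ W a, y' ≠ 0 ∧ x = y / y') ∧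
      ∃ (I : Type) (_ : Finite I) (z : I → L) (J : Set I), ModelG k W M.toSubfield z J := by
  classical
  let g : ∀ a, C a →ₐ[k] L := fun a => (B a).val.comp (C a).val
  have hg : ∀ a (x : C a), g a x = ((x : B a) : L) := fun a x => rfl
  have hinj : ∀ a, Function.Injective (g a) := fun a =>
    Subtype.val_injective.comp Subtype.val_injective
  have hgM : ∀ a x, g a x ∈ M := fun a x => (hCn a x.1).1 x.2
  have hGE := fun a => (good_iff (g a) (isFilt_restr (hF a) (C a)) (hinj a)).1 (hgood a).1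
  choose T hT e η he hcov using fun a =>
    cover_goodM (g a) (isFilt_restr (hF a) (C a)) M (hgM a) (hinj a) (hGE a) (hgood a).2
  have hmemC : ∀ a (x : L), x ∈ B a → x ∈ M → ∃ y : C a, g a y = x := fun a x h1 h2 =>
    ⟨⟨⟨x, h1⟩, (hCn a ⟨x, h1⟩).2 h2⟩, rfl⟩
  have hratio : ∀ a b, hm 0 (h b / h a) ∈ rG (g a) (isFilt_restr (hF a) (C a)) := by
    intro a b
    obtain ⟨y, hy⟩ := hmemC a _ (hX.mem a b) (M.div_mem (hM b) (hM a))
    rw [← hy]
    exact b_rG _ _ y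
  have hgl : ∀ a b, ∀ f ∈ rG (g b) (isFilt_restr (hF b) (C b)), ∃ N : ℕ,
      hm 0 (h b / h a) ^ N * f ∈ rG (g a) (isFilt_restr (hF a) (C a)) := by
    intro a b f hf
    obtain ⟨r, hr⟩ := hmemC a _ (hX.mem a b) (M.div_mem (hM b) (hM a))
    have h1 : ∀ d : ℤ, ∃ (N : ℕ) (y : C a), y ∈ restr (F a) (C a) d.toNat ∧
        g a y = (h b / h a) ^ N * f.coeff d := by
      intro d
      obtain ⟨c, hc, hc'⟩ := hf d
      obtain ⟨N, y, hy, hy'⟩ := hX.glue a b d.toNat c.1 hc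
      have hcM : ((c : B b) : L) ∈ M := hgM b c
      have hyM : (y : L) ∈ M := by
        rw [hy']
        exact M.mul_mem (pow_mem (M.div_mem (hM b) (hM a)) N) hcM
      refine ⟨N, ⟨y, (hCn a y).2 hyM⟩, hy, ?_⟩
      change (y : L) = _
      rw [hy', ← hc']
      rfl
    choose N y hy hy' using h1
    obtain ⟨N0, hN0⟩ : ∃ N0, ∀ d ∈ f.coeff.support, N d ≤ N0 :=
      ⟨f.coeff.support.sup N, fun d hd => Finset.le_sup hd⟩
    refine ⟨N0, ?_⟩
    have h2 : hm 0 (h b / h a) ^ N0 * f = ∑ d ∈ f.coeff.support,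
        hm d (g a (r ^ (N0 - N d) * y d)) := by
      conv_lhs => rw [eq_sum_hm f]
      rw [Finset.mul_sum]
      refine Finset.sum_congr rfl ?_
      intro d hd
      have h3 := hN0 d hd
      rw [hm_pow, hm_mul, map_mul, map_pow, hy', hr, ← mul_assoc, ← pow_add,
        Nat.sub_add_cancel h3, mul_zero, zero_add]
    rw [h2]
    refine Subalgebra.sum_mem _ fun d _ => ?_
    exact hm_mem_rG _ _ (Ideal.mul_mem_left _ _ (hy d))
  have hcv : ∀ V : ValuationSubring L, (∀ c : k, algebraMap k L c ∈ V) →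
      ∃ a, ∀ b, g a b ∈ V := by
    intro V hV
    obtain ⟨a, ha⟩ := hX.proper V hV
    exact ⟨a, fun b => ha _ b.1.2⟩
  obtain ⟨ρ, H, hA⟩ := atlasG_of_covers (𝒜 := 𝒜) hcov M.toSubfield
    (fun d x hx => hm_mem_lpM.1 hx) h hX.ne (fun a => hm_mem_lpM.2 (hM a)) hratio hgl hcv
  obtain ⟨I, hI, z, J, hmod⟩ := model_of_atlasG ρ hA
  refine ⟨_, ?_, I, hI, z, J, hmod⟩
  intro a x hx
  obtain ⟨y, hy, z, hz, hz0, hxyz⟩ := hX.frac a x
  obtain ⟨w, hw, hw0⟩ := hden a (⟨z, hz⟩ : B a) (fun h => hz0 (congrArg Subtype.val h))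
  have hzwM : z * (w : L) ∈ M := (hCn a _).1 hw
  have hzw0 : z * (w : L) ≠ 0 := mul_ne_zero hz0 fun h => hw0 (Subtype.ext h)
  have hywM : y * (w : L) ∈ M := by
    have h1 : y * (w : L) = x * (z * w) := by
      rw [hxyz]
      field_simp
    rw [h1]
    exact M.mul_mem hx hzwM
  obtain ⟨y1, hy1⟩ := hmemC a (y * w) ((B a).mul_mem hy w.2) hywM
  obtain ⟨z1, hz1⟩ := hmemC a (z * w) ((B a).mul_mem hz w.2) hzwM
  refine ⟨_, ⟨y1, rfl⟩, _, ⟨z1, rfl⟩, ?_, ?_⟩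
  · rw [hz1]; exact hzw0
  · rw [hy1, hz1, hxyz]
    have hw1 : (w : L) ≠ 0 := fun h => hzw0 (by rw [h, mul_zero])
    field_simp


/-- Models of the function field of the quotient by a `p`-group. -/
theorem model_pgroup {p : ℕ} (hp : p.Prime) {k L 𝒜 : Type} [Field k] [Field L] [Algebra k L]
    [Finite 𝒜] (hpk : (p : k) = 0) {B : 𝒜 → Subalgebra k L} {h : 𝒜 → L}
    {F : ∀ a, ℕ → Ideal (B a)} (hX : Charts B h F) (hF : ∀ a, IsFilt (F a))
    (hne : ∀ a, F a 1 ≠ ⊥) (hG : ∀ a, Good k (hF a))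
    {G : Type} [Group G] [Finite G] (Θ : G →* (L ≃ₐ[k] L)) (θ : ∀ a, G →* (B a ≃ₐ[k] B a))
    (hθ : ∀ a g x, ((θ a g x : B a) : L) = Θ g x) (hh : ∀ a g, Θ g (h a) = h a)
    (M : IntermediateField k L) (hM : ∀ x, x ∈ M ↔ ∀ g, Θ g x = x)
    {r : ℕ} (H : ℕ → Subgroup G) (s : ℕ → G) (l : 𝒜 → ℕ → ℕ) (hbot : H 0 = ⊥)
    (htop : H r = ⊤) (hgen : ∀ i < r, H (i + 1) = H i ⊔ Subgroup.zpowers (s i))
    (hnorm : ∀ i < r, ∀ g, g ∈ H i ↔ s i * g * (s i)⁻¹ ∈ H i)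
    (hpow : ∀ i < r, s i ^ p ∈ H i) (hnot : ∀ i < r, s i ∉ H i)
    (hl : ∀ a, ∀ i < r, 0 < l a i)
    (hdiv : ∀ a, ∀ i < r, ∀ d, ∀ x ∈ F a d, θ a (s i) x - x ∈ F a (d + l a i))
    (hfix : ∀ a, ∀ g : G, g ≠ 1 → ∀ P : Ideal (B a), P.IsPrime →
      (∀ x, θ a g x - x ∈ P) → F a 1 ≤ P)
    (hlead : ∀ a d, 1 ≤ d → ∀ x ∈ F a d, ∃ N : ℕ,
      x ^ N ∈ detI (fun (i : Fin r) b => θ a (s i) b - b) (F a) (fun i => l a i) (N * d)) :
    ∃ (W : 𝒜 → Set L), (∀ a, ∀ x ∈ M, ∃ y ∈ W a, ∃ y' ∈ W a, y' ≠ 0 ∧ x = y / y') ∧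
      ∃ (I : Type) (_ : Finite I) (z : I → L) (J : Set I), ModelG k W M.toSubfield z J := by
  classical
  have hC : ∀ a (x : B a), x ∈ iv (θ a) (H r) ↔ (x : L) ∈ M := by
    intro a x
    rw [hM, mem_iv, htop]
    constructor
    · intro h1 g
      rw [← hθ, h1 g trivial]
    · intro h1 g _
      exact Subtype.ext ((hθ a g x).trans (h1 g))
  refine model_of_charts' hX hF M (fun a => (hM _).2 (hh a)) (fun a => iv (θ a) (H r))
    (fun a => good_chain (θ a) (hF a) hp hpk H s (l a) hbot htop hgen hnorm hpow hnot (hl a)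
      (hdiv a) (hfix a) (hlead a) (hG a) (hne a) r le_rfl) ?_ hC
  intro a z hz
  have _ : Fintype G := Fintype.ofFinite G
  refine ⟨∏ g ∈ Finset.univ.erase (1 : G), θ a g z, ?_, ?_⟩
  · have h1 : z * ∏ g ∈ Finset.univ.erase (1 : G), θ a g z = ∏ g : G, θ a g z := by
      rw [← Finset.mul_prod_erase Finset.univ (fun g => θ a g z) (Finset.mem_univ (1 : G)),
        theta_one]
    rw [h1]
    intro g _
    rw [map_prod]
    refine Fintype.prod_equiv (Equiv.mulLeft g) _ _ fun x => ?_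
    rw [← theta_mul]
    rfl
  · rw [Finset.prod_ne_zero_iff]
    intro g _ h1
    exact hz ((map_eq_zero_iff (θ a g) (θ a g).injective).1 h1)

end charts

end Pool.Agent.H208Q
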