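import Pool.Agent.H208Q.I

/-!
Independence of point derivations on mixed chains.
-/

set_option autoImplicit false
set_option linter.unusedSectionVars false

open Finset Pool.Agent.H920R2 Pool.Agent.H519R3.RS

universe u v

namespace Pool.Agent.H208Q

section indep

variable {R : Type u} [CommRing R] (I : Ideal R) {κ : Type v} [Field κ] (ev : R →+* κ)
  (hev : ∀ a ∈ I, ev a = 0) (δ : ℕ → R →+ R)
  (hL : ∀ j a b, δ j (a * b) - (a * δ j b + b * δ j a) ∈ I) (hI : ∀ j, ∀ a ∈ I, δ j a ∈ I)
  {p : ℕ} (hp : p.Prime) [CharP κ p] (r : ℕ) (S : ℕ → Subring R)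
  (hS : ∀ j < r, ∀ f ∈ S j, δ j f ∈ S j)
  (hT : ∀ j < r, (∀ f ∈ S j, (δ j)^[p - 1] f ∈ S (j + 1)) ∨
    (∀ t ∈ S j, ∀ f ∈ S j, (δ j t) ^ p * ((δ j t) ^ p * (δ j)^[p - 1] f -
      (δ j t) ^ (p - 1) * (δ j)^[p] t * f) ∈ S (j + 1)))
  (h0 : S 0 = ⊤)

include hev hL hI hp hS hT h0 in
/-- The point derivations given by the later members of the chain stay linearly independent. -/
theorem indepM (hdet : ∃ c : Fin r → R, (Matrix.of fun i j : Fin r => ev (δ i (c j))).det ≠ 0) :
    ∀ i ≤ r, ∀ a : ℕ → κ, (∀ f ∈ S i, ∑ j ∈ Ico i r, a j * ev (δ j f) = 0) →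
      ∀ j ∈ Ico i r, a j = 0 := by
  intro i
  induction i with
  | zero =>
    intro _ a ha j hj
    obtain ⟨c, hc⟩ := hdet
    have h1 : Matrix.vecMul (fun i : Fin r => a i)
        (Matrix.of fun i j : Fin r => ev (δ i (c j))) = 0 := by
      ext m
      have h2 := ha (c m) (by rw [h0]; trivial)
      rw [Nat.Ico_zero_eq_range, Finset.sum_range] at h2
      exact h2
    have h3 := Matrix.eq_zero_of_vecMul_eq_zero hc h1
    have hj' : j < r := (mem_Ico.1 hj).2
    exact congrFun h3 ⟨j, hj'⟩
  | succ i ih =>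
    intro hir a ha j hj
    have hir' : i < r := hir
    have ih' := ih hir'.le
    have ht : ∃ t ∈ S i, ev (δ i t) ≠ 0 := by
      by_contra hcon
      push Not at hcon
      have h1 := ih' (fun j => if j = i then 1 else 0) (by
        intro f hf
        rw [Finset.sum_eq_single i]
        · simp [hcon f hf]
        · intro b _ hb
          simp [hb]
        · intro h
          exact absurd (mem_Ico.2 ⟨le_rfl, hir'⟩) h) i (mem_Ico.2 ⟨le_rfl, hir'⟩)
      simp at h1
    obtain ⟨t, htS, ht⟩ := ht
    let Ri := S i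
    let evi : Ri →+* κ := ev.comp (Subring.subtype _)
    let Di : Ri →+ Ri :=
      { toFun := fun f => ⟨δ i f, hS i hir' f f.2⟩
        map_zero' := Subtype.ext (map_zero (δ i))
        map_add' := fun a b => Subtype.ext (map_add (δ i) _ _) }
    let Ei : Ri →+ κ :=
      { toFun := fun f => ∑ j ∈ Ico (i + 1) r, a j * ev (δ j f)
        map_zero' := by simp
        map_add' := fun a b => by
          simp only [Subring.coe_add, map_add, mul_add, Finset.sum_add_distrib] }
    have hiter : ∀ (n : ℕ) (f : Ri), ((Di^[n] f : Ri) : R) = (δ i)^[n] (f : R) := by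
      intro n
      induction n with
      | zero => intro f; rfl
      | succ n ih =>
        intro f
        rw [Function.iterate_succ_apply, Function.iterate_succ_apply, ih]
        rfl
    have hEL : ∀ (j : ℕ) (x y : R), ev (δ j (x * y)) = ev x * ev (δ j y) + ev y * ev (δ j x) := by
      intro j x y
      have h1 := hev _ (hL j x y)
      rw [map_sub, sub_eq_zero, map_add, map_mul ev x, map_mul ev y] at h1
      exact h1
    have hEi : ∀ x y : Ri, Ei (x * y) = evi x * Ei y + evi y * Ei x := by
      intro x y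
      change ∑ j ∈ Ico (i + 1) r, a j * ev (δ j ((x : R) * y)) =
        ev x * (∑ j ∈ Ico (i + 1) r, a j * ev (δ j y)) +
        ev y * (∑ j ∈ Ico (i + 1) r, a j * ev (δ j x))
      rw [Finset.mul_sum, Finset.mul_sum, ← Finset.sum_add_distrib]
      refine Finset.sum_congr rfl fun j _ => ?_
      rw [hEL]
      ring
    let t' : Ri := ⟨t, htS⟩
    have hc : evi (Di t' ^ p) ≠ 0 := by
      rw [map_pow]
      exact pow_ne_zero _ ht
    -- the relation
    have hrel : ∃ a0 b0 : κ, ∀ f : Ri, Ei (Di^[p - 1] f) = a0 * Ei f + b0 * evi f := by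
      rcases hT i hir' with hT1 | hT2
      · refine ⟨0, 0, fun f => ?_⟩
        rw [zero_mul, zero_mul, add_zero]
        change ∑ j ∈ Ico (i + 1) r, a j * ev (δ j ((Di^[p - 1] f : Ri) : R)) = 0
        rw [hiter]
        exact ha _ (hT1 f f.2)
      · refine ⟨(evi (Di t' ^ p))⁻¹ * evi (Di t' ^ (p - 1) * Di^[p] t'),
          (evi (Di t' ^ p))⁻¹ * Ei (Di t' ^ (p - 1) * Di^[p] t'), fun f => ?_⟩
        have h1 : Ei (Di t' ^ p * (Di t' ^ p * Di^[p - 1] f -
            Di t' ^ (p - 1) * Di^[p] t' * f)) = 0 := by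
          change ∑ j ∈ Ico (i + 1) r, a j * ev (δ j ((Di t' ^ p * (Di t' ^ p * Di^[p - 1] f -
            Di t' ^ (p - 1) * Di^[p] t' * f) : Ri) : R)) = 0
          apply ha
          have h2 := hT2 t htS f f.2
          have h3 : ((Di t' ^ p * (Di t' ^ p * Di^[p - 1] f -
            Di t' ^ (p - 1) * Di^[p] t' * f) : Ri) : R) = (δ i t) ^ p * ((δ i t) ^ p *
              (δ i)^[p - 1] f - (δ i t) ^ (p - 1) * (δ i)^[p] t * f) := by
            have e1 := hiter (p - 1) f
            have e2 := hiter p t'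
            change (δ i t) ^ p * ((δ i t) ^ p * ((Di^[p - 1] f : Ri) : R) -
              (δ i t) ^ (p - 1) * ((Di^[p] t' : Ri) : R) * f) = _
            rw [e1, e2]
          rw [h3]
          exact h2
        have hpp := pder_pow (p := p) evi Ei hEi (Di t')
        rw [hEi, hpp, mul_zero, add_zero, map_sub, hEi, hpp, mul_zero, add_zero,
          hEi (Di t' ^ (p - 1) * Di^[p] t') f] at h1
        have h2 := (mul_eq_zero.1 h1).resolve_left hc
        field_simp
        linear_combination h2
    obtain ⟨a0, b0, hrel⟩ := hrel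
    have key := symbol' (R := Ri) (I.comap (Subring.subtype _)) Di
      (fun x y => hL i x y) (fun x hx => hI i _ hx) evi (fun x hx => hev _ hx) Ei hEi
      (by
        intro x hx
        change ∑ j ∈ Ico (i + 1) r, a j * ev (δ j (x : R)) = 0
        refine Finset.sum_eq_zero fun j _ => ?_
        have h1 : ev (δ j (x : R)) = 0 := hev _ (hI j _ hx)
        rw [h1, mul_zero]) hp a0 b0 hrel t'
    have key' : ∀ u ∈ S i, ev (δ i t) * (∑ j ∈ Ico (i + 1) r, a j * ev (δ j u)) =
        ev (δ i u) * (∑ j ∈ Ico (i + 1) r, a j * ev (δ j t)) := by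
      intro u hu
      exact key ⟨u, hu⟩ ht
    have h1 := ih' (fun j => if j = i then -(∑ j ∈ Ico (i + 1) r, a j * ev (δ j t)) else
      ev (δ i t) * a j) (by
        intro f hf
        rw [Finset.sum_eq_sum_Ico_succ_bot hir']
        rw [if_pos rfl]
        have h2 : ∑ k ∈ Ico (i + 1) r, (if k = i then -(∑ j ∈ Ico (i + 1) r, a j * ev (δ j t))
            else ev (δ i t) * a k) * ev (δ k f) =
            ev (δ i t) * (∑ j ∈ Ico (i + 1) r, a j * ev (δ j f)) := by
          rw [Finset.mul_sum]
          refine Finset.sum_congr rfl fun k hk => ?_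
          rw [if_neg (by have := (mem_Ico.1 hk).1; omega)]
          ring
        rw [h2, key' f hf]
        ring) j (mem_Ico.2 ⟨by have := (mem_Ico.1 hj).1; omega, (mem_Ico.1 hj).2⟩)
    rw [if_neg (by have := (mem_Ico.1 hj).1; omega)] at h1
    exact (mul_eq_zero.1 h1).resolve_left ht

include hev hL hI hp hS hT h0 in
theorem exists_nonzeroM
    (hdet : ∃ c : Fin r → R, (Matrix.of fun i j : Fin r => ev (δ i (c j))).det ≠ 0)
    (i : ℕ) (hi : i < r) : ∃ t ∈ S i, ev (δ i t) ≠ 0 := by
  by_contra hcon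
  push Not at hcon
  have h1 := indepM I ev hev δ hL hI hp r S hS hT h0 hdet i hi.le
    (fun j => if j = i then 1 else 0) (by
      intro f hf
      rw [Finset.sum_eq_single i]
      · simp [hcon f hf]
      · intro b _ hb
        simp [hb]
      · intro h
        exact absurd (mem_Ico.2 ⟨le_rfl, hi⟩) h) i (mem_Ico.2 ⟨le_rfl, hi⟩)
  simp at h1

end indep

/-- Integrality over the constants of a self-map of order `p`. -/
lemma isIntegral_cyc {A : Type u} [CommRing A] (τ : A →+* A) {p : ℕ} (hp : 0 < p)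
    (hτ : ∀ a, τ^[p] a = a) (S : Subring A) (hS : ∀ a, τ a = a → a ∈ S) (x : A) :
    IsIntegral S x := by
  obtain ⟨n, rfl⟩ : ∃ n, p = n + 1 := ⟨p - 1, by omega⟩
  let q : Polynomial A := ∏ m ∈ range (n + 1), (Polynomial.X - Polynomial.C (τ^[m] x))
  have hq : q.Monic := Polynomial.monic_prod_of_monic _ _ fun m _ => Polynomial.monic_X_sub_C _
  have hmap : q.map τ = q := by
    have h1 : q.map τ = ∏ m ∈ range (n + 1),
        (Polynomial.X - Polynomial.C (τ^[m + 1] x)) := by
      simp only [q]
      rw [Polynomial.map_prod]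
      refine Finset.prod_congr rfl fun m _ => ?_
      rw [Polynomial.map_sub, Polynomial.map_X, Polynomial.map_C,
        Function.iterate_succ_apply']
    rw [h1, Finset.prod_range_succ, hτ]
    simp only [q]
    rw [Finset.prod_range_succ']
    rfl
  have hc : ∀ m, q.coeff m ∈ S := by
    intro m
    apply hS
    conv_rhs => rw [← hmap]
    rw [Polynomial.coeff_map]
  have hsub : (↑q.coeffs : Set A) ⊆ S := by
    intro y hy
    obtain ⟨m, -, rfl⟩ := Polynomial.mem_coeffs_iff.1 hy
    exact hc m
  refine ⟨q.toSubring S hsub, (Polynomial.monic_toSubring _ _ _).2 hq, ?_⟩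
  have h2 : Polynomial.eval₂ (algebraMap S A) x (q.toSubring S hsub) =
      ((q.toSubring S hsub).map (algebraMap S A)).eval x := by
    rw [Polynomial.eval_map]
  rw [h2]
  have h3 : (q.toSubring S hsub).map (algebraMap S A) = q := by
    ext m
    rw [Polynomial.coeff_map]
    exact Polynomial.coeff_toSubring _ _ _
  rw [h3]
  simp only [q]
  rw [Polynomial.eval_prod]
  refine Finset.prod_eq_zero (i := 0) (mem_range.2 (by omega)) ?_
  simp

/-- Integrality along a chain of subrings. -/
lemma isIntegral_chain {A : Type u} [CommRing A] (S : ℕ → Subring A) (r : ℕ) (h0 : S 0 = ⊤)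
    (hle : ∀ i < r, S (i + 1) ≤ S i) (h : ∀ i < r, ∀ x ∈ S i, IsIntegral (S (i + 1)) x) :
    ∀ i ≤ r, ∀ x : A, IsIntegral (S i) x := by
  intro i
  induction i with
  | zero =>
    intro _ x
    have hx : x ∈ S 0 := by rw [h0]; trivial
    exact isIntegral_algebraMap (x := (⟨x, hx⟩ : S 0))
  | succ i ih =>
    intro hi x
    have h1 := ih (by omega) x
    let φ : S (i + 1) →+* S i := Subring.inclusion (hle i (by omega))
    have hφ : φ.IsIntegral := by
      intro y
      obtain ⟨q, hq, hq0⟩ := h i (by omega) y y.2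
      refine ⟨q, hq, ?_⟩
      apply Subtype.ext
      change (S i).subtype (Polynomial.eval₂ φ y q) = 0
      rw [Polynomial.hom_eval₂]
      exact hq0
    have hψ : ((S i).subtype).IsIntegral := fun y => ih (by omega) y
    have h2 := RingHom.IsIntegral.trans φ (S i).subtype hφ hψ
    exact h2 x

end Pool.Agent.H208Q
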