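import Pool.Agent.H208Q.O
import Pool.Agent.H208Q.L

/-!
Mixed chains of vector fields and automorphisms: the operators on the extended Rees algebra.
-/

set_option autoImplicit false
set_option linter.unusedSectionVars false

open AlgebraicGeometry CategoryTheory Pool.Agent.H920R2 Pool.Agent.H519R3.RS

namespace Pool.Agent.H208Q

/-- The operator `D` given by a vector field `D`, resp. `σ - 1` given by an automorphism `σ`. -/
def op {k B : Type} [Field k] [CommRing B] [Algebra k B]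
    (x : Derivation k B B ⊕ (B ≃ₐ[k] B)) (b : B) : B :=
  match x with
  | .inl D => D b
  | .inr σ => σ b - b

section ops

variable {k B : Type} [Field k] [CommRing B] [Algebra k B] {F : ℕ → Ideal B} (hF : IsFilt F)

/-- The elements with coefficients in a subalgebra. -/
noncomputable def SM (C : Subalgebra k B) : Subring (reesZ k hF) := (jC hF C).toRingHom.range

lemma mem_SM {C : Subalgebra k B} {f : reesZ k hF} :
    f ∈ SM hF C ↔ ∀ e, (f : AddMonoidAlgebra B ℤ).coeff e ∈ C := by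
  constructor
  · rintro ⟨f', rfl⟩ e
    change ((jC hF C f' : reesZ k hF) : AddMonoidAlgebra B ℤ).coeff e ∈ C
    rw [coeff_jC]
    exact Subtype.prop _
  · intro h
    obtain ⟨f', hf'⟩ := exists_jC hF C f h
    exact ⟨f', hf'⟩

/-- The operator on the extended Rees algebra. -/
noncomputable def opR (x : Derivation k B B ⊕ (B ≃ₐ[k] B)) {l : ℕ}
    (hdiv : ∀ d, ∀ a ∈ F d, op x a ∈ F (d + l)) : reesZ k hF →+ reesZ k hF :=
  match x, hdiv with
  | .inl D, h => derR D hF h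
  | .inr σ, h => delR (MonoidHom.id (B ≃ₐ[k] B)) hF (g := σ) h

lemma opR_coeff (x : Derivation k B B ⊕ (B ≃ₐ[k] B)) {l : ℕ}
    (hdiv : ∀ d, ∀ a ∈ F d, op x a ∈ F (d + l)) (f : reesZ k hF) (e : ℤ) :
    ((opR hF x hdiv f : reesZ k hF) : AddMonoidAlgebra B ℤ).coeff e =
      op x ((f : AddMonoidAlgebra B ℤ).coeff (e - l)) := by
  cases x with
  | inl D =>
    have hD : ∀ d, ∀ a ∈ F d, D a ∈ F (d + l) := hdiv
    change ((derR D hF hD f : reesZ k hF) : AddMonoidAlgebra B ℤ).coeff e = D _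
    rw [coe_derR, coeff_single_one_mul, mL_coeff]
  | inr σ =>
    have hD : ∀ d, ∀ a ∈ F d, (MonoidHom.id (B ≃ₐ[k] B)) σ a - a ∈ F (d + l) := hdiv
    change ((delR (MonoidHom.id (B ≃ₐ[k] B)) hF (g := σ) hD f : reesZ k hF) :
      AddMonoidAlgebra B ℤ).coeff e = σ _ - _
    rw [coe_delR, coeff_single_one_mul, AddMonoidAlgebra.coeff_sub, Finsupp.sub_apply, TA_coeff]
    rfl

lemma opR_single (x : Derivation k B B ⊕ (B ≃ₐ[k] B)) {l : ℕ}
    (hdiv : ∀ d, ∀ a ∈ F d, op x a ∈ F (d + l)) (e : ℤ) (c : B)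
    (h : AddMonoidAlgebra.single e c ∈ reesZ k hF) :
    ((opR hF x hdiv ⟨AddMonoidAlgebra.single e c, h⟩ : reesZ k hF) : AddMonoidAlgebra B ℤ) =
      AddMonoidAlgebra.single (l : ℤ) 1 * AddMonoidAlgebra.single e (op x c) := by
  cases x with
  | inl D =>
    change AddMonoidAlgebra.single (l : ℤ) (1 : B) * mL D (AddMonoidAlgebra.single e c) = _
    rw [mL_single]
    rfl
  | inr σ =>
    change AddMonoidAlgebra.single (l : ℤ) (1 : B) *
      (TA (MonoidHom.id (B ≃ₐ[k] B)) σ (AddMonoidAlgebra.single e c) -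
        AddMonoidAlgebra.single e c) = _
    rw [TA_single, ← AddMonoidAlgebra.single_sub]
    rfl

lemma opR_leib (x : Derivation k B B ⊕ (B ≃ₐ[k] B)) {l : ℕ}
    (hdiv : ∀ d, ∀ a ∈ F d, op x a ∈ F (d + l)) (hl : ∀ σ, x = .inr σ → 0 < l)
    (a b : reesZ k hF) : opR hF x hdiv (a * b) - (a * opR hF x hdiv b + b * opR hF x hdiv a) ∈
      Ideal.span {(sT hF : reesZ k hF)} := by
  cases x with
  | inl D =>
    have hD : ∀ d, ∀ a ∈ F d, D a ∈ F (d + l) := hdiv
    have h1 := derR_leib D hF hD a b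
    change derR D hF hD (a * b) - (a * derR D hF hD b + b * derR D hF hD a) ∈ _
    rw [h1, sub_self]
    exact Ideal.zero_mem _
  | inr σ =>
    exact delR_leib (MonoidHom.id (B ≃ₐ[k] B)) hF (g := σ) (hl σ rfl) hdiv a b

lemma opR_span (x : Derivation k B B ⊕ (B ≃ₐ[k] B)) {l : ℕ}
    (hdiv : ∀ d, ∀ a ∈ F d, op x a ∈ F (d + l))
    (a : reesZ k hF) (ha : a ∈ Ideal.span {(sT hF : reesZ k hF)}) :
    opR hF x hdiv a ∈ Ideal.span {(sT hF : reesZ k hF)} := by
  cases x with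
  | inl D =>
    have hD : ∀ d, ∀ a ∈ F d, D a ∈ F (d + l) := hdiv
    obtain ⟨b, rfl⟩ := Ideal.mem_span_singleton'.1 ha
    have h0 : derR D hF hD (sT hF) = 0 := by
      apply Subtype.ext
      change AddMonoidAlgebra.single (l : ℤ) (1 : B) * mL D (AddMonoidAlgebra.single (-1) 1) = 0
      rw [mL_single, Derivation.map_one_eq_zero, AddMonoidAlgebra.single_zero, mul_zero]
    change derR D hF hD (b * sT hF) ∈ _
    rw [derR_leib, h0, mul_zero, zero_add]
    exact Ideal.mul_mem_right _ _ (Ideal.mem_span_singleton_self _)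
  | inr σ => exact delR_span (MonoidHom.id (B ≃ₐ[k] B)) hF (g := σ) hdiv a ha

lemma opR_SM (x : Derivation k B B ⊕ (B ≃ₐ[k] B)) {l : ℕ}
    (hdiv : ∀ d, ∀ a ∈ F d, op x a ∈ F (d + l)) {C : Subalgebra k B}
    (hst : ∀ b ∈ C, op x b ∈ C) {f : reesZ k hF} (hf : f ∈ SM hF C) :
    opR hF x hdiv f ∈ SM hF C := by
  rw [mem_SM] at hf ⊢
  intro e
  rw [opR_coeff]
  exact hst _ (hf _)

lemma opR_SM_iter (x : Derivation k B B ⊕ (B ≃ₐ[k] B)) {l : ℕ}
    (hdiv : ∀ d, ∀ a ∈ F d, op x a ∈ F (d + l)) {C : Subalgebra k B}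
    (hst : ∀ b ∈ C, op x b ∈ C) (n : ℕ) {f : reesZ k hF} (hf : f ∈ SM hF C) :
    (opR hF x hdiv)^[n] f ∈ SM hF C := by
  induction n with
  | zero => exact hf
  | succ n ih =>
    rw [Function.iterate_succ_apply']
    exact opR_SM hF x hdiv hst ih

lemma mem_SM_succ (x : Derivation k B B ⊕ (B ≃ₐ[k] B)) {l : ℕ}
    (hdiv : ∀ d, ∀ a ∈ F d, op x a ∈ F (d + l)) {C C' : Subalgebra k B}
    (hC' : ∀ b, b ∈ C' ↔ b ∈ C ∧ op x b = 0) {f : reesZ k hF} (hf : f ∈ SM hF C)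
    (h0 : opR hF x hdiv f = 0) : f ∈ SM hF C' := by
  rw [mem_SM] at hf ⊢
  intro e
  rw [hC']
  refine ⟨hf e, ?_⟩
  have h1 := opR_coeff hF x hdiv f (e + l)
  rw [h0, add_sub_cancel_right] at h1
  exact h1.symm

lemma pow_apply_iter (σ : B ≃ₐ[k] B) (n : ℕ) (b : B) : (σ ^ n) b = σ^[n] b := by
  induction n with
  | zero => rfl
  | succ n ih => rw [Function.iterate_succ_apply', ← ih, pow_succ']; rfl

/-- The operator into the next ring, for automorphisms. -/
lemma opR_last_aut {p : ℕ} (hp : p.Prime) (hpk : (p : k) = 0) (σ : B ≃ₐ[k] B) {l : ℕ}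
    (hdiv : ∀ d, ∀ a ∈ F d, op (.inr σ) a ∈ F (d + l)) {C C' : Subalgebra k B}
    (hst : ∀ b ∈ C, op (.inr σ) b ∈ C) (hσ : ∀ b ∈ C, σ^[p] b = b)
    (hC' : ∀ b, b ∈ C' ↔ b ∈ C ∧ op (.inr σ) b = 0) {f : reesZ k hF} (hf : f ∈ SM hF C) :
    (opR hF (.inr σ) hdiv)^[p - 1] f ∈ SM hF C' := by
  refine mem_SM_succ hF (.inr σ) hdiv hC' (opR_SM_iter hF _ hdiv hst _ hf) ?_
  rw [← Function.iterate_succ_apply' (opR hF (.inr σ) hdiv)]
  have h3 : (p - 1).succ = p := Nat.succ_pred_prime hp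
  rw [h3]
  have hD : ∀ d, ∀ a ∈ F d, (MonoidHom.id (B ≃ₐ[k] B)) σ a - a ∈ F (d + l) := hdiv
  change (delR (MonoidHom.id (B ≃ₐ[k] B)) hF (g := σ) hD)^[p] f = 0
  apply Subtype.ext
  rw [coe_delR_iter, diff_iter hp hpk (TA (MonoidHom.id (B ≃ₐ[k] B)) σ) _ (by
    rw [TA_iter]
    apply AddMonoidAlgebra.coeff_injective
    ext e
    rw [TA_coeff]
    change (σ ^ p) _ = _
    rw [pow_apply_iter, hσ _ ((mem_SM hF).1 hf e)]), mul_zero]
  rfl

/-- The operator into the next ring, for vector fields. -/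
lemma opR_last_der {p : ℕ} (hp : p.Prime) (hpk : (p : k) = 0) (D : Derivation k B B) {l : ℕ}
    (hdiv : ∀ d, ∀ a ∈ F d, op (.inl D) a ∈ F (d + l)) {C C' : Subalgebra k B}
    (hst : ∀ b ∈ C, op (.inl D) b ∈ C)
    (hcl : ∀ b ∈ C, ∀ c ∈ C, D^[p] b * D c = D^[p] c * D b)
    (hC' : ∀ b, b ∈ C' ↔ b ∈ C ∧ op (.inl D) b = 0)
    {t f : reesZ k hF} (ht : t ∈ SM hF C) (hf : f ∈ SM hF C) :
    (opR hF (.inl D) hdiv t) ^ p * ((opR hF (.inl D) hdiv t) ^ p *
      (opR hF (.inl D) hdiv)^[p - 1] f - (opR hF (.inl D) hdiv t) ^ (p - 1) *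
      (opR hF (.inl D) hdiv)^[p] t * f) ∈ SM hF C' := by
  have hD : ∀ d, ∀ a ∈ F d, D a ∈ F (d + l) := hdiv
  set δ := opR hF (.inl D) hdiv with hδ
  have hδ' : δ = derR D hF hD := rfl
  have hL : ∀ a b, δ (a * b) = a * δ b + b * δ a := derR_leib D hF hD
  -- `p`-closedness
  have hcl' : ∀ x ∈ SM hF C, ∀ y ∈ SM hF C, δ^[p] x * δ y = δ^[p] y * δ x := by
    intro x hx y hy
    apply Subtype.ext
    change ((δ^[p] x : reesZ k hF) : AddMonoidAlgebra B ℤ) * ((δ y : reesZ k hF) :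
      AddMonoidAlgebra B ℤ) = ((δ^[p] y : reesZ k hF) : AddMonoidAlgebra B ℤ) *
      ((δ x : reesZ k hF) : AddMonoidAlgebra B ℤ)
    rw [hδ', coe_derR_iter, coe_derR_iter, coe_derR, coe_derR]
    have h1 := mL_closed D (p := p) (f := (x : AddMonoidAlgebra B ℤ))
      (t := (y : AddMonoidAlgebra B ℤ))
      (fun d e => hcl _ ((mem_SM hF).1 hx d) _ ((mem_SM hF).1 hy e))
    linear_combination (AddMonoidAlgebra.single (l : ℤ) (1 : B) ^ p *
      AddMonoidAlgebra.single (l : ℤ) (1 : B)) * h1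
  have hδp : ∀ x, δ (x ^ p) = 0 := by
    intro x
    apply Subtype.ext
    rw [hδ', coe_derR]
    change AddMonoidAlgebra.single (l : ℤ) (1 : B) * mL D ((x : AddMonoidAlgebra B ℤ) ^ p) = 0
    rw [mL_pow_p D hp hpk, mul_zero]
  have hpow : ∀ (n : ℕ) (x : reesZ k hF), δ (x ^ (n + 1)) = (n + 1 : reesZ k hF) *
      (x ^ n * δ x) := by
    intro n x
    induction n with
    | zero => simp
    | succ n ih =>
      rw [pow_succ' x (n + 1), hL, ih]
      push_cast
      ring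
  have hp0 : ((p : ℕ) : reesZ k hF) = 0 := by
    rw [← map_natCast (algebraMap k (reesZ k hF)), hpk, map_zero]
  have htm : δ t ∈ SM hF C := opR_SM hF _ hdiv hst ht
  have hmem : (δ t) ^ p * ((δ t) ^ p * δ^[p - 1] f - (δ t) ^ (p - 1) * δ^[p] t * f) ∈
      SM hF C := by
    refine (SM hF C).mul_mem ((SM hF C).pow_mem htm _) ((SM hF C).sub_mem
      ((SM hF C).mul_mem ((SM hF C).pow_mem htm _) (opR_SM_iter hF _ hdiv hst _ hf))
      ((SM hF C).mul_mem ((SM hF C).mul_mem ((SM hF C).pow_mem htm _)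
        (opR_SM_iter hF _ hdiv hst _ ht)) hf))
  refine mem_SM_succ hF (.inl D) hdiv hC' hmem ?_
  change δ _ = 0
  obtain ⟨q, hq⟩ : ∃ q, p = q + 2 := ⟨p - 2, by have := hp.two_le; omega⟩
  have e1 : δ (δ^[p - 1] f) = δ^[p] f := by
    have h1 : p = (p - 1) + 1 := by omega
    conv_rhs => rw [h1, Function.iterate_succ_apply']
  have e2 : δ (δ^[p] t) = δ^[p] (δ t) := by
    rw [← Function.iterate_succ_apply' δ, Function.iterate_succ_apply]
  have h1 := hcl' f hf t ht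
  have h2 := hcl' (δ t) htm t ht
  have e3 : δ ((δ t) ^ (p - 1)) = (q + 1 : reesZ k hF) * ((δ t) ^ q * δ (δ t)) := by
    have h3 : p - 1 = q + 1 := by omega
    rw [h3, hpow]
  have e4 : (q + 2 : reesZ k hF) = 0 := by
    rw [hq] at hp0
    push_cast at hp0
    exact hp0
  have e5 : (δ t) ^ p = (δ t) ^ (q + 1) * δ t := by rw [hq, pow_succ]
  have e6 : (δ t) ^ (p - 1) = (δ t) ^ q * δ t := by
    have h3 : p - 1 = q + 1 := by omega
    rw [h3, pow_succ]
  rw [hL, hδp, mul_zero, add_zero, map_sub, hL, hδp, mul_zero, add_zero, e1,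
    hL _ f, hL _ (δ^[p] t), e2, e3, e5, e6]
  linear_combination ((δ t) ^ (q + 1) * (δ t) ^ (q + 1) * δ t) * h1 -
    ((δ t) ^ (q + 1) * (δ t) ^ q * δ t * f) * h2 -
    ((δ t) ^ (q + 1) * (δ t) ^ q * δ t * δ (δ t) * δ^[p] t * f) * e4

/-- The action of an automorphism. -/
noncomputable def tauR (σ : B ≃ₐ[k] B) {l : ℕ}
    (hdiv : ∀ d, ∀ a ∈ F d, op (.inr σ) a ∈ F (d + l)) : reesZ k hF →+* reesZ k hF where
  toFun f := ⟨TA (MonoidHom.id (B ≃ₐ[k] B)) σ (f : AddMonoidAlgebra B ℤ), fun d => by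
    rw [TA_coeff]
    change σ _ ∈ _
    have h1 := hdiv _ _ (f.2 d)
    have h2 : σ ((f : AddMonoidAlgebra B ℤ).coeff d) =
        op (.inr σ) ((f : AddMonoidAlgebra B ℤ).coeff d) +
          (f : AddMonoidAlgebra B ℤ).coeff d := by
      change _ = σ _ - _ + _
      rw [sub_add_cancel]
    rw [h2]
    exact Ideal.add_mem _ (hF.anti _ _ (by omega) h1) (f.2 d)⟩
  map_zero' := Subtype.ext (map_zero _)
  map_one' := Subtype.ext (map_one _)
  map_add' := fun a b => Subtype.ext (map_add _ _ _)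
  map_mul' := fun a b => Subtype.ext (map_mul _ _ _)

lemma tauR_coeff (σ : B ≃ₐ[k] B) {l : ℕ}
    (hdiv : ∀ d, ∀ a ∈ F d, op (.inr σ) a ∈ F (d + l)) (f : reesZ k hF) (e : ℤ) :
    ((tauR hF σ hdiv f : reesZ k hF) : AddMonoidAlgebra B ℤ).coeff e =
      σ ((f : AddMonoidAlgebra B ℤ).coeff e) := by
  change (TA (MonoidHom.id (B ≃ₐ[k] B)) σ (f : AddMonoidAlgebra B ℤ)).coeff e = _
  rw [TA_coeff]
  rfl

/-- Integrality of the steps. -/
lemma isIntegral_step {p : ℕ} (hp : p.Prime) (hpk : (p : k) = 0)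
    (x : Derivation k B B ⊕ (B ≃ₐ[k] B)) {l : ℕ}
    (hdiv : ∀ d, ∀ a ∈ F d, op x a ∈ F (d + l)) {C C' : Subalgebra k B}
    (hst : ∀ b ∈ C, op x b ∈ C) (hσ : ∀ σ, x = .inr σ → ∀ b ∈ C, σ^[p] b = b)
    (hC' : ∀ b, b ∈ C' ↔ b ∈ C ∧ op x b = 0) (f : reesZ k hF) (hf : f ∈ SM hF C) :
    IsIntegral (SM hF C') f := by
  cases x with
  | inl D =>
    have h1 : f ^ p ∈ SM hF C' := by
      refine mem_SM_succ hF (.inl D) hdiv hC' ((SM hF C).pow_mem hf p) ?_
      apply Subtype.ext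
      change AddMonoidAlgebra.single (l : ℤ) (1 : B) * mL D ((f : AddMonoidAlgebra B ℤ) ^ p) = 0
      rw [mL_pow_p D hp hpk, mul_zero]
    refine ⟨Polynomial.X ^ p - Polynomial.C ⟨f ^ p, h1⟩,
      Polynomial.monic_X_pow_sub_C _ hp.ne_zero, ?_⟩
    rw [Polynomial.eval₂_sub, Polynomial.eval₂_pow, Polynomial.eval₂_X, Polynomial.eval₂_C]
    exact sub_self _
  | inr σ =>
    have hσ' := hσ σ rfl
    have hσC : ∀ b ∈ C, σ b ∈ C := by
      intro b hb
      have h1 := C.add_mem (hst b hb) hb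
      have h2 : op (.inr σ) b + b = σ b := sub_add_cancel _ _
      rwa [h2] at h1
    let τ : SM hF C →+* SM hF C :=
      ((tauR hF σ hdiv).comp (SM hF C).subtype).codRestrict (SM hF C) fun g => by
        rw [mem_SM]
        intro e
        change ((tauR hF σ hdiv g : reesZ k hF) : AddMonoidAlgebra B ℤ).coeff e ∈ C
        rw [tauR_coeff]
        exact hσC _ ((mem_SM hF).1 g.2 e)
    have hτc : ∀ (g : SM hF C) (e : ℤ), (((τ g : SM hF C) : reesZ k hF) :
        AddMonoidAlgebra B ℤ).coeff e = σ (((g : reesZ k hF) : AddMonoidAlgebra B ℤ).coeff e) :=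
      fun g e => tauR_coeff hF σ hdiv g e
    have hτi : ∀ (n : ℕ) (g : SM hF C) (e : ℤ), (((τ^[n] g : SM hF C) : reesZ k hF) :
        AddMonoidAlgebra B ℤ).coeff e =
          σ^[n] (((g : reesZ k hF) : AddMonoidAlgebra B ℤ).coeff e) := by
      intro n
      induction n with
      | zero => intro g e; rfl
      | succ n ih =>
        intro g e
        rw [Function.iterate_succ_apply', hτc, ih, Function.iterate_succ_apply']
    obtain ⟨q, hq, hq0⟩ := isIntegral_cyc τ hp.pos (fun g => by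
      apply Subtype.ext
      apply Subtype.ext
      apply AddMonoidAlgebra.coeff_injective
      ext e
      rw [hτi, hσ' _ ((mem_SM hF).1 g.2 e)]) ((SM hF C').comap (SM hF C).subtype)
      (fun g hg => by
        rw [Subring.mem_comap, mem_SM]
        intro e
        rw [hC']
        refine ⟨(mem_SM hF).1 g.2 e, ?_⟩
        have h1 := hτc g e
        rw [hg] at h1
        change σ _ - _ = 0
        rw [sub_eq_zero]
        exact h1.symm) ⟨f, hf⟩
    let ψ : (SM hF C').comap (SM hF C).subtype →+* SM hF C' :=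
      (((SM hF C).subtype).comp ((SM hF C').comap (SM hF C).subtype).subtype).codRestrict _
        fun y => y.2
    refine ⟨q.map ψ, hq.map ψ, ?_⟩
    rw [Polynomial.eval₂_map]
    have h2 := congrArg (SM hF C).subtype hq0
    rw [Polynomial.hom_eval₂, map_zero] at h2
    exact h2

end ops

end Pool.Agent.H208Q
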