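import Pool.Agent.H208Q.P
import Pool.Agent.H208Q.K

/-!
Mixed chains of vector fields and automorphisms whose leading forms are linearly independent outside
the vertex.
-/

set_option autoImplicit false
set_option linter.unusedSectionVars false

open AlgebraicGeometry CategoryTheory Pool.Agent.H920R2 Pool.Agent.H519R3.RS

namespace Pool.Agent.H208Q

section main

variable {k B : Type} [Field k] [CommRing B] [Algebra k B]
  (δ : ℕ → Derivation k B B ⊕ (B ≃ₐ[k] B)) {F : ℕ → Ideal B} (hF : IsFilt F)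

lemma op_zero (x : Derivation k B B ⊕ (B ≃ₐ[k] B)) : op x 0 = 0 := by
  cases x with
  | inl D => exact map_zero D
  | inr σ =>
    change σ 0 - 0 = 0
    rw [map_zero, sub_zero]

lemma opR_hT {p : ℕ} (hp : p.Prime) (hpk : (p : k) = 0)
    (x : Derivation k B B ⊕ (B ≃ₐ[k] B)) {l : ℕ}
    (hdiv : ∀ d, ∀ a ∈ F d, op x a ∈ F (d + l)) {C C' : Subalgebra k B}
    (hst : ∀ b ∈ C, op x b ∈ C)
    (hcl : ∀ D, x = .inl D → ∀ b ∈ C, ∀ c ∈ C, D^[p] b * D c = D^[p] c * D b)
    (hσ : ∀ σ, x = .inr σ → ∀ b ∈ C, σ^[p] b = b)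
    (hC' : ∀ b, b ∈ C' ↔ b ∈ C ∧ op x b = 0) :
    (∀ f ∈ SM hF C, (opR hF x hdiv)^[p - 1] f ∈ SM hF C') ∨
    (∀ t ∈ SM hF C, ∀ f ∈ SM hF C, (opR hF x hdiv t) ^ p * ((opR hF x hdiv t) ^ p *
      (opR hF x hdiv)^[p - 1] f - (opR hF x hdiv t) ^ (p - 1) *
      (opR hF x hdiv)^[p] t * f) ∈ SM hF C') := by
  cases x with
  | inl D =>
    exact Or.inr fun t ht f hf => opR_last_der hF hp hpk D hdiv hst (hcl D rfl) hC' ht hf
  | inr σ =>
    exact Or.inl fun f hf => opR_last_aut hF hp hpk σ hdiv hst (hσ σ rfl) hC' hf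

/-- The main step. -/
theorem radM {p : ℕ} (hp : p.Prime) (hpk : (p : k) = 0) {r : ℕ} (l : ℕ → ℕ)
    (C : ℕ → Subalgebra k B) (hC0 : C 0 = ⊤)
    (hC : ∀ i < r, ∀ b, b ∈ C (i + 1) ↔ b ∈ C i ∧ op (δ i) b = 0)
    (hst : ∀ i < r, ∀ b ∈ C i, op (δ i) b ∈ C i)
    (hcl : ∀ i < r, ∀ D, δ i = .inl D → ∀ b ∈ C i, ∀ c ∈ C i, D^[p] b * D c = D^[p] c * D b)
    (hσ : ∀ i < r, ∀ σ, δ i = .inr σ → ∀ b ∈ C i, σ^[p] b = b)
    (hl : ∀ i < r, ∀ σ, δ i = .inr σ → 0 < l i)
    (hdiv : ∀ i < r, ∀ d, ∀ a ∈ F d, op (δ i) a ∈ F (d + l i))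
    (hfix : ∀ i < r, ∀ P : Ideal B, P.IsPrime → (∀ c ∈ C i, op (δ i) c ∈ P) → F 1 ≤ P)
    (hlead : ∀ d, 1 ≤ d → ∀ a ∈ F d, ∃ N : ℕ,
      a ^ N ∈ detI (fun (i : Fin r) b => op (δ i) b) F (fun i => l i) (N * d))
    (i : ℕ) (hi : i < r) :
    RadZ (k := k) (isFilt_restr hF (C i))
      (fun c => (⟨op (δ i) c, hst i hi c c.2⟩ : C i)) (l i) := by
  classical
  intro Q hQ hQ0 d a ha hd
  by_contra hcon
  -- lying over
  have hint := isIntegral_chain (fun i => SM hF (C i)) r
    (by
      rw [eq_top_iff]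
      intro f _
      rw [mem_SM]
      intro e
      rw [hC0]
      trivial)
    (fun i hi f hf => by
      rw [mem_SM] at hf ⊢
      exact fun e => ((hC i hi _).1 (hf e)).1)
    (fun i hi f hf => isIntegral_step hF hp hpk (δ i) (hdiv i hi) (hst i hi) (hσ i hi)
      (hC i hi) f hf) i hi.le
  obtain ⟨Q', hQ', hQQ'⟩ : ∃ Q' : Ideal (reesZ k hF), Q'.IsPrime ∧
      ∀ f, jC hF (C i) f ∈ Q' ↔ f ∈ Q := by
    let _ : Algebra (reesZ k (isFilt_restr hF (C i))) (reesZ k hF) :=
      (jC hF (C i)).toRingHom.toAlgebra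
    have hinj : Function.Injective (jC hF (C i)) := by
      intro a b hab
      apply Subtype.ext
      apply AddMonoidAlgebra.coeff_injective
      ext d
      have h1 := congrArg (fun f : reesZ k hF => (f : AddMonoidAlgebra B ℤ).coeff d) hab
      change ((jC hF (C i) a : reesZ k hF) : AddMonoidAlgebra B ℤ).coeff d =
        ((jC hF (C i) b : reesZ k hF) : AddMonoidAlgebra B ℤ).coeff d at h1
      rw [coeff_jC, coeff_jC] at h1
      exact h1
    have hint' : Algebra.IsIntegral (reesZ k (isFilt_restr hF (C i))) (reesZ k hF) := by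
      constructor
      intro f
      obtain ⟨q, hq, hq0⟩ := hint f
      let e : reesZ k (isFilt_restr hF (C i)) ≃+* SM hF (C i) :=
        RingEquiv.ofBijective (jC hF (C i)).toRingHom.rangeRestrict
          ⟨fun a b hab => hinj (congrArg Subtype.val hab),
            (jC hF (C i)).toRingHom.rangeRestrict_surjective⟩
      refine ⟨q.map (e.symm : SM hF (C i) →+* _), hq.map _, ?_⟩
      rw [Polynomial.eval₂_map]
      have h1 : (algebraMap (reesZ k (isFilt_restr hF (C i))) (reesZ k hF)).comp
          (e.symm : SM hF (C i) →+* reesZ k (isFilt_restr hF (C i))) =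
          algebraMap (SM hF (C i)) (reesZ k hF) := by
        ext1 y
        change (e (e.symm y) : reesZ k hF) = y
        rw [RingEquiv.apply_symm_apply]
      rw [h1]
      exact hq0
    obtain ⟨Q', -, hQ', h⟩ := Ideal.exists_ideal_over_prime_of_isIntegral (S := reesZ k hF)
      Q ⊥ (by
        have h2 : Function.Injective (algebraMap (reesZ k (isFilt_restr hF (C i)))
          (reesZ k hF)) := hinj
        rw [← RingHom.ker_eq_comap_bot, (RingHom.injective_iff_ker_eq_bot _).1 h2]
        exact bot_le)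
    refine ⟨Q', hQ', fun f => ?_⟩
    rw [← h]
    rfl
  let δR : ℕ → reesZ k hF →+ reesZ k hF := fun j =>
    if h : j < r then opR hF (δ j) (hdiv j h) else 0
  have hδ : ∀ j (h : j < r), δR j = opR hF (δ j) (hdiv j h) := fun j h => dif_pos h
  have hδ' : ∀ j, ¬ j < r → δR j = 0 := fun j h => dif_neg h
  have haF : (a : B) ∈ F d := ha
  let x : reesZ k hF := ⟨AddMonoidAlgebra.single (d : ℤ) (a : B), single_mem_reesZ hF haF⟩
  have hj : ∀ (e : ℤ) (c : C i) (h : AddMonoidAlgebra.single e c ∈
      reesZ k (isFilt_restr hF (C i))),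
      ((jC hF (C i) ⟨AddMonoidAlgebra.single e c, h⟩ : reesZ k hF) :
        AddMonoidAlgebra B ℤ) = AddMonoidAlgebra.single e (c : B) := by
    intro e c h
    apply AddMonoidAlgebra.coeff_injective
    ext e'
    rw [coeff_jC, AddMonoidAlgebra.coeff_single, AddMonoidAlgebra.coeff_single,
      Finsupp.single_apply, Finsupp.single_apply]
    split_ifs <;> rfl
  have hxQ : x ∉ Q' := by
    intro h
    apply hcon
    rw [← hQQ']
    have h1 : jC hF (C i) ⟨AddMonoidAlgebra.single (d : ℤ) a, single_mem_reesZ _ ha⟩ = x :=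
      Subtype.ext (hj _ _ _)
    rw [h1]
    exact h
  -- it suffices to find an element
  have hmain : ∃ f ∈ SM hF (C i), δR i f ∉ Q' := by
    by_cases hT : sT hF ∈ Q'
    · obtain ⟨κ, _, ev, hev0⟩ := exists_field Q' hQ'
      have hchar : CharP κ p := by
        refine (CharP.charP_iff_prime_eq_zero hp).2 ?_
        have h1 : ((p : ℕ) : reesZ k hF) = 0 := by
          rw [← map_natCast (algebraMap k (reesZ k hF)), hpk, map_zero]
        rw [← map_natCast ev, h1, map_zero]
      have hdet : ∃ c : Fin r → reesZ k hF,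
          (Matrix.of fun i j : Fin r => ev (δR i (c j))).det ≠ 0 := by
        by_contra hcon2
        push Not at hcon2
        have hdetQ : ∀ c : Fin r → reesZ k hF,
            (Matrix.of fun (i j : Fin r) => opR hF (δ i) (hdiv i i.2) (c j)).det ∈ Q' := by
          intro c
          rw [← hev0]
          have h1 := hcon2 c
          have h2 := RingHom.map_det ev
            (Matrix.of fun (i j : Fin r) => opR hF (δ i) (hdiv i i.2) (c j))
          rw [h2, ← h1]
          congr 1
          ext1 i j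
          change ev _ = ev _
          rw [hδ i i.2]
          rfl
        obtain ⟨N, hN⟩ := hlead d hd a haF
        exact hxQ (det_case' hF (fun (i : Fin r) b => op (δ i) b) (fun i => l i)
          (fun i => opR hF (δ i) (hdiv i i.2)) (fun i e c hc =>
            opR_single hF (δ i) (hdiv i i.2) e c _) Q' hQ' hT hdetQ d N a haF hN)
      obtain ⟨t, ht, ht'⟩ := exists_nonzeroM (Ideal.span {(sT hF : reesZ k hF)}) ev
        (fun a ha => by
          rw [hev0]
          exact (Ideal.span_singleton_le_iff_mem _).2 hT ha) δR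
        (fun j a b => by
          by_cases h : j < r
          · rw [hδ j h]
            exact opR_leib hF (δ j) (hdiv j h) (hl j h) a b
          · rw [hδ' j h]
            simp)
        (fun j a ha => by
          by_cases h : j < r
          · rw [hδ j h]
            exact opR_span hF (δ j) (hdiv j h) a ha
          · rw [hδ' j h]
            exact Ideal.zero_mem _) hp r (fun j => SM hF (C j))
        (fun j h f hf => by
          rw [hδ j h]
          exact opR_SM hF (δ j) (hdiv j h) (hst j h) hf)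
        (fun j h => by
          rw [hδ j h]
          exact opR_hT hF hp hpk (δ j) (hdiv j h) (hst j h) (hcl j h) (hσ j h) (hC j h))
        (by
          rw [eq_top_iff]
          intro f _
          rw [mem_SM]
          intro e
          rw [hC0]
          trivial) hdet i hi
      exact ⟨t, ht, fun h => ht' ((hev0 _).2 h)⟩
    · have h0 : ∀ b : B, AddMonoidAlgebra.single (0 : ℤ) b ∈ reesZ k hF := fun b =>
        single_mem hF 0 b (by
          change b ∈ F 0
          rw [hF.zero]
          trivial)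
      let ib : B →+* reesZ k hF :=
        (AddMonoidAlgebra.singleZeroRingHom (R := B) (M := ℤ)).codRestrict
          (reesZ k hF).toSubring h0
      have hib : ∀ b, ((ib b : reesZ k hF) : AddMonoidAlgebra B ℤ) =
          AddMonoidAlgebra.single (0 : ℤ) b := fun b => rfl
      have hnF : ¬ F 1 ≤ Q'.comap ib := by
        intro h1
        have h2 : (a : B) ∈ Q'.comap ib := h1 (hF.anti 1 d hd haF)
        rw [Ideal.mem_comap] at h2
        have h4 : ib a = sT hF ^ d * x := by
          apply Subtype.ext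
          change _ = ((sT hF : reesZ k hF) : AddMonoidAlgebra B ℤ) ^ d *
            AddMonoidAlgebra.single (d : ℤ) (a : B)
          rw [sT_pow, AddMonoidAlgebra.single_mul_single, neg_add_cancel, one_mul, hib]
        rw [h4] at h2
        rcases hQ'.mem_or_mem h2 with h5 | h5
        · exact hT (hQ'.mem_of_pow_mem _ h5)
        · exact hxQ h5
      have h1 : ∃ c ∈ C i, op (δ i) c ∉ Q'.comap ib := by
        by_contra hcon3
        push Not at hcon3
        exact hnF (hfix i hi _ (hQ'.comap _) hcon3)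
      obtain ⟨c, hc, hcQ⟩ := h1
      refine ⟨ib c, ?_, fun h2 => hcQ ?_⟩
      · rw [mem_SM]
        intro e
        rw [hib, AddMonoidAlgebra.coeff_single, Finsupp.single_apply]
        split_ifs
        · exact hc
        · exact (C i).zero_mem
      · rw [Ideal.mem_comap]
        have h3 : ib (op (δ i) c) = sT hF ^ l i * δR i (ib c) := by
          apply Subtype.ext
          rw [hδ i hi]
          change AddMonoidAlgebra.single (0 : ℤ) (op (δ i) c) =
            ((sT hF : reesZ k hF) : AddMonoidAlgebra B ℤ) ^ l i *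
              ((opR hF (δ i) (hdiv i hi) ⟨AddMonoidAlgebra.single 0 c, h0 c⟩ : reesZ k hF) :
                AddMonoidAlgebra B ℤ)
          rw [opR_single, sT_mul]
        rw [h3]
        exact Ideal.mul_mem_left _ _ h2
  obtain ⟨f, hf, hfQ⟩ := hmain
  apply hfQ
  obtain ⟨f', rfl⟩ := exists_jC hF (C i) f ((mem_SM hF).1 hf)
  refine mem_of_comp hF Q' _ fun e he => ?_
  set c := (f' : AddMonoidAlgebra (C i) ℤ).coeff (e - l i) with hcdef
  have hcoef : ((δR i (jC hF (C i) f') : reesZ k hF) : AddMonoidAlgebra B ℤ).coeff e =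
      ((⟨op (δ i) c, hst i hi c c.2⟩ : C i) : B) := by
    rw [hδ i hi, opR_coeff, coeff_jC]
  have hcF : c ∈ restr F (C i) (e - l i).toNat := f'.2 (e - l i)
  have hdF : (⟨op (δ i) c, hst i hi c c.2⟩ : C i) ∈ restr F (C i) ((e - l i).toNat + l i) :=
    hdiv i hi _ _ hcF
  have hsm : AddMonoidAlgebra.single (e - l i + l i)
      (⟨op (δ i) c, hst i hi c c.2⟩ : C i) ∈ reesZ k (isFilt_restr hF (C i)) :=
    single_mem _ _ _ ((isFilt_restr hF (C i)).anti _ _ (by omega) hdF)
  have h1 := hQ0 (e - l i) c hcF hsm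
  rw [← hQQ'] at h1
  have h2 : (⟨AddMonoidAlgebra.single e
      (((δR i (jC hF (C i) f') : reesZ k hF) : AddMonoidAlgebra B ℤ).coeff e), he⟩ :
      reesZ k hF) = jC hF (C i) ⟨AddMonoidAlgebra.single (e - l i + l i)
      (⟨op (δ i) c, hst i hi c c.2⟩ : C i), hsm⟩ := by
    apply Subtype.ext
    rw [hj]
    change AddMonoidAlgebra.single e _ = _
    rw [hcoef, sub_add_cancel]
  rw [h2]
  exact h1

end main

end Pool.Agent.H208Q
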