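import Pool.Agent.H208Q.R
import Pool.Agent.H519R3.RS.LU

/-!
The rings of a mixed chain of vector fields and automorphisms form good filtered algebras.
-/

set_option autoImplicit false
set_option linter.unusedSectionVars false

open AlgebraicGeometry CategoryTheory Pool.Agent.H920R2 Pool.Agent.H519R3.RS

namespace Pool.Agent.H208Q

section main

variable {k B : Type} [Field k] [CommRing B] [Algebra k B]

/-- The restriction of a vector field. -/
def derS (D : Derivation k B B) (C : Subalgebra k B) (h : ∀ b ∈ C, D b ∈ C) :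
    Derivation k C C where
  toLinearMap :=
    { toFun := fun b => ⟨D b, h b b.2⟩
      map_add' := fun a b => Subtype.ext (map_add D _ _)
      map_smul' := fun c b => Subtype.ext (D.map_smul c (b : B)) }
  map_one_eq_zero' := Subtype.ext D.map_one_eq_zero
  leibniz' := fun a b => Subtype.ext (D.leibniz (a : B) (b : B))

lemma coe_derS (D : Derivation k B B) (C : Subalgebra k B) (h : ∀ b ∈ C, D b ∈ C) (b : C) :
    (derS D C h b : B) = D b := rfl

lemma coe_derS_iter (D : Derivation k B B) (C : Subalgebra k B) (h : ∀ b ∈ C, D b ∈ C)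
    (n : ℕ) (b : C) : (((derS D C h)^[n] b : C) : B) = D^[n] b := by
  induction n with
  | zero => rfl
  | succ n ih => rw [Function.iterate_succ_apply', coe_derS, ih, Function.iterate_succ_apply']

lemma iter_memC (σ : B ≃ₐ[k] B) (C : Subalgebra k B) (h : ∀ b ∈ C, σ b ∈ C) (n : ℕ) {b : B}
    (hb : b ∈ C) : σ^[n] b ∈ C := by
  induction n with
  | zero => exact hb
  | succ n ih =>
    rw [Function.iterate_succ_apply']
    exact h _ ih

/-- The restriction of an automorphism of finite order on the subalgebra. -/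
noncomputable def autS (σ : B ≃ₐ[k] B) (C : Subalgebra k B) (h : ∀ b ∈ C, σ b ∈ C) (n : ℕ)
    (hn : ∀ b ∈ C, σ^[n + 1] b = b) : C ≃ₐ[k] C :=
  AlgEquiv.ofBijective (((σ : B →ₐ[k] B).comp C.val).codRestrict C fun x => h _ x.2)
    ⟨fun a b hab => Subtype.ext (σ.injective (congrArg Subtype.val hab)), fun y =>
      ⟨⟨σ^[n] y, iter_memC σ C h n y.2⟩, Subtype.ext (by
        change σ (σ^[n] y) = y
        rw [← Function.iterate_succ_apply' σ]
        exact hn _ y.2)⟩⟩

lemma coe_autS (σ : B ≃ₐ[k] B) (C : Subalgebra k B) (h : ∀ b ∈ C, σ b ∈ C) (n : ℕ)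
    (hn : ∀ b ∈ C, σ^[n + 1] b = b) (b : C) : (autS σ C h n hn b : B) = σ b := rfl

lemma coe_autS_iter (σ : B ≃ₐ[k] B) (C : Subalgebra k B) (h : ∀ b ∈ C, σ b ∈ C) (n : ℕ)
    (hn : ∀ b ∈ C, σ^[n + 1] b = b) (m : ℕ) (b : C) :
    (((autS σ C h n hn)^[m] b : C) : B) = σ^[m] b := by
  induction m with
  | zero => rfl
  | succ m ih => rw [Function.iterate_succ_apply', coe_autS, ih, Function.iterate_succ_apply']

variable {F : ℕ → Ideal B} (hF : IsFilt F)

/-- The step. -/
theorem good_stepM [IsDomain B] {p : ℕ} (hp : p.Prime) (hpk : (p : k) = 0)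
    (x : Derivation k B B ⊕ (B ≃ₐ[k] B)) {l : ℕ} {C C' : Subalgebra k B}
    (hC : ∀ b, b ∈ C' ↔ b ∈ C ∧ op x b = 0) (hst : ∀ b ∈ C, op x b ∈ C)
    (hcl : ∀ D, x = .inl D → ∀ b ∈ C, ∀ c ∈ C, D^[p] b * D c = D^[p] c * D b)
    (hσ : ∀ σ, x = .inr σ → ∀ b ∈ C, σ^[p] b = b)
    (hl : ∀ σ, x = .inr σ → 0 < l)
    (hdiv : ∀ d, ∀ a ∈ F d, op x a ∈ F (d + l))
    (hrad : RadZ (k := k) (isFilt_restr hF C)
      (fun c => (⟨op x c, hst c c.2⟩ : C)) l)
    (h1 : Good k (isFilt_restr hF C)) (h2 : restr F C 1 ≠ ⊥) :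
    Good k (isFilt_restr hF C') ∧ restr F C' 1 ≠ ⊥ := by
  have hle : C' ≤ C := fun b hb => ((hC b).1 hb).1
  cases x with
  | inl D =>
    have hst' : ∀ b ∈ C, D b ∈ C := hst
    have hcl' := hcl D rfl
    have hφ : ∃ φ : FractionRing C, ∀ b, algebraMap C (FractionRing C)
        ((derS D C hst')^[p] b) = φ * algebraMap C (FractionRing C) (derS D C hst' b) := by
      by_cases h0 : ∀ b : C, derS D C hst' b = 0
      · refine ⟨0, fun b => ?_⟩
        obtain ⟨q, hq⟩ : ∃ q, p = q + 1 := ⟨p - 1, by have := hp.pos; omega⟩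
        rw [hq, Function.iterate_succ_apply', h0, map_zero, zero_mul]
      · push Not at h0
        obtain ⟨c, hc⟩ := h0
        have hc' : algebraMap C (FractionRing C) (derS D C hst' c) ≠ 0 := by
          rw [Ne, map_eq_zero_iff _ (IsFractionRing.injective C _)]
          exact hc
        refine ⟨algebraMap C (FractionRing C) ((derS D C hst')^[p] c) /
          algebraMap C (FractionRing C) (derS D C hst' c), fun b => ?_⟩
        rw [div_mul_eq_mul_div, eq_div_iff hc', ← map_mul, ← map_mul]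
        congr 1
        apply Subtype.ext
        change (((derS D C hst')^[p] b : C) : B) * D (c : B) =
          (((derS D C hst')^[p] c : C) : B) * D (b : B)
        rw [coe_derS_iter, coe_derS_iter]
        exact hcl' b b.2 c c.2
    obtain ⟨φ, hφ⟩ := hφ
    refine ⟨good_ker' hp hpk (derS D C hst') φ hφ (isFilt_restr hF C) h1 (l := l)
      ?_ hrad (Subalgebra.inclusion hle) (Subalgebra.inclusion_injective hle) ?_ _
      fun d c' => Iff.rfl, ?_⟩
    · intro d a ha
      exact hdiv d a ha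
    · rintro ⟨b, hb⟩
      constructor
      · intro h
        have h3 : D b = 0 := congrArg Subtype.val h
        exact ⟨⟨b, (hC b).2 ⟨hb, h3⟩⟩, rfl⟩
      · rintro ⟨⟨b', hb'⟩, h⟩
        have h6 : b' = b := congrArg Subtype.val h
        subst h6
        exact Subtype.ext ((hC b').1 hb').2
    · obtain ⟨a, ha, ha0⟩ := Submodule.exists_mem_ne_zero_of_ne_bot h2
      have hpB : ((p : ℕ) : B) = 0 := by rw [← map_natCast (algebraMap k B), hpk, map_zero]
      have hap : op (.inl D) ((a : B) ^ p) = 0 := by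
        change D ((a : B) ^ p) = 0
        rw [Derivation.leibniz_pow, nsmul_eq_mul, hpB, zero_mul]
      intro hbot'
      have h6 : (⟨(a : B) ^ p, (hC _).2 ⟨C.pow_mem a.2 p, hap⟩⟩ : C') ∈ restr F C' 1 := by
        rw [mem_restr]
        exact (F 1).pow_mem_of_mem ha p hp.pos
      rw [hbot', Ideal.mem_bot] at h6
      have h7 : (a : B) ^ p = 0 := congrArg Subtype.val h6
      exact ha0 (Subtype.ext (pow_eq_zero_iff hp.ne_zero |>.1 h7))
  | inr σ =>
    obtain ⟨n, rfl⟩ : ∃ n, p = n + 1 := ⟨p - 1, by have := hp.pos; omega⟩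
    have hσ' := hσ σ rfl
    have hσC : ∀ b ∈ C, σ b ∈ C := by
      intro b hb
      have h1 := C.add_mem (hst b hb) hb
      have h2 : op (.inr σ) b + b = σ b := sub_add_cancel _ _
      rwa [h2] at h1
    refine ⟨good_fix' hp hpk (autS σ C hσC n hσ') ?_ (isFilt_restr hF C) h1
      (hl σ rfl) ?_ hrad (Subalgebra.inclusion hle) (Subalgebra.inclusion_injective hle) ?_ _
      fun d c' => Iff.rfl, ?_⟩
    · intro b
      apply Subtype.ext
      rw [coe_autS_iter]
      exact hσ' _ b.2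
    · intro d a ha
      exact hdiv d a ha
    · rintro ⟨b, hb⟩
      constructor
      · intro h
        have h3 : σ b = b := congrArg Subtype.val h
        exact ⟨⟨b, (hC b).2 ⟨hb, sub_eq_zero.2 h3⟩⟩, rfl⟩
      · rintro ⟨⟨b', hb'⟩, h⟩
        have h6 : b' = b := congrArg Subtype.val h
        subst h6
        exact Subtype.ext (sub_eq_zero.1 ((hC b').1 hb').2)
    · -- the norm
      obtain ⟨a, ha, ha0⟩ := Submodule.exists_mem_ne_zero_of_ne_bot h2
      let b : B := ∏ m ∈ Finset.range (n + 1), σ^[m] (a : B)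
      have hbC : b ∈ C := Subalgebra.prod_mem _ fun m _ => iter_memC σ C hσC m a.2
      have hb : σ b = b := by
        change σ (∏ m ∈ Finset.range (n + 1), σ^[m] (a : B)) =
          ∏ m ∈ Finset.range (n + 1), σ^[m] (a : B)
        rw [map_prod]
        have h3 : ∀ m ∈ Finset.range (n + 1), σ (σ^[m] (a : B)) = σ^[m + 1] (a : B) :=
          fun m _ => (Function.iterate_succ_apply' _ _ _).symm
        rw [Finset.prod_congr rfl h3, Finset.prod_range_succ, hσ' _ a.2,
          Finset.prod_range_succ']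
        rfl
      have hb0 : b ≠ 0 := by
        rw [Finset.prod_ne_zero_iff]
        intro m _ h3
        apply ha0
        apply Subtype.ext
        have h4 : ∀ m, Function.Injective (σ^[m]) := fun m => σ.injective.iterate m
        have h5 : σ^[m] (0 : B) = 0 := by
          have h6 : ∀ m : ℕ, σ^[m] (0 : B) = 0 := by
            intro m
            induction m with
            | zero => rfl
            | succ m ih => rw [Function.iterate_succ_apply', ih, map_zero]
          exact h6 m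
        exact h4 m (h3.trans h5.symm)
      have hbF : b ∈ F 1 := by
        change (∏ m ∈ Finset.range (n + 1), σ^[m] (a : B)) ∈ F 1
        rw [Finset.prod_range_succ']
        exact Ideal.mul_mem_left _ _ ha
      intro hbot'
      have h6 : (⟨b, (hC b).2 ⟨hbC, sub_eq_zero.2 hb⟩⟩ : C') ∈ restr F C' 1 := hbF
      rw [hbot', Ideal.mem_bot] at h6
      exact hb0 (congrArg Subtype.val h6)

/-- The rings of the chain form good filtered algebras. -/
theorem good_chainM [IsDomain B] (δ : ℕ → Derivation k B B ⊕ (B ≃ₐ[k] B)) {p : ℕ}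
    (hp : p.Prime) (hpk : (p : k) = 0) {r : ℕ} (l : ℕ → ℕ)
    (C : ℕ → Subalgebra k B) (hC0 : C 0 = ⊤)
    (hC : ∀ i < r, ∀ b, b ∈ C (i + 1) ↔ b ∈ C i ∧ op (δ i) b = 0)
    (hst : ∀ i < r, ∀ b ∈ C i, op (δ i) b ∈ C i)
    (hcl : ∀ i < r, ∀ D, δ i = .inl D → ∀ b ∈ C i, ∀ c ∈ C i, D^[p] b * D c = D^[p] c * D b)
    (hσ : ∀ i < r, ∀ σ, δ i = .inr σ → ∀ b ∈ C i, σ^[p] b = b)
    (hl : ∀ i < r, ∀ σ, δ i = .inr σ → 0 < l i)
    (hdiv : ∀ i < r, ∀ d, ∀ a ∈ F d, op (δ i) a ∈ F (d + l i))
    (hfix : ∀ i < r, ∀ P : Ideal B, P.IsPrime → (∀ c ∈ C i, op (δ i) c ∈ P) → F 1 ≤ P)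
    (hlead : ∀ d, 1 ≤ d → ∀ a ∈ F d, ∃ N : ℕ,
      a ^ N ∈ detI (fun (i : Fin r) b => op (δ i) b) F (fun i => l i) (N * d))
    (hG : Good k hF) (hne : F 1 ≠ ⊥) :
    ∀ i ≤ r, Good k (isFilt_restr hF (C i)) ∧ restr F (C i) 1 ≠ ⊥ := by
  intro i
  induction i with
  | zero =>
    intro _
    exact good_top hF hG hne hC0
  | succ i ih =>
    intro hi
    obtain ⟨h1, h2⟩ := ih (by omega)
    have hi' : i < r := hi
    exact good_stepM hF hp hpk (δ i) (hC i hi') (hst i hi') (hcl i hi') (hσ i hi') (hl i hi')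
      (hdiv i hi') (radM δ hF hp hpk l C hC0 hC hst hcl hσ hl hdiv hfix hlead i hi') h1 h2

end main

end Pool.Agent.H208Q
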