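import Pool.Agent.H208Q.U

/-!
Towers of blocks.
-/

set_option autoImplicit false
set_option linter.unusedSectionVars false

open AlgebraicGeometry CategoryTheory Pool.Agent.H920R2 Pool.Agent.H519R3.RS

namespace Pool.Agent.H208Q

/-- One block of the tower. The operators `op (δ i)`, `i < r`, on `C` are given by vector fields `D`
or automorphisms `σ` of `C` (`op (δ i)` is `D`, resp. `σ - 1`); `S i` is the ring of the elements of
`C` killed by `op (δ 0), ..., op (δ (i - 1))`; it is stable under `op (δ i)`, and `D` is `p`-closed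
on `S i`, resp. `σ ^ p = 1` on `S i`; `op (δ i)` raises the weights of the filtration
`F d ∩ C` by `l i ≥ 0` (`l i > 0` for automorphisms); the zeros of `D`, resp. the fixed points of
`σ`, on `S i` lie in the centre; the leading forms of the operators are linearly independent
at every point outside the vertex (`detI`); and `C'` is the last ring `S r`. -/
def IsBlock (p : ℕ) {k B : Type} [Field k] [CommRing B] [Algebra k B] (F : ℕ → Ideal B)
    (C C' : Subalgebra k B) : Prop :=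
  ∃ (r : ℕ) (δ : ℕ → Derivation k C C ⊕ (C ≃ₐ[k] C)) (l : ℕ → ℕ) (S : ℕ → Subalgebra k C),
    (∀ i ≤ r, ∀ c : C, c ∈ S i ↔ ∀ j < i, op (δ j) c = 0) ∧
    (∀ i < r, ∀ c : C, c ∈ S i → op (δ i) c ∈ S i) ∧
    (∀ i < r, ∀ D : Derivation k C C, δ i = .inl D → ∀ b ∈ S i, ∀ c ∈ S i,
      D^[p] b * D c = D^[p] c * D b) ∧
    (∀ i < r, ∀ σ : C ≃ₐ[k] C, δ i = .inr σ → 0 < l i ∧ ∀ b ∈ S i, σ^[p] b = b) ∧
    (∀ i < r, ∀ d, ∀ a : C, (a : B) ∈ F d → ((op (δ i) a : C) : B) ∈ F (d + l i)) ∧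
    (∀ i < r, ∀ Q : Ideal C, Q.IsPrime → (∀ c : C, c ∈ S i → op (δ i) c ∈ Q) →
      ∀ a : C, (a : B) ∈ F 1 → a ∈ Q) ∧
    (∀ d, 1 ≤ d → ∀ a : C, (a : B) ∈ F d → ∃ N : ℕ,
      a ^ N ∈ detI (fun (i : Fin r) (c : C) => op (δ i) c) (fun d => (F d).comap C.val)
        (fun i => l i) (N * d)) ∧
    ∀ b, b ∈ C' ↔ ∃ c ∈ S r, (c : B) = b

section main

variable {k B : Type} [Field k] [CommRing B] [Algebra k B] {F : ℕ → Ideal B} (hF : IsFilt F)

/-- The blocks preserve good filtered algebras. -/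
theorem good_block [IsDomain B] {p : ℕ} (hp : p.Prime) (hpk : (p : k) = 0)
    {C C' : Subalgebra k B} (h : IsBlock p F C C') (h1 : Good k (isFilt_restr hF C))
    (h2 : restr F C 1 ≠ ⊥) : Good k (isFilt_restr hF C') ∧ restr F C' 1 ≠ ⊥ := by
  obtain ⟨r, δ, l, S, hS, hst, hcl, hσ, hdiv, hfix, hlead, hC'⟩ := h
  have hS0 : S 0 = ⊤ := by
    rw [eq_top_iff]
    intro b _
    rw [hS 0 (Nat.zero_le r)]
    intro j hj
    exact absurd hj (Nat.not_lt_zero j)
  have hSs : ∀ i < r, ∀ b, b ∈ S (i + 1) ↔ b ∈ S i ∧ op (δ i) b = 0 := by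
    intro i hi b
    rw [hS (i + 1) hi, hS i hi.le]
    constructor
    · intro h
      exact ⟨fun j hj => h j (by omega), h i (by omega)⟩
    · rintro ⟨h1, h2⟩ j hj
      rcases Nat.lt_succ_iff_lt_or_eq.1 hj with h | h
      · exact h1 j h
      · subst h
        exact h2
  obtain ⟨h3, h4⟩ := good_chainM (isFilt_restr hF C) δ hp hpk l S hS0 hSs hst hcl
    (fun i hi σ h => (hσ i hi σ h).2) (fun i hi σ h => (hσ i hi σ h).1) hdiv
    (fun i hi Q hQ h a ha => hfix i hi Q hQ h a ha) hlead h1 h2 r le_rfl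
  have hle : C' ≤ C := by
    intro b hb
    obtain ⟨c, -, rfl⟩ := (hC' b).1 hb
    exact c.2
  have hmem : ∀ b : C', (⟨b, hle b.2⟩ : C) ∈ S r := by
    intro b
    obtain ⟨c, hc, hcb⟩ := (hC' b).1 b.2
    have h5 : (⟨b, hle b.2⟩ : C) = c := Subtype.ext hcb.symm
    rw [h5]
    exact hc
  let j : C' →ₐ[k] S r := (Subalgebra.inclusion hle).codRestrict (S r) hmem
  refine ⟨good_congr (isFilt_restr (isFilt_restr hF C) (S r)) h3 j ?_ ?_ _
    fun d c' => Iff.rfl, ?_⟩
  · intro a b hab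
    apply Subtype.ext
    exact congrArg (fun z : S r => ((z : C) : B)) hab
  · rintro ⟨c, hc⟩
    exact ⟨⟨c, (hC' _).2 ⟨c, hc, rfl⟩⟩, rfl⟩
  · obtain ⟨a, ha, ha0⟩ := Submodule.exists_mem_ne_zero_of_ne_bot h4
    intro hbot
    have h5 : (⟨((a : C) : B), (hC' _).2 ⟨a, a.2, rfl⟩⟩ : C') ∈ restr F C' 1 := ha
    rw [hbot, Ideal.mem_bot] at h5
    exact ha0 (Subtype.ext (Subtype.ext (congrArg (fun z : C' => (z : B)) h5)))

/-- The rings of a tower of blocks form good filtered algebras. -/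
theorem good_blocks [IsDomain B] {p : ℕ} (hp : p.Prime) (hpk : (p : k) = 0) {n : ℕ}
    (E : ℕ → Subalgebra k B) (hE0 : E 0 = ⊤) (hE : ∀ m < n, IsBlock p F (E m) (E (m + 1)))
    (hG : Good k hF) (hne : F 1 ≠ ⊥) :
    ∀ m ≤ n, Good k (isFilt_restr hF (E m)) ∧ restr F (E m) 1 ≠ ⊥ := by
  intro m
  induction m with
  | zero =>
    intro _
    exact good_top hF hG hne hE0
  | succ m ih =>
    intro hm
    obtain ⟨h1, h2⟩ := ih (by omega)
    exact good_block hF hp hpk (hE m hm) h1 h2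

end main

end Pool.Agent.H208Q
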